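import Pool.Agent.MP_93f72d_an.Mg.ZGrid
import Pool.Agent.MP_93f72d_an.Defs

-- part MP_93f72d_an.Cells
section

/-!
Cells of a mesh in Euclidean space and the projections onto step functions.
-/

namespace Pool.Agent.MP_93f72d_an

open MeasureTheory Filter Topology Finset
open scoped ENNReal Classical

variable {d : ℕ} {𝕜 : Type} [RCLike 𝕜]

/-- Euclidean space -/
abbrev Rd (d : ℕ) := EuclideanSpace ℝ (Fin d)

/-- square integrable functions -/
noncomputable abbrev L2 (𝕜 : Type) [RCLike 𝕜] (d : ℕ) := Lp 𝕜 2 (volume : Measure (Rd d))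

lemma axisCube_eq (a : Rd d) (r : ℝ) :
    axisCube a r = WithLp.ofLp ⁻¹' (Set.univ.pi (fun i => Set.Ico (a i) (a i + r))) := by
  ext x; simp [axisCube]

lemma measurableSet_axisCube (a : Rd d) (r : ℝ) : MeasurableSet (axisCube a r) := by
  rw [axisCube_eq]
  exact (PiLp.volume_preserving_ofLp (Fin d)).measurable
    (MeasurableSet.univ_pi (fun _ => measurableSet_Ico))

lemma volume_axisCube (a : Rd d) {r : ℝ} (hr : 0 ≤ r) :
    volume (axisCube a r) = ENNReal.ofReal (r ^ d) := by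
  rw [axisCube_eq, (PiLp.volume_preserving_ofLp (Fin d)).measure_preimage
    (MeasurableSet.univ_pi (fun _ => measurableSet_Ico)).nullMeasurableSet, Real.volume_pi_Ico]
  simp [ENNReal.ofReal_pow hr]

lemma norm_le_of_coord {v : Rd d} {c : ℝ} (hc : 0 ≤ c) (h : ∀ i, |v i| ≤ c) :
    ‖v‖ ≤ (d + 1) * c := by
  rw [EuclideanSpace.norm_eq, Real.sqrt_le_iff]
  refine ⟨by positivity, ?_⟩
  calc _ ≤ ∑ _i : Fin d, c ^ 2 := sum_le_sum (fun i _ => by
        rw [Real.norm_eq_abs]; exact pow_le_pow_left₀ (abs_nonneg _) (h i) 2)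
    _ ≤ _ := by
        rw [sum_const, card_univ, Fintype.card_fin, nsmul_eq_mul, mul_pow]
        refine mul_le_mul_of_nonneg_right ?_ (sq_nonneg c)
        nlinarith [(Nat.cast_nonneg d : (0 : ℝ) ≤ d)]

lemma coord_le_norm (v : Rd d) (i : Fin d) : |v i| ≤ ‖v‖ := by
  simpa using PiLp.norm_apply_le v i

/-- the lattice point of the cell containing a point -/
noncomputable def idx (h : ℝ) (x : Rd d) : Fin d → ℤ := fun i => ⌊x i / h⌋

/-- a cell of the mesh -/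
def cell (h : ℝ) (z : Fin d → ℤ) : Set (Rd d) := axisCube (WithLp.toLp 2 (fun i => h * z i)) h

lemma mem_cell' {h : ℝ} {z : Fin d → ℤ} {x : Rd d} :
    x ∈ cell h z ↔ ∀ i, h * z i ≤ x i ∧ x i < h * z i + h := by
  simp [cell, axisCube]

lemma mem_cell {h : ℝ} (hh : 0 < h) {z : Fin d → ℤ} {x : Rd d} : x ∈ cell h z ↔ idx h x = z := by
  rw [mem_cell', funext_iff]
  refine forall_congr' (fun i => ?_)
  rw [idx, Int.floor_eq_iff, le_div_iff₀ hh, div_lt_iff₀ hh, mul_comm h, add_mul, one_mul]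

lemma idx_mem_zbox {h : ℝ} (hh : 0 < h) {k : ℕ} {l u : Fin d → ℤ} {x : Rd d} :
    idx h x ∈ zbox k l u ↔ ∀ i, h * 2 ^ k * l i ≤ x i ∧ x i < h * 2 ^ k * u i := by
  rw [mem_zbox']
  refine forall_congr' (fun i => ?_)
  rw [idx, Int.le_floor, Int.floor_lt, le_div_iff₀ hh, div_lt_iff₀ hh]
  push_cast
  rw [mul_comm _ h, mul_comm _ h, mul_assoc, mul_assoc]

lemma measurableSet_cell (h : ℝ) (z : Fin d → ℤ) : MeasurableSet (cell h z) :=
  measurableSet_axisCube _ _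

lemma volume_cell {h : ℝ} (hh : 0 < h) (z : Fin d → ℤ) :
    volume (cell h z) = ENNReal.ofReal (h ^ d) := volume_axisCube _ hh.le

lemma volume_cell_ne_top (h : ℝ) (z : Fin d → ℤ) : volume (cell h z) ≠ ∞ := by
  rw [cell, axisCube_eq, (PiLp.volume_preserving_ofLp (Fin d)).measure_preimage
    (MeasurableSet.univ_pi (fun _ => measurableSet_Ico)).nullMeasurableSet, Real.volume_pi_Ico]
  exact ENNReal.prod_ne_top (fun _ _ => ENNReal.ofReal_ne_top)

lemma volume_cell_ne_zero {h : ℝ} (hh : 0 < h) (z : Fin d → ℤ) : volume (cell h z) ≠ 0 := by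
  rw [volume_cell hh]
  exact (ENNReal.ofReal_pos.2 (by positivity)).ne'

lemma real_cell {h : ℝ} (hh : 0 < h) (z : Fin d → ℤ) : volume.real (cell h z) = h ^ d := by
  rw [measureReal_def, volume_cell hh, ENNReal.toReal_ofReal (by positivity)]

lemma cell_disjoint {h : ℝ} (hh : 0 < h) {z z' : Fin d → ℤ} (hne : z ≠ z') :
    Disjoint (cell h z) (cell h z') := by
  rw [Set.disjoint_left]
  intro x hx hx'
  exact hne (((mem_cell hh).1 hx).symm.trans ((mem_cell hh).1 hx'))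

lemma dist_cell {h : ℝ} (hh : 0 < h) {z : Fin d → ℤ} {x y : Rd d} (hx : x ∈ cell h z)
    (hy : y ∈ cell h z) : ‖x - y‖ ≤ (d + 1) * h := by
  refine norm_le_of_coord hh.le (fun i => ?_)
  have h1 := mem_cell'.1 hx i
  have h2 := mem_cell'.1 hy i
  rw [PiLp.sub_apply, abs_le]
  constructor <;> linarith [h1.1, h1.2, h2.1, h2.2]

lemma cell_subset_ball {h : ℝ} (hh : 0 < h) (z : Fin d → ℤ) :
    cell h z ⊆ Metric.closedBall (WithLp.toLp 2 (fun i => h * z i)) ((d + 1) * h) := by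
  intro x hx
  rw [mem_closedBall_iff_norm]
  exact dist_cell hh hx (mem_cell'.2 (fun i => ⟨le_rfl, by simpa using hh⟩))

lemma integrableOn_cell {E : Type} [NormedAddCommGroup E] {w : Rd d → E}
    (hw : LocallyIntegrable w volume) {h : ℝ} (hh : 0 < h) (z : Fin d → ℤ) :
    IntegrableOn w (cell h z) volume :=
  (hw.integrableOn_isCompact (isCompact_closedBall _ _)).mono_set (cell_subset_ball hh z)

lemma lintegral_cells {h : ℝ} (hh : 0 < h) (Z : Finset (Fin d → ℤ)) (g : Rd d → ℝ≥0∞) :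
    ∫⁻ x in {x | idx h x ∈ Z}, g x = ∑ z ∈ Z, ∫⁻ x in cell h z, g x := by
  rw [← lintegral_biUnion_finset (fun z _ z' _ hne => cell_disjoint hh hne)
    (fun z _ => measurableSet_cell h z)]
  congr 2
  ext x
  simp [mem_cell hh]

/-- the indicator of a cell -/
noncomputable def ecell (𝕜 : Type) [RCLike 𝕜] (h : ℝ) (z : Fin d → ℤ) : L2 𝕜 d :=
  indicatorConstLp 2 (measurableSet_cell h z) (volume_cell_ne_top h z) (1 : 𝕜)

/-- the average over a cell -/
noncomputable def cavg {E : Type} [NormedAddCommGroup E] [NormedSpace ℝ E] (h : ℝ)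
    (F : Rd d → E) (z : Fin d → ℤ) : E := ⨍ x in cell h z, F x

lemma cavg_eq {E : Type} [NormedAddCommGroup E] [NormedSpace ℝ E] {h : ℝ} (hh : 0 < h)
    (F : Rd d → E) (z : Fin d → ℤ) : cavg h F z = (h ^ d)⁻¹ • ∫ x in cell h z, F x := by
  rw [cavg, setAverage_eq, real_cell hh]

lemma cavg_inner {h : ℝ} (hh : 0 < h) (g : L2 𝕜 d) (z : Fin d → ℤ) :
    cavg h g z = (((h ^ d)⁻¹ : ℝ) : 𝕜) * inner 𝕜 (ecell 𝕜 h z) g := by
  rw [cavg_eq hh, ecell, L2.inner_indicatorConstLp_one, RCLike.real_smul_eq_coe_mul]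

lemma orthonormal_ecell {h : ℝ} (hh : 0 < h) :
    Orthonormal 𝕜 (fun z : Fin d → ℤ => (((√(h ^ d))⁻¹ : ℝ) : 𝕜) • ecell 𝕜 h z) := by
  rw [orthonormal_iff_ite]
  intro z z'
  rw [inner_smul_left, inner_smul_right, ecell, ecell,
    L2.inner_indicatorConstLp_one_indicatorConstLp_one _ _ (volume_cell_ne_top h z)
      (volume_cell_ne_top h z')]
  split_ifs with he
  · rw [he, Set.inter_self, real_cell hh, RCLike.conj_ofReal, ← RCLike.ofReal_mul,
      ← RCLike.ofReal_mul, ← mul_assoc, ← mul_inv, Real.mul_self_sqrt (by positivity),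
      inv_mul_cancel₀ (by positivity), RCLike.ofReal_one]
  · rw [(cell_disjoint hh he).inter_eq]; simp

lemma bessel_cavg {h : ℝ} (hh : 0 < h) (g : L2 𝕜 d) (V : Finset (Fin d → ℤ)) :
    h ^ d * ∑ z ∈ V, ‖cavg h g z‖ ^ 2 ≤ ‖g‖ ^ 2 := by
  refine le_of_eq_of_le ?_ ((orthonormal_ecell hh).sum_inner_products_le g (s := V))
  rw [mul_sum]
  refine sum_congr rfl (fun z _ => ?_)
  have hp : 0 < h ^ d := by positivity
  rw [cavg_inner hh, inner_smul_left, RCLike.conj_ofReal, norm_mul, norm_mul, RCLike.norm_ofReal,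
    RCLike.norm_ofReal, mul_pow, mul_pow, sq_abs, sq_abs, inv_pow (√(h ^ d)), Real.sq_sqrt hp.le]
  field_simp

lemma norm_sum_ecell {h : ℝ} (hh : 0 < h) (c : (Fin d → ℤ) → 𝕜) (U : Finset (Fin d → ℤ)) :
    ‖∑ y ∈ U, c y • ecell 𝕜 h y‖ ^ 2 = h ^ d * ∑ y ∈ U, ‖c y‖ ^ 2 := by
  have hp : 0 < h ^ d := by positivity
  have hs : 0 < √(h ^ d) := Real.sqrt_pos.2 hp
  have e : ∑ y ∈ U, c y • ecell 𝕜 h y = ∑ y ∈ U, (c y * ((√(h ^ d) : ℝ) : 𝕜)) •
      ((((√(h ^ d))⁻¹ : ℝ) : 𝕜) • ecell 𝕜 h y) := by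
    refine sum_congr rfl (fun y _ => ?_)
    rw [smul_smul, mul_assoc, ← RCLike.ofReal_mul, mul_inv_cancel₀ hs.ne', RCLike.ofReal_one,
      mul_one]
  rw [e, ← inner_self_eq_norm_sq (𝕜 := 𝕜), (orthonormal_ecell hh).inner_sum, map_sum, mul_sum]
  refine sum_congr rfl (fun y _ => ?_)
  rw [RCLike.conj_mul, ← RCLike.ofReal_pow, RCLike.ofReal_re, norm_mul, RCLike.norm_ofReal, mul_pow,
    sq_abs, Real.sq_sqrt hp.le, mul_comm]

lemma cavg_sum {h : ℝ} (hh : 0 < h) (T : L2 𝕜 d →L[𝕜] L2 𝕜 d) (c : (Fin d → ℤ) → 𝕜)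
    (U : Finset (Fin d → ℤ)) (x : Fin d → ℤ) :
    cavg h (T (∑ y ∈ U, c y • ecell 𝕜 h y)) x = ∑ y ∈ U, cavg h (T (ecell 𝕜 h y)) x * c y := by
  rw [cavg_inner hh, map_sum, inner_sum, mul_sum]
  refine sum_congr rfl (fun y _ => ?_)
  rw [cavg_inner hh, map_smul, inner_smul_right]
  ring

lemma coeFn_sum_ecell {h : ℝ} (hh : 0 < h) (c : (Fin d → ℤ) → 𝕜) (U : Finset (Fin d → ℤ)) :
    (∑ y ∈ U, c y • ecell 𝕜 h y : L2 𝕜 d) =ᵐ[volume]
      fun x => if idx h x ∈ U then c (idx h x) else 0 := by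
  induction U using Finset.induction_on with
  | empty =>
    rw [sum_empty]
    filter_upwards [Lp.coeFn_zero 𝕜 2 (volume : Measure (Rd d))] with x hx
    rw [hx]; simp
  | insert z U hz ih =>
    rw [sum_insert hz]
    filter_upwards [ih, Lp.coeFn_add (c z • ecell 𝕜 h z) (∑ y ∈ U, c y • ecell 𝕜 h y),
      Lp.coeFn_smul (c z) (ecell 𝕜 h z), indicatorConstLp_coeFn (p := 2)
        (hs := measurableSet_cell h z) (hμs := volume_cell_ne_top h z) (c := (1 : 𝕜))]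
      with x h1 h2 h3 h4
    rw [h2, Pi.add_apply, h1, h3, Pi.smul_apply, ecell, h4]
    by_cases hx : idx h x = z
    · rw [Set.indicator_of_mem ((mem_cell hh).2 hx), hx, if_neg hz, if_pos (mem_insert_self _ _)]
      simp
    · rw [Set.indicator_of_notMem (fun hc => hx ((mem_cell hh).1 hc))]
      simp [hx]

/-- projection onto step functions -/
noncomputable def proj (h : ℝ) (V : Finset (Fin d → ℤ)) (g : L2 𝕜 d) : L2 𝕜 d :=
  ∑ y ∈ V, cavg h g y • ecell 𝕜 h y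

lemma norm_proj_le {h : ℝ} (hh : 0 < h) (V : Finset (Fin d → ℤ)) (g : L2 𝕜 d) :
    ‖proj h V g‖ ≤ ‖g‖ := by
  refine (sq_le_sq₀ (norm_nonneg _) (norm_nonneg _)).1 ?_
  rw [proj, norm_sum_ecell hh]
  exact bessel_cavg hh g V

lemma proj_sub {h : ℝ} (hh : 0 < h) (V : Finset (Fin d → ℤ)) (g g' : L2 𝕜 d) :
    proj h V (g - g') = proj h V g - proj h V g' := by
  unfold proj
  rw [← sum_sub_distrib]
  refine sum_congr rfl (fun y _ => ?_)
  rw [cavg_inner hh, cavg_inner hh, cavg_inner hh, inner_sub_right, mul_sub, sub_smul]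

end Pool.Agent.MP_93f72d_an

end

-- part MP_93f72d_an.Proj
section

/-!
Strong convergence of the projections onto step functions.
-/

namespace Pool.Agent.MP_93f72d_an

open MeasureTheory Filter Topology Finset
open scoped ENNReal Classical

variable {d : ℕ} {𝕜 : Type} [RCLike 𝕜]

lemma norm_cavg_sub_le {h : ℝ} (hh : 0 < h) {F : Rd d → 𝕜} {z : Fin d → ℤ}
    (hF : IntegrableOn F (cell h z) volume) {c : 𝕜} {ε : ℝ}
    (hb : ∀ᵐ y, y ∈ cell h z → ‖F y - c‖ ≤ ε) : ‖cavg h F z - c‖ ≤ ε := by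
  rw [← mem_closedBall_iff_norm]
  refine (convex_closedBall c ε).set_average_mem Metric.isClosed_closedBall
    (volume_cell_ne_zero hh z) (volume_cell_ne_top h z) ?_ hF
  rw [ae_restrict_iff' (measurableSet_cell h z)]
  filter_upwards [hb] with y hy hyc
  exact mem_closedBall_iff_norm.2 (hy hyc)

lemma cavg_congr {E : Type} [NormedAddCommGroup E] [NormedSpace ℝ E] (h : ℝ) {F F' : Rd d → E}
    (he : F =ᵐ[volume] F') (z : Fin d → ℤ) : cavg h F z = cavg h F' z :=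
  average_congr (ae_restrict_of_ae he)

/-- the mesh size at stage `N` -/
noncomputable def hN (N : ℕ) : ℝ := (1 / 2) ^ N

/-- the lattice box at stage `N` -/
noncomputable def VN (d N : ℕ) : Finset (Fin d → ℤ) := zbox (2 * N) (fun _ => -1) (fun _ => 1)

lemma hN_pos (N : ℕ) : 0 < hN N := by unfold hN; positivity

lemma hN_mul (N : ℕ) : hN N * 2 ^ (2 * N) = 2 ^ N := by
  rw [hN, two_mul, pow_add, ← mul_assoc, ← mul_pow]; norm_num

lemma idx_mem_VN {N : ℕ} {x : Rd d} (hx : ‖x‖ < 2 ^ N) : idx (hN N) x ∈ VN d N := by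
  rw [VN, idx_mem_zbox (hN_pos N)]
  intro i
  rw [hN_mul]
  have := abs_lt.1 ((coord_le_norm x i).trans_lt hx)
  push_cast
  constructor <;> linarith [this.1, this.2]

lemma proj_tendsto (g : L2 𝕜 d) :
    Tendsto (fun N => proj (hN N) (VN d N) g) atTop (𝓝 g) := by
  rw [Metric.tendsto_atTop]
  intro ε hε
  obtain ⟨g', hc, hg', hcont, hmem⟩ := (Lp.memLp g).exists_hasCompactSupport_eLpNorm_sub_le
    (by norm_num) (ε := ENNReal.ofReal (ε / 4)) (ENNReal.ofReal_pos.2 (by positivity)).ne'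
  have h1 : ‖g - hmem.toLp g'‖ ≤ ε / 4 := by
    rw [Lp.norm_def]
    refine ENNReal.toReal_le_of_le_ofReal (by positivity) (le_of_eq_of_le ?_ hg')
    refine eLpNorm_congr_ae ?_
    filter_upwards [Lp.coeFn_sub g (hmem.toLp g'), hmem.coeFn_toLp] with x a1 a2
    rw [a1, Pi.sub_apply, a2, Pi.sub_apply]
  obtain ⟨R, hR⟩ := hc.isCompact.isBounded.subset_closedBall (0 : Rd d)
  have hz : ∀ x : Rd d, R < ‖x‖ → g' x = 0 := by
    intro x hx
    refine image_eq_zero_of_notMem_tsupport (fun hm => ?_)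
    have := hR hm
    rw [mem_closedBall_zero_iff] at this
    linarith
  set I : Lp ℝ 2 (volume : Measure (Rd d)) := indicatorConstLp 2
    (Metric.isClosed_closedBall (x := (0 : Rd d)) (ε := R + 1)).measurableSet
    (measure_closedBall_lt_top).ne (1 : ℝ) with hI
  have hε' : 0 < ε / 4 / (‖I‖ + 1) := by positivity
  obtain ⟨δ, hδ, hunif⟩ := Metric.uniformContinuous_iff.1
    (hc.uniformContinuous_of_continuous hcont) _ hε'
  have t1 : Tendsto (fun N => ((d : ℝ) + 1) * hN N) atTop (𝓝 0) := by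
    have := (tendsto_pow_atTop_nhds_zero_of_lt_one (r := (1 / 2 : ℝ)) (by norm_num)
      (by norm_num)).const_mul ((d : ℝ) + 1)
    rwa [mul_zero] at this
  have t2 : Tendsto (fun N : ℕ => (2 : ℝ) ^ N) atTop atTop :=
    tendsto_pow_atTop_atTop_of_one_lt (by norm_num)
  obtain ⟨N0, hN0⟩ := eventually_atTop.1 (((t1.eventually (gt_mem_nhds hδ)).and
    (t1.eventually (gt_mem_nhds one_pos))).and (t2.eventually (eventually_gt_atTop R)))
  refine ⟨N0, fun N hN' => ?_⟩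
  obtain ⟨⟨b1, b2⟩, b3⟩ := hN0 N hN'
  have hh := hN_pos N
  have h2 : ‖proj (hN N) (VN d N) (hmem.toLp g') - hmem.toLp g'‖ ≤ ε / 4 / (‖I‖ + 1) * ‖I‖ := by
    apply Lp.norm_le_mul_norm_of_ae_le_mul
    filter_upwards [Lp.coeFn_sub (proj (hN N) (VN d N) (hmem.toLp g')) (hmem.toLp g'),
      hmem.coeFn_toLp, coeFn_sum_ecell hh (cavg (hN N) (hmem.toLp g')) (VN d N),
      indicatorConstLp_coeFn (p := 2)
        (hs := (Metric.isClosed_closedBall (x := (0 : Rd d)) (ε := R + 1)).measurableSet)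
        (hμs := (measure_closedBall_lt_top).ne) (c := (1 : ℝ))] with x a1 a2 a3 a4
    rw [a1, Pi.sub_apply, a2, proj, a3, hI, a4]
    have hx : x ∈ cell (hN N) (idx (hN N) x) := (mem_cell hh).2 rfl
    split_ifs with hV
    · rw [cavg_congr _ hmem.coeFn_toLp]
      refine norm_cavg_sub_le hh (integrableOn_cell hcont.locallyIntegrable hh _)
        (Eventually.of_forall (fun y hy => ?_))
      have hd := dist_cell hh hy hx
      by_cases hb : x ∈ Metric.closedBall (0 : Rd d) (R + 1)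
      · rw [Set.indicator_of_mem hb, norm_one, mul_one, ← dist_eq_norm]
        exact (hunif (by rw [dist_eq_norm]; linarith)).le
      · rw [mem_closedBall_zero_iff, not_le] at hb
        have := norm_sub_norm_le x y
        rw [norm_sub_rev] at this
        rw [hz x (by linarith), hz y (by linarith)]
        simp only [sub_self, norm_zero]
        positivity
    · have : ¬ ‖x‖ < 2 ^ N := fun hc => hV (idx_mem_VN hc)
      rw [hz x (by linarith)]
      simp only [sub_self, norm_zero]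
      positivity
  have h3 : ε / 4 / (‖I‖ + 1) * ‖I‖ ≤ ε / 4 := by
    rw [div_mul_eq_mul_div, div_le_iff₀ (by positivity)]
    nlinarith
  have h4 := norm_proj_le hh (VN d N) (g - hmem.toLp g')
  rw [proj_sub hh] at h4
  rw [dist_eq_norm]
  have e : proj (hN N) (VN d N) g - g =
      (proj (hN N) (VN d N) g - proj (hN N) (VN d N) (hmem.toLp g')) +
      (proj (hN N) (VN d N) (hmem.toLp g') - hmem.toLp g') - (g - hmem.toLp g') := by abel
  rw [e]
  have := (norm_sub_le _ _).trans (add_le_add ((norm_add_le _ _).trans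
    (add_le_add (h4.trans h1) (h2.trans h3))) h1)
  linarith

lemma proj_T_tendsto (T : L2 𝕜 d →L[𝕜] L2 𝕜 d) (g : L2 𝕜 d) :
    Tendsto (fun N => proj (hN N) (VN d N) (T (proj (hN N) (VN d N) g))) atTop (𝓝 (T g)) := by
  rw [tendsto_iff_norm_sub_tendsto_zero]
  have t1 := tendsto_iff_norm_sub_tendsto_zero.1 ((T.continuous.tendsto g).comp (proj_tendsto g))
  have t2 := tendsto_iff_norm_sub_tendsto_zero.1 (proj_tendsto (T g))
  have t3 := t1.add t2
  rw [add_zero] at t3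
  refine squeeze_zero (fun _ => norm_nonneg _) (fun N => ?_) t3
  have h4 := norm_proj_le (hN_pos N) (VN d N) (T (proj (hN N) (VN d N) g) - T g)
  rw [proj_sub (hN_pos N)] at h4
  refine le_trans ?_ (add_le_add h4 le_rfl)
  exact norm_sub_le_norm_sub_add_norm_sub _ _ _

end Pool.Agent.MP_93f72d_an

end

-- part MP_93f72d_an.Kernel
section

/-!
The matrix of a Calderon-Zygmund operator on a mesh is a discrete kernel, uniformly in the mesh.
-/

namespace Pool.Agent.MP_93f72d_an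

open MeasureTheory Filter Topology Finset
open scoped ENNReal Classical

variable {d : ℕ} {𝕜 : Type} [RCLike 𝕜]

lemma cavg_sub {h : ℝ} (hh : 0 < h) {F F' : Rd d → 𝕜} {z : Fin d → ℤ}
    (hF : IntegrableOn F (cell h z) volume) (hF' : IntegrableOn F' (cell h z) volume) :
    cavg h F z - cavg h F' z = cavg h (fun v => F v - F' v) z := by
  rw [cavg_eq hh, cavg_eq hh, cavg_eq hh, integral_sub hF hF', smul_sub]

lemma norm_cavg_sub_same {h : ℝ} (hh : 0 < h) {F F' : Rd d → 𝕜} {z : Fin d → ℤ}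
    (hF : IntegrableOn F (cell h z) volume) (hF' : IntegrableOn F' (cell h z) volume) {ε : ℝ}
    (hb : ∀ᵐ v, v ∈ cell h z → ‖F v - F' v‖ ≤ ε) : ‖cavg h F z - cavg h F' z‖ ≤ ε := by
  rw [cavg_sub hh hF hF', ← sub_zero (cavg _ _ _)]
  exact norm_cavg_sub_le hh (hF.sub hF') (by simpa only [sub_zero, Pi.sub_apply] using hb)

lemma norm_cavg_sub_cavg {h : ℝ} (hh : 0 < h) {F F' : Rd d → 𝕜} {z z' : Fin d → ℤ}
    (hF : IntegrableOn F (cell h z) volume) (hF' : IntegrableOn F' (cell h z') volume) {ε : ℝ}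
    {p p' : Rd d → Prop} (hp : ∀ᵐ v, p v) (hp' : ∀ᵐ v, p' v)
    (hb : ∀ v ∈ cell h z, ∀ v' ∈ cell h z', p v → p' v' → ‖F v - F' v'‖ ≤ ε) :
    ‖cavg h F z - cavg h F' z'‖ ≤ ε := by
  refine norm_cavg_sub_le hh hF ?_
  filter_upwards [hp] with v h1 hv
  rw [norm_sub_rev]
  refine norm_cavg_sub_le hh hF' ?_
  filter_upwards [hp'] with v' h2 hv'
  rw [norm_sub_rev]
  exact hb v hv v' hv' h1 h2

lemma sep_cell (hd : 0 < d) {h : ℝ} (hh : 0 < h) {j : ℕ} {x y : Fin d → ℤ}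
    (hxy : y ∉ (zgrid hd).tri ((zgrid hd).cb j x)) {u v : Rd d} (hu : u ∈ cell h x)
    (hv : v ∈ cell h y) : h * 2 ^ j ≤ ‖u - v‖ := by
  change y ∉ zbox j (fun i => x i / 2 ^ j - 1) (fun i => x i / 2 ^ j + 2) at hxy
  rw [mem_zbox', not_forall] at hxy
  obtain ⟨i, hi⟩ := hxy
  have hx := mem_zbox'.1 ((zgrid hd).mem_cb j x) i
  change 2 ^ j * (x i / 2 ^ j) ≤ x i ∧ x i < 2 ^ j * (x i / 2 ^ j + 1) at hx
  have h1 := mem_cell'.1 hu i
  have h2 := mem_cell'.1 hv i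
  refine le_trans ?_ (coord_le_norm (u - v) i)
  rw [PiLp.sub_apply]
  rw [not_and_or, not_le, not_lt] at hi
  simp only [mul_add, mul_sub, mul_one] at hi hx
  rcases hi with hi | hi
  · have : (y i : ℝ) + 1 + 2 ^ j ≤ x i := by
      have : y i + 1 + 2 ^ j ≤ x i := by omega
      exact_mod_cast this
    refine le_trans ?_ (le_abs_self _)
    nlinarith [h1.1, h2.2]
  · have : (x i : ℝ) + 1 + 2 ^ j ≤ y i := by
      have : x i + 1 + 2 ^ j ≤ y i := by omega
      exact_mod_cast this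
    refine le_trans ?_ (neg_le_abs _)
    nlinarith [h1.2, h2.1]

lemma near_cell (hd : 0 < d) {h : ℝ} (hh : 0 < h) {k : ℕ} {x x' : Fin d → ℤ}
    (hxy : (zgrid hd).cb k x = (zgrid hd).cb k x') {u u' : Rd d} (hu : u ∈ cell h x)
    (hu' : u' ∈ cell h x') : ‖u - u'‖ ≤ (d + 1) * (h * 2 ^ k) := by
  refine norm_le_of_coord (by positivity) (fun i => ?_)
  have hx := mem_zbox'.1 ((zgrid hd).mem_cb k x') i
  have hx' := mem_zbox'.1 ((zgrid hd).mem_cb_iff.2 hxy) i
  change 2 ^ k * (x' i / 2 ^ k) ≤ _ ∧ _ < 2 ^ k * (x' i / 2 ^ k + 1) at hx hx'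
  simp only [mul_add, mul_one] at hx hx'
  have h1 := mem_cell'.1 hu i
  have h2 := mem_cell'.1 hu' i
  have a1 : (x i : ℝ) + 1 ≤ x' i + 2 ^ k := by
    have : x i + 1 ≤ x' i + 2 ^ k := by omega
    exact_mod_cast this
  have a2 : (x' i : ℝ) + 1 ≤ x i + 2 ^ k := by
    have : x' i + 1 ≤ x i + 2 ^ k := by omega
    exact_mod_cast this
  rw [PiLp.sub_apply, abs_le]
  constructor <;> nlinarith [h1.1, h1.2, h2.1, h2.2]

variable {T : L2 𝕜 d →L[𝕜] L2 𝕜 d} {K : Rd d → Rd d → 𝕜} {C α : ℝ}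

lemma IsCZKernel.C_nonneg (hd : 0 < d) (hK : IsCZKernel ⟨T⟩ d K C α) : 0 ≤ C := by
  have hne : (0 : Rd d) ≠ EuclideanSpace.single ⟨0, hd⟩ 1 := by
    intro h
    have := congrArg (fun v : Rd d => v ⟨0, hd⟩) h
    simp at this
  have := (norm_nonneg _).trans (hK.size _ _ hne)
  exact nonneg_of_mul_nonneg_left this (Real.rpow_pos_of_pos (norm_sub_pos_iff.2 hne) _)

lemma IsCZKernel.size' (hK : IsCZKernel ⟨T⟩ d K C α) (hC : 0 ≤ C) {u v : Rd d} {ρ : ℝ} (hρ : 0 < ρ)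
    (h : ρ ≤ ‖u - v‖) : ‖K u v‖ ≤ C / ρ ^ d := by
  refine (hK.size u v (norm_sub_pos_iff.1 (hρ.trans_le h))).trans ?_
  rw [Real.rpow_neg (norm_nonneg _), Real.rpow_natCast, ← div_eq_mul_inv]
  exact div_le_div_of_nonneg_left hC (by positivity) (pow_le_pow_left₀ hρ.le h d)

lemma IsCZKernel.diff (hK : IsCZKernel ⟨T⟩ d K C α) (hC : 0 ≤ C) (hα : 0 < α) {u u' v : Rd d}
    {ρ s : ℝ} (hρ : 0 < ρ) (h1 : ρ ≤ ‖u - v‖) (h2 : ρ ≤ ‖u' - v‖) (h3 : ‖u - u'‖ ≤ s) :
    ‖K u v - K u' v‖ + ‖K v u - K v u'‖ ≤ 4 * C * (2 * s / ρ) ^ α / ρ ^ d := by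
  have hs : 0 ≤ s := (norm_nonneg _).trans h3
  by_cases hc : ‖u - u'‖ ≤ ‖u - v‖ / 2
  · refine (hK.smooth u u' v (norm_sub_pos_iff.1 (hρ.trans_le h1)) hc).trans ?_
    have a1 : ‖u - u'‖ ^ α ≤ (2 * s) ^ α :=
      Real.rpow_le_rpow (norm_nonneg _) (by linarith) hα.le
    have a2 : ‖u - v‖ ^ (-(d : ℝ) - α) ≤ ρ ^ (-(d : ℝ) - α) :=
      Real.rpow_le_rpow_of_nonpos hρ h1 (by linarith [(Nat.cast_nonneg d : (0 : ℝ) ≤ d)])
    calc _ ≤ C * (2 * s) ^ α * ρ ^ (-(d : ℝ) - α) :=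
          mul_le_mul (mul_le_mul_of_nonneg_left a1 hC) a2 (by positivity) (by positivity)
      _ = C * (2 * s / ρ) ^ α / ρ ^ d := by
          rw [Real.rpow_sub hρ, Real.rpow_neg hρ.le, Real.rpow_natCast,
            Real.div_rpow (by positivity) hρ.le]
          field_simp
      _ ≤ _ := by
          refine div_le_div_of_nonneg_right ?_ (by positivity)
          have : 0 ≤ C * (2 * s / ρ) ^ α := by positivity
          linarith
  · have a1 : 1 ≤ (2 * s / ρ) ^ α :=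
      Real.one_le_rpow ((one_le_div hρ).2 (by linarith [not_le.1 hc])) hα.le
    have b1 := hK.size' hC hρ h1
    have b2 := hK.size' hC hρ h2
    have b3 := hK.size' hC hρ (h1.trans_eq (norm_sub_rev _ _))
    have b4 := hK.size' hC hρ (h2.trans_eq (norm_sub_rev _ _))
    have b5 := norm_sub_le (K u v) (K u' v)
    have b6 := norm_sub_le (K v u) (K v u')
    have b7 : C / ρ ^ d * 1 ≤ C / ρ ^ d * (2 * s / ρ) ^ α :=
      mul_le_mul_of_nonneg_left a1 (by positivity)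
    have e : 4 * C * (2 * s / ρ) ^ α / ρ ^ d = 4 * (C / ρ ^ d * (2 * s / ρ) ^ α) := by ring
    linarith

lemma IsCZKernel.continuousAt (hK : IsCZKernel ⟨T⟩ d K C α) (hα : 0 < α) {u v : Rd d}
    (huv : v ≠ u) : ContinuousAt (K u) v := by
  rw [ContinuousAt, tendsto_iff_norm_sub_tendsto_zero]
  have h0 : Tendsto (fun v' => ‖v - v'‖) (𝓝 v) (𝓝 0) := by
    have : Continuous (fun v' => ‖v - v'‖) := by fun_prop
    simpa using this.tendsto v
  have h1 : Tendsto (fun v' => C * ‖v - v'‖ ^ α * ‖v - u‖ ^ (-(d : ℝ) - α)) (𝓝 v) (𝓝 0) := by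
    have := ((h0.rpow_const (Or.inr hα.le)).const_mul C).mul_const (‖v - u‖ ^ (-(d : ℝ) - α))
    rwa [Real.zero_rpow hα.ne', mul_zero, zero_mul] at this
  refine squeeze_zero' (Eventually.of_forall (fun _ => norm_nonneg _)) ?_ h1
  filter_upwards [h0.eventually (ge_mem_nhds (half_pos (norm_sub_pos_iff.2 huv)))] with v' hv'
  have := hK.smooth v v' u huv hv'
  rw [norm_sub_rev]
  linarith [norm_nonneg (K v u - K v' u)]

lemma not_mem_closure_cell {h : ℝ} {y : Fin d → ℤ} {u : Rd d} {ρ : ℝ} (hρ : 0 < ρ)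
    (hs : ∀ v ∈ cell h y, ρ ≤ ‖u - v‖) : u ∉ closure (cell h y) := by
  intro hu
  have hc : IsClosed {v : Rd d | ρ ≤ ‖u - v‖} := isClosed_le continuous_const (by fun_prop)
  have : ρ ≤ ‖u - u‖ := closure_minimal (t := {v : Rd d | ρ ≤ ‖u - v‖}) hs hc hu
  rw [sub_self, norm_zero] at this
  linarith

lemma IsCZKernel.integrableOn (hK : IsCZKernel ⟨T⟩ d K C α) (hα : 0 < α) {h : ℝ} (hh : 0 < h)
    {y : Fin d → ℤ} {u : Rd d} (hu : u ∉ closure (cell h y)) :
    IntegrableOn (K u) (cell h y) volume := by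
  have hc : IsCompact (closure (cell h y)) :=
    (Metric.isBounded_closedBall.subset (cell_subset_ball hh y)).isCompact_closure
  refine (ContinuousOn.integrableOn_compact hc (fun v hv => ?_)).mono_set subset_closure
  exact (hK.continuousAt hα (fun he : v = u => hu (he ▸ hv))).continuousWithinAt

lemma IsCZKernel.repr_cell (hK : IsCZKernel ⟨T⟩ d K C α) {h : ℝ} (hh : 0 < h) (y : Fin d → ℤ) :
    ∀ᵐ u, u ∉ closure (cell h y) → T (ecell 𝕜 h y) u = (h ^ d) • cavg h (K u) y := by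
  have := hK.repr ((cell h y).indicator (fun _ => (1 : 𝕜)))
    (memLp_indicator_const 2 (measurableSet_cell h y) 1 (Or.inr (volume_cell_ne_top h y)))
    (HasCompactSupport.intro (isCompact_closedBall _ _) (fun x hx =>
      Set.indicator_of_notMem (fun hc => hx (cell_subset_ball hh y hc)) _))
  filter_upwards [this] with u hu hn
  refine (hu (fun hc => hn (closure_mono Set.support_indicator_subset hc))).trans ?_
  rw [cavg_eq hh, smul_smul, mul_inv_cancel₀ (by positivity), one_smul,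
    ← integral_indicator (measurableSet_cell h y)]
  congr 1
  ext v
  by_cases hv : v ∈ cell h y <;> simp [hv]

lemma integrableOn_L2 (g : L2 𝕜 d) (h : ℝ) (z : Fin d → ℤ) : IntegrableOn g (cell h z) volume :=
  integrableOn_Lp_of_measure_ne_top g (by norm_num) (volume_cell_ne_top h z)

lemma IsCZKernel.ker (hd : 0 < d) (hK : IsCZKernel ⟨T⟩ d K C α) (hα : 0 < α) :
    ∃ C' θ : ℝ, 0 ≤ C' ∧ θ < 1 ∧ ∀ h : ℝ, 0 < h →
      Ker (zgrid hd) (fun x y => cavg h (T (ecell 𝕜 h y)) x) C' θ := by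
  have hC := hK.C_nonneg hd
  have hθ : (1 / 2 : ℝ) ^ α < 1 := Real.rpow_lt_one (by norm_num) (by norm_num) hα
  have hθ0 : 0 ≤ (1 / 2 : ℝ) ^ α := by positivity
  refine ⟨‖T‖ ^ 2 + 4 * C * (2 * (d + 1)) ^ α, (1 / 2) ^ α, by positivity, hθ, fun h hh => ?_⟩
  have key : ∀ k j : ℕ, k ≤ j →
      h ^ d * (4 * C * (2 * ((d + 1) * (h * 2 ^ k)) / (h * 2 ^ j)) ^ α / (h * 2 ^ j) ^ d) ≤
      (‖T‖ ^ 2 + 4 * C * (2 * (d + 1)) ^ α) * ((1 / 2) ^ α) ^ (j - k) /
        (((zgrid hd).D : ℕ) : ℝ) ^ j := by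
    intro k j hkj
    obtain ⟨r, rfl⟩ := Nat.exists_eq_add_of_le hkj
    have e1 : 2 * ((d + 1) * (h * 2 ^ k)) / (h * 2 ^ (k + r)) = 2 * (d + 1) * (1 / 2) ^ r := by
      rw [pow_add, one_div, inv_pow]; field_simp
    have e2 : (((zgrid hd).D : ℕ) : ℝ) ^ (k + r) = (2 ^ (k + r)) ^ d := by
      change (((2 ^ d : ℕ) : ℕ) : ℝ) ^ (k + r) = _
      push_cast
      rw [← pow_mul, ← pow_mul, mul_comm]
    rw [e1, e2, Nat.add_sub_cancel_left, Real.mul_rpow (by positivity) (by positivity),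
      Real.rpow_pow_comm (by norm_num), mul_pow h]
    calc _ = 4 * C * (2 * (d + 1)) ^ α * ((1 / 2) ^ r) ^ α / (2 ^ (k + r)) ^ d := by field_simp
      _ ≤ _ := div_le_div_of_nonneg_right (mul_le_mul_of_nonneg_right
          (le_add_of_nonneg_left (sq_nonneg _)) (by positivity)) (by positivity)
  have hp : 0 < h ^ d := by positivity
  refine ⟨by positivity, hθ0, hθ, fun U V c => ?_, fun k j hkj x x' y hx hy => ?_,
    fun k j hkj x y y' hy hx => ?_⟩
  · have a1 := bessel_cavg hh (T (∑ y ∈ U, c y • ecell 𝕜 h y)) V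
    simp_rw [cavg_sum hh] at a1
    have a2 := pow_le_pow_left₀ (norm_nonneg _) (T.le_opNorm (∑ y ∈ U, c y • ecell 𝕜 h y)) 2
    rw [mul_pow, norm_sum_ecell hh] at a2
    have a3 : ∑ x ∈ V, ‖∑ y ∈ U, cavg h (T (ecell 𝕜 h y)) x * c y‖ ^ 2 ≤
        ‖T‖ ^ 2 * ∑ y ∈ U, ‖c y‖ ^ 2 := by
      apply le_of_mul_le_mul_left _ hp
      linarith
    refine a3.trans (mul_le_mul_of_nonneg_right (le_add_of_nonneg_right (by positivity))
      (sum_nonneg (fun _ _ => sq_nonneg _)))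
  · refine le_trans ?_ (key k j hkj)
    have hy' : y ∉ (zgrid hd).tri ((zgrid hd).cb j x') := by rwa [← (zgrid hd).cb_le hkj hx]
    refine norm_cavg_sub_cavg hh (integrableOn_L2 _ h x) (integrableOn_L2 _ h x')
      (hK.repr_cell hh y) (hK.repr_cell hh y) (fun u hu u' hu' h1 h2 => ?_)
    have n1 := not_mem_closure_cell (by positivity) (fun v hv => sep_cell hd hh hy hu hv)
    have n2 := not_mem_closure_cell (by positivity) (fun v hv => sep_cell hd hh hy' hu' hv)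
    rw [h1 n1, h2 n2, ← smul_sub, norm_smul, Real.norm_of_nonneg hp.le]
    refine mul_le_mul_of_nonneg_left (norm_cavg_sub_same hh (hK.integrableOn hα hh n1)
      (hK.integrableOn hα hh n2) (Eventually.of_forall (fun v hv => ?_))) hp.le
    exact le_trans (le_add_of_nonneg_right (norm_nonneg _)) (hK.diff hC hα (by positivity)
      (sep_cell hd hh hy hu hv) (sep_cell hd hh hy' hu' hv) (near_cell hd hh hx hu hu'))
  · refine le_trans ?_ (key k j hkj)
    have hx' : x ∉ (zgrid hd).tri ((zgrid hd).cb j y') := by rwa [← (zgrid hd).cb_le hkj hy]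
    refine norm_cavg_sub_same hh (integrableOn_L2 _ h x) (integrableOn_L2 _ h x) ?_
    filter_upwards [hK.repr_cell hh y, hK.repr_cell hh y'] with u h1 h2 hu
    have n1 := not_mem_closure_cell (by positivity)
      (fun v hv => (sep_cell hd hh hx hv hu).trans_eq (norm_sub_rev _ _))
    have n2 := not_mem_closure_cell (by positivity)
      (fun v hv => (sep_cell hd hh hx' hv hu).trans_eq (norm_sub_rev _ _))
    rw [h1 n1, h2 n2, ← smul_sub, norm_smul, Real.norm_of_nonneg hp.le]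
    refine mul_le_mul_of_nonneg_left (norm_cavg_sub_cavg hh (hK.integrableOn hα hh n1)
      (hK.integrableOn hα hh n2) (p := fun _ => True) (p' := fun _ => True)
      (Eventually.of_forall (fun _ => trivial)) (Eventually.of_forall (fun _ => trivial))
      (fun v hv v' hv' _ _ => ?_)) hp.le
    exact le_trans (le_add_of_nonneg_left (norm_nonneg _)) (hK.diff hC hα (by positivity)
      (sep_cell hd hh hx hv hu) (sep_cell hd hh hx' hv' hu) (near_cell hd hh hy hv hv'))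

end Pool.Agent.MP_93f72d_an

end

-- part MP_93f72d_an.Bump
section

/-!
Transfer of the Young function hypotheses and of the bump conditions to a mesh.
-/

namespace Pool.Agent.MP_93f72d_an

open MeasureTheory Filter Topology Finset
open scoped ENNReal Classical

variable {d : ℕ}

lemma IsYoung.yd {Φ : ℝ → ℝ} (hΦ : IsYoung Φ) {c : ℝ}
    (hint : ∫⁻ x in Set.Ioi c, (ENNReal.ofReal (Φ x))⁻¹ < ∞) : YD Φ := by
  obtain ⟨t1, ht1⟩ := eventually_atTop.1 (hΦ.superlinear.eventually (eventually_ge_atTop 1))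
  have hbig : ∀ t, max t1 1 ≤ t → t ≤ Φ t := by
    intro t ht
    have h0 : 0 < t := one_pos.trans_le ((le_max_right _ _).trans ht)
    exact (one_le_div h0).1 (ht1 t ((le_max_left _ _).trans ht))
  refine ⟨hΦ.zero, hΦ.convex, hΦ.mono, ⟨max t1 1, zero_le_one.trans (le_max_right _ _), hbig⟩, ?_⟩
  obtain ⟨m, hm⟩ := pow_unbounded_of_one_lt (max c (max t1 1)) (one_lt_two (α := ℝ))
  have hmono : Monotone (fun n : ℕ => (2 : ℝ) ^ (n + m)) := fun a b hab =>
    pow_le_pow_right₀ (by norm_num) (by omega)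
  have hpos : ∀ n : ℕ, 0 < Φ (2 ^ (n + m)) := fun n => by
    have h1 : (2 : ℝ) ^ m ≤ 2 ^ (n + m) := pow_le_pow_right₀ (by norm_num) (by omega)
    exact lt_of_lt_of_le (by positivity) (hbig _ (((le_max_right _ _).trans hm.le).trans h1))
  refine ⟨1 + m, hpos 1, ?_⟩
  have h1 : ∑' n : ℕ, ∫⁻ x in Set.Ioc ((2 : ℝ) ^ (n + m)) (2 ^ (n + 1 + m)),
      (ENNReal.ofReal (Φ x))⁻¹ ≠ ∞ := by
    rw [← lintegral_iUnion (s := fun n : ℕ => Set.Ioc ((2 : ℝ) ^ (n + m)) (2 ^ (n + 1 + m)))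
      (fun _ => measurableSet_Ioc) hmono.pairwise_disjoint_on_Ioc_succ]
    refine ne_top_of_le_ne_top hint.ne (lintegral_mono_set (Set.iUnion_subset (fun n x hx => ?_)))
    have h2 : (2 : ℝ) ^ m ≤ 2 ^ (n + m) := pow_le_pow_right₀ (by norm_num) (by omega)
    exact (((le_max_left _ _).trans hm.le).trans h2).trans_lt hx.1
  refine Summable.of_nonneg_of_le (fun n => ?_) (fun n => ?_)
    ((ENNReal.summable_toReal h1).mul_left 2)
  · rw [← add_assoc]
    exact div_nonneg (by positivity) (hpos _).le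
  · rw [← add_assoc]
    have a1 := hpos (n + 1)
    have a2 : ENNReal.ofReal (2 ^ (n + m) / Φ (2 ^ (n + 1 + m))) ≤
        ∫⁻ x in Set.Ioc ((2 : ℝ) ^ (n + m)) (2 ^ (n + 1 + m)), (ENNReal.ofReal (Φ x))⁻¹ := by
      calc _ = ∫⁻ _ in Set.Ioc ((2 : ℝ) ^ (n + m)) (2 ^ (n + 1 + m)),
            (ENNReal.ofReal (Φ (2 ^ (n + 1 + m))))⁻¹ := by
            rw [setLIntegral_const, Real.volume_Ioc, ← ENNReal.ofReal_inv_of_pos a1,
              ← ENNReal.ofReal_mul (by positivity)]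
            congr 1
            ring
        _ ≤ _ := setLIntegral_mono' measurableSet_Ioc (fun x hx => ENNReal.inv_le_inv.2
            (ENNReal.ofReal_le_ofReal (hΦ.mono (Set.mem_Ici.2 (le_trans (by positivity) hx.1.le))
              (Set.mem_Ici.2 (by positivity)) hx.2)))
    have a3 := (ENNReal.ofReal_le_iff_le_toReal (ENNReal.ne_top_of_tsum_ne_top h1 n)).1 a2
    calc _ = 2 * (2 ^ (n + m) / Φ (2 ^ (n + 1 + m))) := by ring
      _ ≤ _ := mul_le_mul_of_nonneg_left a3 (by norm_num)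

lemma cavg_nonneg {h : ℝ} {g : Rd d → ℝ} (hg : ∀ x, 0 ≤ g x) (z : Fin d → ℤ) :
    0 ≤ cavg h g z := by
  unfold cavg
  rw [setAverage_eq]
  exact smul_nonneg (by positivity) (integral_nonneg hg)

lemma lintegral_cell {h : ℝ} (hh : 0 < h) {g : Rd d → ℝ} (hg : ∀ x, 0 ≤ g x) {z : Fin d → ℤ}
    (hi : IntegrableOn g (cell h z) volume) :
    ∫⁻ x in cell h z, ENNReal.ofReal (g x) = ENNReal.ofReal (h ^ d * cavg h g z) := by
  rw [cavg_eq hh, smul_eq_mul, ← mul_assoc, mul_inv_cancel₀ (by positivity), one_mul,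
    ofReal_integral_eq_lintegral_ofReal hi (Eventually.of_forall hg)]

lemma volume_cells {h : ℝ} (hh : 0 < h) (Z : Finset (Fin d → ℤ)) :
    volume {x : Rd d | idx h x ∈ Z} = ENNReal.ofReal (h ^ d * Z.card) := by
  rw [← setLIntegral_one, lintegral_cells hh, sum_congr rfl (fun z _ => by
    rw [setLIntegral_one, volume_cell hh]), sum_const, nsmul_eq_mul,
    ENNReal.ofReal_mul (by positivity), ENNReal.ofReal_natCast, mul_comm]

lemma lintegral_cells_ofReal {h : ℝ} (hh : 0 < h) {g : Rd d → ℝ} (hg : ∀ x, 0 ≤ g x)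
    {Z : Finset (Fin d → ℤ)} (hi : ∀ z ∈ Z, IntegrableOn g (cell h z) volume) :
    ∫⁻ x in {x : Rd d | idx h x ∈ Z}, ENNReal.ofReal (g x) =
      ENNReal.ofReal (h ^ d * ∑ z ∈ Z, cavg h g z) := by
  rw [lintegral_cells hh, mul_sum, ENNReal.ofReal_sum_of_nonneg
    (fun z _ => mul_nonneg (by positivity) (cavg_nonneg hg z))]
  exact sum_congr rfl (fun z hz => lintegral_cell hh hg (hi z hz))

lemma avg_cells {h : ℝ} (hh : 0 < h) {g : Rd d → ℝ} (hg : ∀ x, 0 ≤ g x)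
    {Z : Finset (Fin d → ℤ)} (hZ : Z.Nonempty) (hi : ∀ z ∈ Z, IntegrableOn g (cell h z) volume) :
    avg g {x : Rd d | idx h x ∈ Z} = ENNReal.ofReal ((∑ z ∈ Z, cavg h g z) / Z.card) := by
  have hc : (0 : ℝ) < Z.card := by exact_mod_cast hZ.card_pos
  rw [avg, lintegral_cells_ofReal hh hg hi, volume_cells hh,
    ← ENNReal.ofReal_div_of_pos (by positivity), mul_div_mul_left _ _ (by positivity)]

lemma adm_of_avg {Φ : ℝ → ℝ} (hΦ : IsYoung Φ) {u : Rd d → ℝ} (hu : IsWeight u) {h : ℝ}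
    (hh : 0 < h) {Z : Finset (Fin d → ℤ)} (hZ : Z.Nonempty) {l : ℝ} (hl : 0 < l)
    (ha : avg (fun x => Φ (|u x| / l)) {x : Rd d | idx h x ∈ Z} ≤ 1) : Adm Φ (cavg h u) Z l := by
  have hc : (0 : ℝ) < Z.card := by exact_mod_cast hZ.card_pos
  simp only [abs_of_nonneg (hu.nonneg _)] at ha
  have hul : ∀ x, 0 ≤ u x / l := fun x => div_nonneg (hu.nonneg x) hl.le
  have hn : ∀ x, 0 ≤ Φ (u x / l) := fun x => by
    rw [← hΦ.zero]; exact hΦ.mono (Set.mem_Ici.2 le_rfl) (hul x) (hul x)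
  have hcont : Continuous (fun t : ℝ => Φ (max t 0)) :=
    hΦ.cont.comp_continuous (by fun_prop) (fun t => Set.mem_Ici.2 (le_max_right _ _))
  have hmeas : AEStronglyMeasurable (fun x => Φ (u x / l)) volume := by
    have := (hcont.comp (continuous_id.div_const l)).comp_aestronglyMeasurable
      hu.locInt.aestronglyMeasurable
    simpa only [Function.comp, id, max_eq_left (hul _)] using this
  have hi : ∀ z ∈ Z, IntegrableOn (fun x => Φ (u x / l)) (cell h z) volume := by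
    intro z hz
    refine ⟨hmeas.restrict, ?_⟩
    rw [hasFiniteIntegral_iff_ofReal (Eventually.of_forall hn)]
    have a1 : ∫⁻ x in {x : Rd d | idx h x ∈ Z}, ENNReal.ofReal (Φ (u x / l)) < ∞ := by
      rw [avg, volume_cells hh, ENNReal.div_le_iff (ENNReal.ofReal_pos.2 (by positivity)).ne'
        ENNReal.ofReal_ne_top, one_mul] at ha
      exact ha.trans_lt ENNReal.ofReal_lt_top
    refine lt_of_le_of_lt (lintegral_mono_set (fun x hx => ?_)) a1
    change idx h x ∈ Z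
    rwa [(mem_cell hh).1 hx]
  rw [avg_cells hh hn hZ hi, ENNReal.ofReal_le_one, div_le_one hc] at ha
  refine ⟨hl, le_trans (sum_le_sum (fun z hz => ?_)) ha⟩
  have := hΦ.convex.map_set_average_le hΦ.cont isClosed_Ici (volume_cell_ne_zero hh z)
    (volume_cell_ne_top h z) (f := fun x => u x / l) (Eventually.of_forall hul)
    ((integrableOn_cell hu.locInt hh z).div_const l) (hi z hz)
  refine le_of_eq_of_le ?_ this
  congr 1
  change _ = cavg h (fun x => u x / l) z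
  rw [cavg_eq hh, cavg_eq hh, integral_div, smul_eq_mul, smul_eq_mul, mul_div_assoc]

lemma Bump.disc (hd : 0 < d) {Φ : ℝ → ℝ} (hΦ : IsYoung Φ) {u v : Rd d → ℝ} (hu : IsWeight u)
    (hv : IsWeight v) (hb : Bump Φ u v) : ∃ K, 0 ≤ K ∧ ∀ h, 0 < h → ∀ Q,
      ms (cavg h v) ((zgrid hd).tri Q) * dlux Φ (cavg h u) ((zgrid hd).tri Q) ≤
        K * ((zgrid hd).tri Q).card := by
  refine ⟨_, ENNReal.toReal_nonneg (a := ⨆ (a : Rd d) (r : ℝ) (_ : 0 < r),
    lux Φ u (axisCube a r) * avg v (axisCube a r)), fun h hh Q => ?_⟩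
  have hZ : ((zgrid hd).tri Q).Nonempty :=
    ((zgrid hd).cube_nonempty Q).mono ((zgrid hd).cube_subset_tri Q)
  have hc : (0 : ℝ) < ((zgrid hd).tri Q).card := by exact_mod_cast hZ.card_pos
  have e : axisCube (WithLp.toLp 2 (fun i => h * 2 ^ Q.1 * (Q.2 i - 1)) : Rd d) (3 * (h * 2 ^ Q.1)) =
      {x : Rd d | idx h x ∈ (zgrid hd).tri Q} := by
    ext x
    change _ ↔ idx h x ∈ zbox Q.1 (fun i => Q.2 i - 1) (fun i => Q.2 i + 2)
    rw [idx_mem_zbox hh]
    refine forall_congr' (fun i => ?_)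
    push_cast
    rw [show h * 2 ^ Q.1 * (Q.2 i + 2) = h * 2 ^ Q.1 * (Q.2 i - 1) + 3 * (h * 2 ^ Q.1) by ring]
  have h1 : lux Φ u {x : Rd d | idx h x ∈ (zgrid hd).tri Q} *
      avg v {x : Rd d | idx h x ∈ (zgrid hd).tri Q} ≤ ⨆ (a : Rd d) (r : ℝ) (_ : 0 < r),
      lux Φ u (axisCube a r) * avg v (axisCube a r) := by
    rw [← e]
    exact le_iSup_of_le _ (le_iSup₂_of_le (f := fun (r : ℝ) (_ : 0 < r) =>
      lux Φ u (axisCube _ r) * avg v (axisCube _ r)) _ (by positivity) le_rfl)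
  have h2 : ENNReal.ofReal (dlux Φ (cavg h u) ((zgrid hd).tri Q)) ≤
      lux Φ u {x : Rd d | idx h x ∈ (zgrid hd).tri Q} :=
    le_iInf (fun l => le_iInf (fun hl => le_iInf (fun ha =>
      ENNReal.ofReal_le_ofReal (dlux_le (adm_of_avg hΦ hu hh hZ hl ha)))))
  rw [avg_cells hh hv.nonneg hZ (fun z _ => integrableOn_cell hv.locInt hh z)] at h1
  have h3 := (mul_le_mul_left h2 _).trans h1
  rw [mul_comm, ← ENNReal.ofReal_mul (div_nonneg (sum_nonneg (fun z _ => cavg_nonneg hv.nonneg z))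
    hc.le), ENNReal.ofReal_le_iff_le_toReal (LT.lt.ne hb.out), div_mul_eq_mul_div,
    div_le_iff₀ hc] at h3
  exact h3

end Pool.Agent.MP_93f72d_an

end

-- part MP_93f72d_an.Apriori
section

/-!
The a priori two-weight estimate and the weak type estimate on Euclidean space.
-/

namespace Pool.Agent.MP_93f72d_an

open MeasureTheory Filter Topology Finset
open scoped ENNReal Classical

variable {d : ℕ} {𝕜 : Type} [RCLike 𝕜]

lemma wnorm_eq {σ : Rd d → ℝ} (hσ : IsWeight σ) {g : Rd d → 𝕜}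
    (hg : AEStronglyMeasurable g volume) :
    wnorm σ g = (∫⁻ x, ENNReal.ofReal (‖g x‖ ^ 2 * σ x)) ^ (1 / 2 : ℝ) := by
  rw [wnorm, eLpNorm_eq_lintegral_rpow_enorm_toReal (by norm_num) (by norm_num),
    lintegral_withDensity_eq_lintegral_mul₀
      hσ.locInt.aestronglyMeasurable.aemeasurable.ennreal_ofReal (hg.enorm.pow_const _)]
  simp only [ENNReal.toReal_ofNat, Pi.mul_apply]
  congr 2
  ext x
  rw [ENNReal.ofReal_mul (sq_nonneg _), mul_comm, ENNReal.ofReal_pow (norm_nonneg _),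
    ofReal_norm, ENNReal.rpow_two]

lemma sq_le_mul_of_forall {p A B : ℝ} (hp : 0 ≤ p) (hA : 0 ≤ A) (hB : 0 ≤ B)
    (h : ∀ s, 0 < s → 2 * p ≤ s * A + B / s) : p ^ 2 ≤ A * B := by
  rcases hp.eq_or_lt with h0 | h0
  · rw [← h0]; simpa using mul_nonneg hA hB
  rcases hB.eq_or_lt with h1 | h1
  · exfalso
    have := h (p / (A + 1)) (by positivity)
    rw [← h1, zero_div, add_zero, div_mul_eq_mul_div, le_div_iff₀ (by positivity)] at this
    nlinarith
  · have := h (B / p) (by positivity)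
    rw [show B / (B / p) = p by field_simp, div_mul_eq_mul_div] at this
    have h2 : p ≤ B * A / p := by linarith
    rw [le_div_iff₀ h0] at h2
    nlinarith

lemma norm_cavg_le {h : ℝ} (hh : 0 < h) (F : Rd d → 𝕜) (z : Fin d → ℤ) :
    ‖cavg h F z‖ ≤ cavg h (fun x => ‖F x‖) z := by
  rw [cavg_eq hh, cavg_eq hh, norm_smul, Real.norm_of_nonneg (by positivity), smul_eq_mul]
  exact mul_le_mul_of_nonneg_left (norm_integral_le_integral_norm _) (by positivity)

lemma cavg_sq_le {h : ℝ} (hh : 0 < h) (F : L2 𝕜 d) {φ w : Rd d → ℝ} (hφ : ∀ x, 0 ≤ φ x)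
    (hw : ∀ x, 0 ≤ w x) {z : Fin d → ℤ} (hφi : IntegrableOn φ (cell h z) volume)
    (hwi : IntegrableOn w (cell h z) volume) (hF : ∀ᵐ x, ‖F x‖ ^ 2 ≤ φ x * w x) :
    ‖cavg h F z‖ ^ 2 ≤ cavg h φ z * cavg h w z := by
  refine sq_le_mul_of_forall (norm_nonneg _) (cavg_nonneg hφ z) (cavg_nonneg hw z) (fun s hs => ?_)
  have h1 := norm_cavg_le hh F z
  have h2 : ∫ x in cell h z, 2 * ‖F x‖ ≤ ∫ x in cell h z, (s * φ x + w x / s) := by
    refine integral_mono_ae ((integrableOn_L2 F h z).norm.const_mul 2)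
      ((hφi.const_mul s).add (hwi.div_const s)) (ae_restrict_of_ae ?_)
    filter_upwards [hF] with x hx
    have a1 := hφ x
    have a2 := hw x
    refine (sq_le_sq₀ (by positivity) (by positivity)).1 ?_
    have a3 : s * φ x * (w x / s) = φ x * w x := by field_simp
    nlinarith [sq_nonneg (s * φ x - w x / s)]
  rw [integral_const_mul, integral_add (hφi.const_mul s) (hwi.div_const s), integral_const_mul,
    integral_div] at h2
  rw [cavg_eq hh (fun x => ‖F x‖), smul_eq_mul] at h1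
  rw [cavg_eq hh φ, cavg_eq hh w, smul_eq_mul, smul_eq_mul]
  have h3 := mul_le_mul_of_nonneg_left h2 (show 0 ≤ (h ^ d)⁻¹ by positivity)
  calc _ ≤ (h ^ d)⁻¹ * (2 * ∫ x in cell h z, ‖F x‖) := by linarith
    _ ≤ _ := h3
    _ = _ := by ring

lemma measurableSet_cells {h : ℝ} (hh : 0 < h) (Z : Finset (Fin d → ℤ)) :
    MeasurableSet {x : Rd d | idx h x ∈ Z} := by
  have : {x : Rd d | idx h x ∈ Z} = ⋃ z ∈ Z, cell h z := by
    ext x; simp [mem_cell hh]
  rw [this]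
  exact Finset.measurableSet_biUnion _ (fun z _ => measurableSet_cell h z)

lemma lintegral_step {h : ℝ} (hh : 0 < h) {σ : Rd d → ℝ} (hσ : IsWeight σ)
    (c : (Fin d → ℤ) → 𝕜) (V : Finset (Fin d → ℤ)) :
    ∫⁻ x, ENNReal.ofReal (‖(∑ y ∈ V, c y • ecell 𝕜 h y : L2 𝕜 d) x‖ ^ 2 * σ x) =
      ENNReal.ofReal (h ^ d * ∑ z ∈ V, ‖c z‖ ^ 2 * cavg h σ z) := by
  have e : ∫⁻ x, ENNReal.ofReal (‖(∑ y ∈ V, c y • ecell 𝕜 h y : L2 𝕜 d) x‖ ^ 2 * σ x) =
      ∫⁻ x in {x : Rd d | idx h x ∈ V}, ENNReal.ofReal (‖c (idx h x)‖ ^ 2 * σ x) := by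
    rw [← lintegral_indicator (measurableSet_cells hh V)]
    refine lintegral_congr_ae ?_
    filter_upwards [coeFn_sum_ecell hh c V] with x hx
    rw [hx]
    by_cases hV : idx h x ∈ V
    · rw [if_pos hV, Set.indicator_of_mem (by exact hV)]
    · rw [if_neg hV, Set.indicator_of_notMem (by exact hV)]; simp
  rw [e, lintegral_cells hh, mul_sum, ENNReal.ofReal_sum_of_nonneg (fun z _ =>
    mul_nonneg (by positivity) (mul_nonneg (sq_nonneg _) (cavg_nonneg hσ.nonneg z)))]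
  refine sum_congr rfl (fun z _ => ?_)
  rw [setLIntegral_congr_fun (measurableSet_cell h z)
    (g := fun x => ENNReal.ofReal (‖c z‖ ^ 2 * σ x)) (fun x hx => by rw [(mem_cell hh).1 hx]),
    lintegral_cell hh (fun x => mul_nonneg (sq_nonneg _) (hσ.nonneg x))
      ((integrableOn_cell hσ.locInt hh z).const_mul _), cavg_eq hh, cavg_eq hh, integral_const_mul,
    smul_eq_mul, smul_eq_mul, mul_left_comm (‖c z‖ ^ 2)]

lemma VN_tri (hd : 0 < d) (N : ℕ) : ∀ x ∈ VN d N, ∀ y ∈ VN d N,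
    y ∈ (zgrid hd).tri ((zgrid hd).cb (2 * N) x) := by
  intro x hx y hy
  change y ∈ zbox (2 * N) (fun i => x i / 2 ^ (2 * N) - 1) (fun i => x i / 2 ^ (2 * N) + 2)
  rw [VN, mem_zbox] at hx hy
  rw [mem_zbox]
  intro i
  have h1 := hx i
  have h2 := hy i
  omega

lemma zero_mem_VN (N : ℕ) : (0 : Fin d → ℤ) ∈ VN d N := by
  rw [VN, mem_zbox]; simp

lemma proj_T_proj {h : ℝ} (hh : 0 < h) (T : L2 𝕜 d →L[𝕜] L2 𝕜 d) (V : Finset (Fin d → ℤ))
    (F : L2 𝕜 d) : proj h V (T (proj h V F)) =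
      ∑ x ∈ V, (∑ y ∈ V, cavg h (T (ecell 𝕜 h y)) x * cavg h F y) • ecell 𝕜 h x := by
  unfold proj
  simp only [cavg_sum hh]

lemma sum_cavg_le {h : ℝ} (hh : 0 < h) {φ : Rd d → ℝ} (hφ : ∀ x, 0 ≤ φ x)
    (V : Finset (Fin d → ℤ)) (hi : ∀ z ∈ V, IntegrableOn φ (cell h z) volume) :
    ENNReal.ofReal (h ^ d * ∑ z ∈ V, cavg h φ z) ≤ ∫⁻ x, ENNReal.ofReal (φ x) := by
  rw [← lintegral_cells_ofReal hh hφ hi]
  exact setLIntegral_le_lintegral _ _

variable {T : L2 𝕜 d →L[𝕜] L2 𝕜 d} {K : Rd d → Rd d → 𝕜} {C α : ℝ}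

/-- the a priori estimate -/
theorem apriori (hd : 0 < d) (hK : IsCZKernel ⟨T⟩ d K C α) (hα : 0 < α) {Φ₁ Φ₂ : ℝ → ℝ}
    (y₁ : IsYoung Φ₁) (y₂ : IsYoung Φ₂) (h₁ : YD Φ₁) (h₂ : YD Φ₂) {w σ : Rd d → ℝ}
    (hw : IsWeight w) (hσ : IsWeight σ) (b₁ : Bump Φ₁ w σ) (b₂ : Bump Φ₂ σ w) :
    ∃ C' : ℝ, ∀ (F : L2 𝕜 d) (φ : Rd d → ℝ), (∀ x, 0 ≤ φ x) → LocallyIntegrable φ volume →
      (∀ᵐ x, ‖F x‖ ^ 2 ≤ φ x * w x) →
      wnorm σ (T F) ≤ (ENNReal.ofReal C' * ∫⁻ x, ENNReal.ofReal (φ x)) ^ (1 / 2 : ℝ) := by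
  obtain ⟨C0, θ, hC0, hθ, hker⟩ := hK.ker hd hα
  obtain ⟨K₁, hK₁, k₁⟩ := b₁.disc hd y₁ hw hσ
  obtain ⟨K₂, hK₂, k₂⟩ := b₂.disc hd y₂ hσ hw
  obtain ⟨C', hC', hb⟩ := disc_bound (𝕜 := 𝕜) (zgrid hd) h₁ h₂ (K := K₁ + K₂) (by positivity) hC0 hθ
  refine ⟨C', fun F φ hφ hφi hF => ?_⟩
  obtain ⟨ns, -, hns⟩ := (tendstoInMeasure_of_tendsto_Lp (proj_T_tendsto T F)).exists_seq_tendsto_ae
  have hac := withDensity_absolutelyContinuous (volume : Measure (Rd d))
    (fun x => ENNReal.ofReal (σ x))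
  refine Lp.eLpNorm_le_of_ae_tendsto (u := atTop) (Eventually.of_forall (fun N => ?_))
    (fun N => (Lp.aestronglyMeasurable _).mono_ac hac) (hac.ae_le hns)
  generalize ns N = N
  have hh := hN_pos N
  change wnorm σ _ ≤ _
  rw [wnorm_eq hσ (Lp.aestronglyMeasurable _)]
  refine ENNReal.rpow_le_rpow ?_ (by norm_num)
  rw [proj_T_proj hh, lintegral_step hh hσ]
  have h1 := hb _ (hker _ hh) (cavg (hN N) w) (cavg (hN N) σ) (cavg_nonneg hw.nonneg)
    (cavg_nonneg hσ.nonneg)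
    (fun Q => (k₁ _ hh Q).trans (mul_le_mul_of_nonneg_right (by linarith) (Nat.cast_nonneg _)))
    (fun Q => (k₂ _ hh Q).trans (mul_le_mul_of_nonneg_right (by linarith) (Nat.cast_nonneg _)))
    (2 * N) 0 (VN d N) (VN d N) (VN_tri hd N 0 (zero_mem_VN N)) (VN_tri hd N)
    (cavg (hN N) F) (cavg (hN N) φ) (cavg_nonneg hφ)
    (fun y => cavg_sq_le hh F hφ hw.nonneg (integrableOn_cell hφi hh y)
      (integrableOn_cell hw.locInt hh y) hF)
  refine le_trans ?_ (mul_le_mul_right (sum_cavg_le hh hφ (VN d N)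
    (fun z _ => integrableOn_cell hφi hh z)) _)
  rw [← ENNReal.ofReal_mul hC', mul_left_comm]
  exact ENNReal.ofReal_le_ofReal (mul_le_mul_of_nonneg_left h1 (by positivity))

lemma step_measure {h : ℝ} (hh : 0 < h) {V : Finset (Fin d → ℤ)} {c : (Fin d → ℤ) → 𝕜}
    {g G : Rd d → 𝕜} (hg : g =ᵐ[volume] fun x => if idx h x ∈ V then c (idx h x) else 0)
    {t : ℝ} (ht : 0 < t) :
    volume {x | t ≤ ‖G x‖} ≤ volume {x | t / 2 ≤ ‖g x - G x‖} +
      ENNReal.ofReal (h ^ d * (V.filter (fun x => t / 4 < ‖c x‖)).card) := by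
  rw [← volume_cells hh]
  refine le_trans (measure_mono_ae ?_) (measure_union_le _ _)
  filter_upwards [hg] with x hx hxt
  by_cases c1 : t / 2 ≤ ‖g x - G x‖
  · exact Or.inl c1
  have c2 : t ≤ ‖G x‖ := hxt
  have c3 := norm_le_insert (g x) (G x)
  have c4 : t / 4 < ‖g x‖ := by linarith
  rw [hx] at c4
  split_ifs at c4 with hV
  · exact Or.inr (mem_filter.2 ⟨hV, c4⟩)
  · rw [norm_zero] at c4; linarith

lemma sum_norm_cavg_le {h : ℝ} (hh : 0 < h) (F : L2 𝕜 d) (V : Finset (Fin d → ℤ)) {I : ℝ}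
    (hI0 : 0 ≤ I) (hI : eLpNorm F 1 volume = ENNReal.ofReal I) :
    h ^ d * ∑ y ∈ V, ‖cavg h F y‖ ≤ I := by
  have := sum_cavg_le hh (fun x => norm_nonneg (F x)) V (fun z _ => (integrableOn_L2 F _ z).norm)
  simp only [ofReal_norm] at this
  rw [← eLpNorm_one_eq_lintegral_enorm, hI, ENNReal.ofReal_le_ofReal_iff hI0] at this
  exact (mul_le_mul_of_nonneg_left (sum_le_sum (fun y _ => norm_cavg_le hh F y))
    (by positivity)).trans this

/-- the weak type estimate -/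
theorem weak_type (hd : 0 < d) (hK : IsCZKernel ⟨T⟩ d K C α) (hα : 0 < α) :
    ∃ W : ℝ, 0 < W ∧ ∀ (F : L2 𝕜 d) (t : ℝ), 0 < t →
      volume {x | t ≤ ‖T F x‖} ≤ ENNReal.ofReal (W / t) * eLpNorm F 1 volume := by
  obtain ⟨C0, θ, hC0, hθ, hker⟩ := hK.ker hd hα
  have hθ' : 0 < 1 - θ := by linarith
  obtain ⟨W, hW, hW0⟩ : ∃ W : ℝ, W = (zgrid hd).A + 4 * C0 * (zgrid hd).D +
      4 * (C0 * (zgrid hd).D / (1 - θ) * (zgrid hd).A) ∧ 0 ≤ W := ⟨_, rfl, by positivity⟩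
  refine ⟨4 * W + 1, by positivity, fun F t ht => ?_⟩
  rcases eq_or_ne (eLpNorm F 1 volume) ∞ with hI | hI
  · rw [hI, ENNReal.mul_top (ENNReal.ofReal_pos.2 (by positivity)).ne']
    exact le_top
  obtain ⟨I, hI0, hI⟩ : ∃ I : ℝ, 0 ≤ I ∧ eLpNorm F 1 volume = ENNReal.ofReal I :=
    ⟨_, ENNReal.toReal_nonneg, (ENNReal.ofReal_toReal hI).symm⟩
  rw [hI]
  have t0 := tendstoInMeasure_of_tendsto_Lp (proj_T_tendsto T F)
  rw [tendstoInMeasure_iff_norm] at t0
  have t1 := (t0 (t / 2) (half_pos ht)).add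
    (tendsto_const_nhds (x := ENNReal.ofReal ((4 * W + 1) / t) * ENNReal.ofReal I))
  refine le_of_le_of_eq (ge_of_tendsto t1 ?_) (zero_add _)
  have t2 : Tendsto (fun N : ℕ => (2 : ℝ) ^ N) atTop atTop :=
    tendsto_pow_atTop_atTop_of_one_lt (by norm_num)
  filter_upwards [t2.eventually (eventually_ge_atTop (I / (t / 4)))] with N hN'
  have hh := hN_pos N
  have hp : 0 < hN N ^ d := by positivity
  have a1 := sum_norm_cavg_le hh F (VN d N) hI0 hI
  have a2 := (hker _ hh).weak (VN_tri hd N) (cavg (hN N) F) (t := t / 4) (by positivity) (by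
    apply le_of_mul_le_mul_left _ hp
    have e : hN N ^ d * (((zgrid hd).D : ℕ) : ℝ) ^ (2 * N) = (2 ^ N) ^ d := by
      change _ * (((2 ^ d : ℕ) : ℕ) : ℝ) ^ (2 * N) = _
      push_cast
      rw [← pow_mul, mul_comm d, pow_mul, ← mul_pow, hN_mul]
    rw [mul_left_comm, e]
    rw [div_le_iff₀' (by positivity)] at hN'
    refine (a1.trans hN').trans (mul_le_mul_of_nonneg_left ?_ (by positivity))
    exact le_self_pow₀ (one_le_pow₀ (by norm_num)) hd.ne')
  rw [← hW] at a2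
  have a3 := coeFn_sum_ecell hh (fun x => ∑ y ∈ VN d N,
      cavg (hN N) (T (ecell 𝕜 (hN N) y)) x * cavg (hN N) F y) (VN d N)
  rw [← proj_T_proj hh] at a3
  refine (step_measure hh (c := fun x => ∑ y ∈ VN d N,
      cavg (hN N) (T (ecell 𝕜 (hN N) y)) x * cavg (hN N) F y) a3 ht).trans (add_le_add le_rfl ?_)
  rw [← ENNReal.ofReal_mul (by positivity)]
  refine ENNReal.ofReal_le_ofReal ?_
  rw [div_mul_eq_mul_div, le_div_iff₀ ht]
  have b1 := mul_le_mul_of_nonneg_left a2 hp.le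
  have b2 := mul_le_mul_of_nonneg_left a1 hW0
  linarith

end Pool.Agent.MP_93f72d_an

end

-- part MP_93f72d_an.Main
section

/-!
The extension to integrable functions and the main theorem.
-/

namespace Pool.Agent.MP_93f72d_an

open MeasureTheory Filter Topology
open scoped ENNReal Classical

variable {d : ℕ} {𝕜 : Type} [RCLike 𝕜]

lemma exists_trunc {g : Rd d → 𝕜} (hg : Integrable g volume) : ∃ v : ℕ → L2 𝕜 d,
    (∀ n, ∀ᵐ x, ‖v n x‖ ≤ ‖g x‖) ∧
      Tendsto (fun n => eLpNorm (fun x => v n x - g x) 1 volume) atTop (𝓝 0) := by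
  have hm : ∀ n : ℕ, AEStronglyMeasurable ({x | ‖g x‖ ≤ n}.indicator g) volume := fun n =>
    hg.1.indicator₀ (nullMeasurableSet_le hg.1.norm.aemeasurable aemeasurable_const)
  have hle : ∀ (n : ℕ) x, ‖{x | ‖g x‖ ≤ n}.indicator g x‖ ≤ ‖g x‖ := fun n x =>
    norm_indicator_le_norm_self _ _
  have hL : ∀ n : ℕ, MemLp ({x | ‖g x‖ ≤ n}.indicator g) 2 volume := by
    intro n
    rw [memLp_two_iff_integrable_sq_norm (hm n)]
    refine (hg.norm.const_mul n).mono' ((hm n).norm.pow 2) (Eventually.of_forall (fun x => ?_))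
    rw [Real.norm_of_nonneg (sq_nonneg _)]
    by_cases hx : x ∈ {x | ‖g x‖ ≤ n}
    · rw [Set.indicator_of_mem hx, sq]
      exact mul_le_mul_of_nonneg_right hx (norm_nonneg _)
    · rw [Set.indicator_of_notMem hx, norm_zero, zero_pow two_ne_zero]
      positivity
  refine ⟨fun n => (hL n).toLp _, fun n => ?_, ?_⟩
  · filter_upwards [(hL n).coeFn_toLp] with x hx
    rw [hx]; exact hle n x
  · have := tendsto_lintegral_norm_of_dominated_convergence (f := g) hm hg.norm.2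
      (fun n => Eventually.of_forall (hle n)) (Eventually.of_forall (fun x => by
        refine tendsto_const_nhds.congr' ?_
        filter_upwards [tendsto_natCast_atTop_atTop.eventually (eventually_ge_atTop ‖g x‖)]
          with n hn
        exact (Set.indicator_of_mem (s := {x | ‖g x‖ ≤ n}) hn g).symm))
    refine this.congr (fun n => ?_)
    rw [eLpNorm_one_eq_lintegral_enorm]
    refine lintegral_congr_ae ?_
    filter_upwards [(hL n).coeFn_toLp] with x hx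
    rw [hx, ofReal_norm]

variable {T : L2 𝕜 d →L[𝕜] L2 𝕜 d}

lemma weak_sub {W : ℝ} (hW : ∀ (F : L2 𝕜 d) (t : ℝ), 0 < t →
      volume {x | t ≤ ‖T F x‖} ≤ ENNReal.ofReal (W / t) * eLpNorm F 1 volume)
    {g : Rd d → 𝕜} (hg : AEStronglyMeasurable g volume) (u v : L2 𝕜 d) {t : ℝ} (ht : 0 < t) :
    volume {x | t ≤ ‖T u x - T v x‖} ≤ ENNReal.ofReal (W / t) *
      (eLpNorm (fun x => u x - g x) 1 volume + eLpNorm (fun x => v x - g x) 1 volume) := by
  refine le_trans (measure_mono_ae ?_) ((hW (u - v) t ht).trans (mul_le_mul_right ?_ _))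
  · filter_upwards [Lp.coeFn_sub (T u) (T v)] with x hx hxt
    change t ≤ ‖T (u - v) x‖
    rw [map_sub, hx]
    exact hxt
  · refine le_of_eq_of_le (eLpNorm_congr_ae ?_) (eLpNorm_sub_le
      ((Lp.aestronglyMeasurable u).sub hg) ((Lp.aestronglyMeasurable v).sub hg) le_rfl)
    filter_upwards [Lp.coeFn_sub u v] with x hx
    rw [hx]
    simp

lemma ext_of_lim {W : ℝ} (hW : ∀ (F : L2 𝕜 d) (t : ℝ), 0 < t →
      volume {x | t ≤ ‖T F x‖} ≤ ENNReal.ofReal (W / t) * eLpNorm F 1 volume)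
    {g h : Rd d → 𝕜} (hg : AEStronglyMeasurable g volume) {v : ℕ → L2 𝕜 d}
    (hv : Tendsto (fun k => eLpNorm (fun x => v k x - g x) 1 volume) atTop (𝓝 0))
    (hlim : ∀ᵐ x, Tendsto (fun k => T (v k) x) atTop (𝓝 (h x))) : IsExt ⟨T⟩ g h := by
  have key : ∀ (u : L2 𝕜 d) (t : ℝ), 0 < t → volume {x | t ≤ ‖T u x - h x‖} ≤
      ENNReal.ofReal (W / (t / 2)) * eLpNorm (fun x => u x - g x) 1 volume := by
    intro u t ht
    have hm : Monotone (fun m : ℕ => {x | ∀ k, m ≤ k → t / 2 ≤ ‖T u x - T (v k) x‖}) :=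
      fun a b hab x hx k hk => hx k (hab.trans hk)
    refine le_trans (measure_mono_ae (t := ⋃ m : ℕ,
      {x | ∀ k, m ≤ k → t / 2 ≤ ‖T u x - T (v k) x‖}) ?_) ?_
    · filter_upwards [hlim] with x hx hxt
      have h1 : t ≤ ‖T u x - h x‖ := hxt
      have h2 := ((tendsto_const_nhds (x := T u x)).sub hx).norm.eventually
        (lt_mem_nhds (show t / 2 < ‖T u x - h x‖ by linarith))
      obtain ⟨m, hm⟩ := eventually_atTop.1 h2
      exact Set.mem_iUnion.2 ⟨m, fun k hk => (hm k hk).le⟩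
    · rw [hm.measure_iUnion]
      refine iSup_le (fun m => ?_)
      have t1 := ENNReal.Tendsto.const_mul (a := ENNReal.ofReal (W / (t / 2)))
        ((tendsto_const_nhds (x := eLpNorm (fun x => u x - g x) 1 volume)).add hv)
        (Or.inr ENNReal.ofReal_ne_top)
      refine le_of_le_of_eq (ge_of_tendsto t1 ?_) (congrArg _ (add_zero _))
      filter_upwards [eventually_ge_atTop m] with k hk
      exact le_trans (measure_mono (fun x hx => hx k hk)) (weak_sub hW hg u (v k) (half_pos ht))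
  refine ⟨fun u hu => ?_⟩
  rw [tendstoInMeasure_iff_norm]
  intro t ht
  have t1 := ENNReal.Tendsto.const_mul (a := ENNReal.ofReal (W / (t / 2))) hu
    (Or.inr ENNReal.ofReal_ne_top)
  rw [mul_zero] at t1
  exact tendsto_of_tendsto_of_tendsto_of_le_of_le tendsto_const_nhds t1 (fun _ => zero_le)
    (fun n => key (u n) t ht)

lemma exists_ext {W : ℝ} (hW0 : 0 < W) (hW : ∀ (F : L2 𝕜 d) (t : ℝ), 0 < t →
      volume {x | t ≤ ‖T F x‖} ≤ ENNReal.ofReal (W / t) * eLpNorm F 1 volume)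
    {g : Rd d → 𝕜} (hg : Integrable g volume) : ∃ h, IsExt ⟨T⟩ g h := by
  obtain ⟨v0, -, hv0⟩ := exists_trunc hg
  obtain ⟨φ, hφ, hφ2⟩ := extraction_forall_of_eventually (P := fun n k =>
    eLpNorm (fun x => v0 k x - g x) 1 volume ≤ ENNReal.ofReal ((1 / 4) ^ n))
    (fun n => hv0.eventually (ge_mem_nhds (ENNReal.ofReal_pos.2 (by positivity))))
  have hv := hv0.comp hφ.tendsto_atTop
  obtain ⟨v, hvdef⟩ : ∃ v : ℕ → L2 𝕜 d, v = fun k => v0 (φ k) := ⟨_, rfl⟩
  replace hv : Tendsto (fun k => eLpNorm (fun x => v k x - g x) 1 volume) atTop (𝓝 0) := by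
    rw [hvdef]; exact hv
  replace hφ2 : ∀ k, eLpNorm (fun x => v k x - g x) 1 volume ≤ ENNReal.ofReal ((1 / 4) ^ k) := by
    rw [hvdef]; exact hφ2
  clear hvdef hv0 hφ
  have hA : ∀ k, volume {x | (1 / 2) ^ k ≤ ‖T (v k) x - T (v (k + 1)) x‖} ≤
      ENNReal.ofReal (2 * W * (1 / 2) ^ k) := by
    intro k
    refine (weak_sub hW hg.1 _ _ (by positivity)).trans ((mul_le_mul_right
      (add_le_add (hφ2 k) (hφ2 (k + 1))) _).trans ?_)
    rw [← ENNReal.ofReal_add (by positivity) (by positivity),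
      ← ENNReal.ofReal_mul (by positivity)]
    refine ENNReal.ofReal_le_ofReal ?_
    have e : (1 / 4 : ℝ) ^ k = (1 / 2) ^ k * (1 / 2) ^ k := by rw [← mul_pow]; norm_num
    rw [pow_succ, e]
    have hp : (0 : ℝ) < (1 / 2) ^ k := by positivity
    generalize (1 / 2 : ℝ) ^ k = q at hp
    rw [show W / q * (q * q + q * q * (1 / 4)) = 5 / 4 * (W * q) by field_simp; ring]
    nlinarith [mul_pos hW0 hp]
  have hBC := ae_eventually_notMem (μ := volume)
    (s := fun k => {x | (1 / 2) ^ k ≤ ‖T (v k) x - T (v (k + 1)) x‖})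
    (ne_top_of_le_ne_top (by
      rw [← ENNReal.ofReal_tsum_of_nonneg (fun k => by positivity)
        (summable_geometric_two.mul_left (2 * W))]
      exact ENNReal.ofReal_ne_top) (ENNReal.tsum_le_tsum hA))
  have hlim : ∀ᵐ x, Tendsto (fun k => T (v k) x) atTop
      (𝓝 (limUnder atTop (fun k => T (v k) x))) := by
    filter_upwards [hBC] with x hx
    refine (cauchySeq_of_summable_dist ?_).tendsto_limUnder
    refine Summable.of_norm_bounded_eventually_nat summable_geometric_two ?_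
    filter_upwards [hx] with k hk
    rw [Real.norm_of_nonneg dist_nonneg, dist_eq_norm]
    exact (not_le.1 hk).le
  exact ⟨_, ext_of_lim hW hg.1 hv hlim⟩

theorem main (hd : 0 < d) {Φ₁ Φ₂ : ℝ → ℝ} (y₁ : IsYoung Φ₁) (y₂ : IsYoung Φ₂) {c : ℝ}
    (i₁ : ∫⁻ x in Set.Ioi c, (ENNReal.ofReal (Φ₁ x))⁻¹ < ∞)
    (i₂ : ∫⁻ x in Set.Ioi c, (ENNReal.ofReal (Φ₂ x))⁻¹ < ∞) {w σ : Rd d → ℝ}
    (hw : IsWeight w) (hσ : IsWeight σ) (b₁ : Bump Φ₁ w σ) (b₂ : Bump Φ₂ σ w) 
    (hT : IsCZO ⟨T⟩ d) : TwoWeightBounded ⟨T⟩ w σ := by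
  obtain ⟨K, C, α, hα, -, hK⟩ := hT.out
  obtain ⟨W, hW0, hW⟩ := weak_type hd hK hα
  obtain ⟨C', hC'⟩ := apriori hd hK hα y₁ y₂ (y₁.yd i₁) (y₂.yd i₂) hw hσ b₁ b₂
  refine ⟨ENNReal.ofReal C' ^ (1 / 2 : ℝ), ENNReal.rpow_lt_top_of_nonneg (by norm_num)
    ENNReal.ofReal_ne_top, fun f hf ⟨M, hM⟩ hc => ?_⟩
  have hwm := hw.locInt.aestronglyMeasurable
  have hwi : Integrable ((tsupport f).indicator w) volume :=
    (integrable_indicator_iff (isClosed_tsupport f).measurableSet).2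
      (hw.locInt.integrableOn_isCompact hc)
  have hbd : ∀ x, ‖f x‖ * w x ≤ M * (tsupport f).indicator w x := by
    intro x
    by_cases hx : x ∈ tsupport f
    · rw [Set.indicator_of_mem hx]
      exact mul_le_mul_of_nonneg_right (hM x) (hw.nonneg x)
    · rw [Set.indicator_of_notMem hx, image_eq_zero_of_notMem_tsupport hx]; simp
  have hn : ∀ x, ‖f x * (w x : 𝕜)‖ = ‖f x‖ * w x := fun x => by
    rw [norm_mul, RCLike.norm_ofReal, abs_of_nonneg (hw.nonneg x)]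
  have hg : Integrable (fun x => f x * (w x : 𝕜)) volume :=
    (hwi.const_mul M).mono' (hf.mul (RCLike.continuous_ofReal.comp_aestronglyMeasurable hwm))
      (Eventually.of_forall (fun x => (hn x).trans_le (hbd x)))
  refine ⟨exists_ext hW0 hW hg, fun h hh => ?_⟩
  obtain ⟨v, hv1, hv2⟩ := exists_trunc hg
  obtain ⟨ns, -, hns⟩ := (hh.out v hv2).exists_seq_tendsto_ae
  have hφ0 : ∀ x, 0 ≤ ‖f x‖ ^ 2 * w x := fun x => mul_nonneg (sq_nonneg _) (hw.nonneg x)
  have hφ : Integrable (fun x => ‖f x‖ ^ 2 * w x) volume := by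
    refine ((hwi.const_mul M).const_mul M).mono' ((hf.norm.pow 2).mul hwm)
      (Eventually.of_forall (fun x => ?_))
    rw [Real.norm_of_nonneg (hφ0 x), sq, mul_assoc]
    exact mul_le_mul (hM x) (hbd x) (mul_nonneg (norm_nonneg _) (hw.nonneg x))
      ((norm_nonneg _).trans (hM x))
  have hac := withDensity_absolutelyContinuous (volume : Measure (Rd d))
    (fun x => ENNReal.ofReal (σ x))
  refine Lp.eLpNorm_le_of_ae_tendsto (u := atTop) (Eventually.of_forall (fun n => ?_))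
    (fun n => (Lp.aestronglyMeasurable _).mono_ac hac) (hac.ae_le hns)
  rw [wnorm_eq hw hf, ← ENNReal.mul_rpow_of_nonneg _ _ (by norm_num)]
  refine hC' (v (ns n)) _ hφ0 hφ.locallyIntegrable ?_
  filter_upwards [hv1 (ns n)] with x hx
  rw [hn] at hx
  calc _ ≤ (‖f x‖ * w x) ^ 2 := pow_le_pow_left₀ (norm_nonneg _) hx 2
    _ = _ := by ring

end Pool.Agent.MP_93f72d_an

end
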