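import Mathlib

-- part MP_93f72d_an.Lam
section

/-!
Finite laminar families of finite sets: depth, packing lemmas.
-/

namespace Pool.Agent.MP_93f72d_an

open Finset

open scoped Classical

variable {X : Type}

/-- mass of a finite set -/
noncomputable def ms (m : X → ℝ) (Q : Finset X) : ℝ := ∑ x ∈ Q, m x

/-- laminar family of nonempty sets -/
def Lam (S : Finset (Finset X)) : Prop :=
  (∀ Q ∈ S, Q.Nonempty) ∧ ∀ Q ∈ S, ∀ Q' ∈ S, Q ⊆ Q' ∨ Q' ⊆ Q ∨ Disjoint Q Q'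

/-- number of strict ancestors -/
noncomputable def dep (S : Finset (Finset X)) (Q : Finset X) : ℕ :=
  (S.filter (fun Z => Q ⊂ Z)).card

/-- union of the strict descendants -/
noncomputable def und (S : Finset (Finset X)) (Q : Finset X) : Finset X :=
  (S.filter (fun Z => Z ⊂ Q)).biUnion id

/-- strong sparseness -/
def Sparse (m : X → ℝ) (η : ℝ) (S : Finset (Finset X)) : Prop :=
  ∀ Q ∈ S, ms m (und S Q) ≤ η * ms m Q

lemma ms_nonneg {m : X → ℝ} (hm : ∀ x, 0 ≤ m x) (Q : Finset X) : 0 ≤ ms m Q :=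
  sum_nonneg (fun x _ => hm x)

lemma ms_mono {m : X → ℝ} (hm : ∀ x, 0 ≤ m x) {Q Q' : Finset X} (h : Q ⊆ Q') :
    ms m Q ≤ ms m Q' :=
  sum_le_sum_of_subset_of_nonneg h (fun x _ _ => hm x)

lemma mem_und {S : Finset (Finset X)} {Q : Finset X} {x : X} :
    x ∈ und S Q ↔ ∃ Z ∈ S, Z ⊂ Q ∧ x ∈ Z := by
  unfold und
  simp only [mem_biUnion, mem_filter, id]
  constructor
  · rintro ⟨Z, ⟨h1, h2⟩, h3⟩; exact ⟨Z, h1, h2, h3⟩
  · rintro ⟨Z, h1, h2, h3⟩; exact ⟨Z, ⟨h1, h2⟩, h3⟩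

lemma und_subset (S : Finset (Finset X)) (Q : Finset X) : und S Q ⊆ Q := by
  intro x hx
  obtain ⟨Z, -, h2, h3⟩ := mem_und.1 hx
  exact h2.subset h3

lemma Lam.mono {S S' : Finset (Finset X)} (h : Lam S) (hs : S' ⊆ S) : Lam S' :=
  ⟨fun Q hQ => h.1 Q (hs hQ), fun Q hQ Q' hQ' => h.2 Q (hs hQ) Q' (hs hQ')⟩

lemma Sparse.mono {m : X → ℝ} (hm : ∀ x, 0 ≤ m x) {η : ℝ} {S S' : Finset (Finset X)}
    (h : Sparse m η S) (hs : S' ⊆ S) : Sparse m η S' := by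
  intro Q hQ
  refine le_trans (ms_mono hm ?_) (h Q (hs hQ))
  intro x hx
  obtain ⟨Z, h1, h2, h3⟩ := mem_und.1 hx
  exact mem_und.2 ⟨Z, hs h1, h2, h3⟩

lemma dep_lt {S : Finset (Finset X)} {Q Q' : Finset X} (hQ' : Q' ∈ S) (h : Q ⊂ Q') :
    dep S Q' < dep S Q := by
  apply card_lt_card
  refine ⟨fun Z hZ => ?_, fun hc => ?_⟩
  · rw [mem_filter] at hZ ⊢
    exact ⟨hZ.1, h.trans hZ.2⟩
  · have : Q' ∈ S.filter (fun Z => Q' ⊂ Z) := hc (mem_filter.2 ⟨hQ', h⟩)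
    exact (mem_filter.1 this).2.ne rfl

lemma dep_le {S : Finset (Finset X)} {Q Q' : Finset X} (h : Q ⊆ Q') : dep S Q' ≤ dep S Q := by
  apply card_le_card
  intro Z hZ
  rw [mem_filter] at hZ ⊢
  exact ⟨hZ.1, lt_of_le_of_lt h hZ.2⟩

lemma Lam.comp {S : Finset (Finset X)} (h : Lam S) {Q Q' : Finset X} (hQ : Q ∈ S) (hQ' : Q' ∈ S)
    {x : X} (hx : x ∈ Q) (hx' : x ∈ Q') : Q ⊆ Q' ∨ Q' ⊆ Q := by
  rcases h.2 Q hQ Q' hQ' with h1 | h1 | h1
  · exact Or.inl h1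
  · exact Or.inr h1
  · exact absurd hx' (disjoint_left.1 h1 hx)

lemma Lam.subset_of_dep_le {S : Finset (Finset X)} (h : Lam S) {Q Q' : Finset X} (hQ : Q ∈ S)
    (hQ' : Q' ∈ S) {x : X} (hx : x ∈ Q) (hx' : x ∈ Q') (hd : dep S Q ≤ dep S Q') : Q' ⊆ Q := by
  rcases h.comp hQ hQ' hx hx' with h1 | h1
  · rcases eq_or_ssubset_of_subset h1 with h2 | h2
    · rw [h2]
    · have := dep_lt hQ' h2
      omega
  · exact h1

lemma Lam.eq_of_dep_eq {S : Finset (Finset X)} (h : Lam S) {Q Q' : Finset X} (hQ : Q ∈ S)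
    (hQ' : Q' ∈ S) {x : X} (hx : x ∈ Q) (hx' : x ∈ Q') (hd : dep S Q = dep S Q') : Q = Q' :=
  Subset.antisymm (h.subset_of_dep_le hQ' hQ hx' hx hd.ge) (h.subset_of_dep_le hQ hQ' hx hx' hd.le)

lemma Lam.disjoint_of_dep {S A : Finset (Finset X)} (h : Lam S) (hA : A ⊆ S) {t : ℕ}
    (ht : ∀ Q ∈ A, dep S Q = t) : (A : Set (Finset X)).PairwiseDisjoint id := by
  intro Q hQ Q' hQ' hne
  rw [Function.onFun, id, id, disjoint_left]
  intro x hx hx'
  exact hne (h.eq_of_dep_eq (hA hQ) (hA hQ') hx hx' (by rw [ht Q hQ, ht Q' hQ']))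

lemma Lam.exists_anc {S : Finset (Finset X)} (h : Lam S) {Q : Finset X} (hQ : Q ∈ S) {t : ℕ}
    (ht : t ≤ dep S Q) : ∃ P ∈ S, Q ⊆ P ∧ dep S P = t := by
  obtain ⟨x, hx⟩ := h.1 Q hQ
  have hcard : (S.filter (fun Z => Q ⊆ Z)).card = dep S Q + 1 := by
    have : S.filter (fun Z => Q ⊆ Z) = insert Q (S.filter (fun Z => Q ⊂ Z)) := by
      ext Z
      simp only [mem_filter, mem_insert]
      constructor
      · rintro ⟨h1, h2⟩
        rcases eq_or_ssubset_of_subset h2 with h3 | h3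
        · exact Or.inl h3.symm
        · exact Or.inr ⟨h1, h3⟩
      · rintro (rfl | ⟨h1, h2⟩)
        · exact ⟨hQ, Subset.refl _⟩
        · exact ⟨h1, h2.subset⟩
    rw [this, card_insert_of_notMem (fun hc => (mem_filter.1 hc).2.ne rfl)]
    rfl
  have := surj_on_of_inj_on_of_card_le (s := S.filter (fun Z => Q ⊆ Z)) (t := range (dep S Q + 1))
    (fun Z _ => dep S Z)
    (fun Z hZ => mem_range.2 (Nat.lt_succ_of_le (dep_le (mem_filter.1 hZ).2)))
    (fun Z Z' hZ hZ' he => h.eq_of_dep_eq (mem_filter.1 hZ).1 (mem_filter.1 hZ').1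
      ((mem_filter.1 hZ).2 hx) ((mem_filter.1 hZ').2 hx) he)
    (by rw [hcard, card_range]) t (mem_range.2 (Nat.lt_succ_of_le ht))
  obtain ⟨P, hP, e⟩ := this
  exact ⟨P, (mem_filter.1 hP).1, (mem_filter.1 hP).2, e.symm⟩

lemma ms_biUnion (m : X → ℝ) {A : Finset (Finset X)}
    (hd : (A : Set (Finset X)).PairwiseDisjoint id) : ms m (A.biUnion id) = ∑ Q ∈ A, ms m Q :=
  sum_biUnion hd

lemma sum_ms_le {m : X → ℝ} (hm : ∀ x, 0 ≤ m x) {A : Finset (Finset X)}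
    (hd : (A : Set (Finset X)).PairwiseDisjoint id) {W : Finset X} (hW : ∀ Q ∈ A, Q ⊆ W) :
    ∑ Q ∈ A, ms m Q ≤ ms m W := by
  rw [← ms_biUnion m hd]
  exact ms_mono hm (biUnion_subset.2 hW)

lemma Lam.disjoint_sdiff_und {S : Finset (Finset X)} (h : Lam S) :
    (S : Set (Finset X)).PairwiseDisjoint (fun Q => Q \ und S Q) := by
  intro Q hQ Q' hQ' hne
  rw [Function.onFun, disjoint_left]
  intro x hx hx'
  rw [mem_sdiff] at hx hx'
  rcases h.comp hQ hQ' hx.1 hx'.1 with h1 | h1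
  · exact hx'.2 (mem_und.2 ⟨Q, hQ, ssubset_of_subset_of_ne h1 hne, hx.1⟩)
  · exact hx.2 (mem_und.2 ⟨Q', hQ', ssubset_of_subset_of_ne h1 hne.symm, hx'.1⟩)

lemma ms_sdiff_und (m : X → ℝ) (S : Finset (Finset X)) (Q : Finset X) :
    ms m (Q \ und S Q) = ms m Q - ms m (und S Q) := by
  unfold ms
  rw [sum_sdiff_eq_sub (und_subset S Q)]

lemma sum_sdiff_und_le {m : X → ℝ} (hm : ∀ x, 0 ≤ m x) {S : Finset (Finset X)} (h : Lam S)
    {R : Finset X} (hR : ∀ Q ∈ S, Q ⊆ R) : ∑ Q ∈ S, ms m (Q \ und S Q) ≤ ms m R := by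
  have : ∑ Q ∈ S, ms m (Q \ und S Q) = ms m (S.biUnion (fun Q => Q \ und S Q)) :=
    (sum_biUnion h.disjoint_sdiff_und).symm
  rw [this]
  exact ms_mono hm (biUnion_subset.2 (fun Q hQ => sdiff_subset.trans (hR Q hQ)))

lemma pack_half {m : X → ℝ} (hm : ∀ x, 0 ≤ m x) {S : Finset (Finset X)} (h : Lam S)
    (hs : Sparse m (1 / 2) S) {R : Finset X} (hR : ∀ Q ∈ S, Q ⊆ R) :
    ∑ Q ∈ S, ms m Q ≤ 2 * ms m R := by
  have h1 := sum_sdiff_und_le hm h hR
  have h2 : ∑ Q ∈ S, ms m Q ≤ ∑ Q ∈ S, 2 * ms m (Q \ und S Q) := by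
    apply sum_le_sum
    intro Q hQ
    rw [ms_sdiff_und]
    have := hs Q hQ
    linarith
  rw [← mul_sum] at h2
  linarith

lemma pack_exp {m : X → ℝ} (hm : ∀ x, 0 ≤ m x) {S : Finset (Finset X)} (h : Lam S) {η β : ℝ}
    (hη : 0 ≤ η) (hβ : 0 ≤ β) (hβη : β * η ≤ 1 / 2) (hs : Sparse m η S) {Q0 : Finset X}
    (hQ0 : Q0 ∈ S) :
    ∑ Q ∈ S.filter (fun Q => Q ⊆ Q0), β ^ (dep S Q - dep S Q0) * ms m Q ≤ 2 * ms m Q0 := by
  let A : ℕ → Finset (Finset X) := fun j => S.filter (fun Q => Q ⊆ Q0 ∧ dep S Q = dep S Q0 + j)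
  have hAd : ∀ j, (A j : Set (Finset X)).PairwiseDisjoint id := fun j =>
    h.disjoint_of_dep (filter_subset _ _) (fun Q hQ => (mem_filter.1 hQ).2.2)
  have hA : ∀ j, ∑ Q ∈ A j, ms m Q ≤ η ^ j * ms m Q0 := by
    intro j
    induction j with
    | zero =>
      rw [pow_zero, one_mul]
      exact sum_ms_le hm (hAd 0) (fun Q hQ => (mem_filter.1 hQ).2.1)
    | succ j ih =>
      have hd2 : (A j : Set (Finset X)).PairwiseDisjoint (fun P => und S P) :=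
        (hAd j).mono (fun P => und_subset S P)
      have h1 : ∑ Q ∈ A (j + 1), ms m Q ≤ ms m ((A j).biUnion (fun P => und S P)) := by
        apply sum_ms_le hm (hAd (j + 1))
        intro Q hQ x hx
        obtain ⟨hQS, hQ1, hQ2⟩ := mem_filter.1 hQ
        obtain ⟨P, hP, hQP, hPd⟩ := h.exists_anc hQS (t := dep S Q0 + j) (by omega)
        refine mem_biUnion.2 ⟨P, mem_filter.2 ⟨hP, ?_, hPd⟩, mem_und.2 ⟨Q, hQS, ?_, hx⟩⟩
        · exact h.subset_of_dep_le hQ0 hP (hQ1 hx) (hQP hx) (by omega)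
        · refine ssubset_of_subset_of_ne hQP (fun he => ?_)
          rw [he] at hQ2; omega
      have h2 : ms m ((A j).biUnion (fun P => und S P)) = ∑ P ∈ A j, ms m (und S P) :=
        sum_biUnion hd2
      have h3 : ∑ P ∈ A j, ms m (und S P) ≤ ∑ P ∈ A j, η * ms m P :=
        sum_le_sum (fun P hP => hs P (mem_filter.1 hP).1)
      rw [← mul_sum] at h3
      calc _ ≤ η * ∑ P ∈ A j, ms m P := by linarith
        _ ≤ η * (η ^ j * ms m Q0) := mul_le_mul_of_nonneg_left ih hη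
        _ = _ := by ring
  have hmaps : ∀ Q ∈ S.filter (fun Q => Q ⊆ Q0), dep S Q - dep S Q0 ∈ range (S.card + 1) := by
    intro Q _
    have : dep S Q ≤ S.card := card_filter_le _ _
    exact mem_range.2 (by omega)
  rw [← sum_fiberwise_of_maps_to hmaps]
  have h0 := ms_nonneg hm Q0
  calc _ ≤ ∑ j ∈ range (S.card + 1), (1 / 2 : ℝ) ^ j * ms m Q0 := by
        apply sum_le_sum
        intro j _
        have e : (S.filter (fun Q => Q ⊆ Q0)).filter (fun Q => dep S Q - dep S Q0 = j) = A j := by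
          ext Q
          simp only [A, mem_filter]
          constructor
          · rintro ⟨⟨h1, h2⟩, h3⟩
            have := dep_le (S := S) h2
            exact ⟨h1, h2, by omega⟩
          · rintro ⟨h1, h2, h3⟩
            exact ⟨⟨h1, h2⟩, by omega⟩
        rw [sum_congr rfl (g := fun Q => β ^ j * ms m Q) (fun Q hQ => by rw [(mem_filter.1 hQ).2]),
          e, ← mul_sum]
        calc _ ≤ β ^ j * (η ^ j * ms m Q0) := mul_le_mul_of_nonneg_left (hA j) (by positivity)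
          _ = (β * η) ^ j * ms m Q0 := by rw [mul_pow]; ring
          _ ≤ _ := mul_le_mul_of_nonneg_right (pow_le_pow_left₀ (by positivity) hβη j) h0
    _ ≤ 2 * ms m Q0 := by
        rw [← sum_mul]
        exact mul_le_mul_of_nonneg_right (sum_geometric_two_le _) h0

lemma sum_zpow_le {ι : Type} (A : Finset ι) (lv : ι → ℤ) (L : ℤ) (hL : ∀ a ∈ A, lv a ≤ L)
    (hinj : ∀ a ∈ A, ∀ b ∈ A, lv a = lv b → a = b) :
    ∑ a ∈ A, (2 : ℝ) ^ lv a ≤ 2 * 2 ^ L := by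
  have e : ∀ a ∈ A, (2 : ℝ) ^ lv a = (1 / 2) ^ (L - lv a).toNat * 2 ^ L := by
    intro a ha
    have h1 : lv a = L - ((L - lv a).toNat : ℤ) := by have := hL a ha; omega
    conv_lhs => rw [h1]
    rw [zpow_sub₀ (by norm_num), zpow_natCast, one_div, inv_pow]
    ring
  rw [sum_congr rfl e, ← sum_mul]
  refine mul_le_mul_of_nonneg_right ?_ (by positivity)
  rw [← sum_image (s := A) (g := fun a => (L - lv a).toNat) (f := fun n => (1 / 2 : ℝ) ^ n)
    (fun a ha b hb hab => hinj a ha b hb (by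
      have := hL a ha
      have := hL b hb
      simp only at hab
      omega))]
  obtain ⟨N, hN⟩ := (A.image (fun a => (L - lv a).toNat)).exists_nat_subset_range
  exact (sum_le_sum_of_subset_of_nonneg hN (fun _ _ _ => by positivity)).trans
    (sum_geometric_two_le N)

/-- a Carleson family splits, by depth modulo `k`, into strongly sparse families -/
lemma sparse_of_carleson {m : X → ℝ} (hm : ∀ x, 0 ≤ m x) {S : Finset (Finset X)} (h : Lam S)
    {Λ η : ℝ} {k : ℕ} (hk : 0 < k) (hΛ : Λ ≤ η * k)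
    (hc : ∀ Q ∈ S, ∑ Z ∈ S.filter (fun Z => Z ⊆ Q), ms m Z ≤ Λ * ms m Q) (r : ℕ) :
    Sparse m η (S.filter (fun Q => dep S Q % k = r)) := by
  intro Q hQ
  obtain ⟨hQS, hQr⟩ := mem_filter.1 hQ
  have h1 : (k : ℝ) * ms m (und (S.filter (fun Q => dep S Q % k = r)) Q) ≤
      ∑ Z ∈ S.filter (fun Z => Z ⊆ Q), ms m Z := by
    unfold ms
    rw [sum_comm' (t' := Q) (s' := fun x => (S.filter (fun Z => Z ⊆ Q)).filter (fun Z => x ∈ Z))
      (by
        intro Z x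
        simp only [mem_filter]
        constructor
        · rintro ⟨⟨h1, h2⟩, h3⟩; exact ⟨⟨⟨h1, h2⟩, h3⟩, h2 h3⟩
        · rintro ⟨⟨h1, h3⟩, -⟩; exact ⟨h1, h3⟩), mul_sum]
    refine le_trans (sum_le_sum (fun x hx => ?_))
      (sum_le_sum_of_subset_of_nonneg (und_subset _ Q)
        (fun x _ _ => sum_nonneg (fun _ _ => hm x)))
    rw [sum_const, nsmul_eq_mul]
    refine mul_le_mul_of_nonneg_right ?_ (hm x)
    obtain ⟨Z, hZ, hZQ, hxZ⟩ := mem_und.1 hx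
    obtain ⟨hZS, hZr⟩ := mem_filter.1 hZ
    have hlt := dep_lt hQS hZQ
    have hge : dep S Q + k ≤ dep S Z := by
      have h2 : (dep S Z - dep S Q) % k = 0 :=
        Nat.sub_mod_eq_zero_of_mod_eq (by rw [hZr, hQr])
      have h3 := Nat.le_of_dvd (by omega) (Nat.dvd_of_mod_eq_zero h2)
      omega
    have : range k ⊆ ((S.filter (fun Z => Z ⊆ Q)).filter (fun Z => x ∈ Z)).image
        (fun P => dep S P - dep S Q) := by
      intro t ht
      obtain ⟨P, hP, hZP, hPd⟩ := h.exists_anc hZS (t := dep S Q + t)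
        (by have := mem_range.1 ht; omega)
      refine mem_image.2 ⟨P, mem_filter.2 ⟨mem_filter.2 ⟨hP, ?_⟩, hZP hxZ⟩, by omega⟩
      exact h.subset_of_dep_le hQS hP (hZQ.subset hxZ) (hZP hxZ) (by omega)
    have h4 := (card_le_card this).trans card_image_le
    rw [card_range] at h4
    exact_mod_cast h4
  have h2 := hc Q hQS
  have h3 : (0 : ℝ) < k := by exact_mod_cast hk
  have h4 := mul_le_mul_of_nonneg_right hΛ (ms_nonneg hm Q)
  apply le_of_mul_le_mul_left _ h3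
  nlinarith

end Pool.Agent.MP_93f72d_an

end

-- part MP_93f72d_an.Path
section

/-!
The pathwise inequality behind the testing condition.
-/

namespace Pool.Agent.MP_93f72d_an

open Finset

open scoped Classical

variable {X : Type}

/-- members of the family on a given level -/
noncomputable def cls (S : Finset (Finset X)) (lev : Finset X → ℤ) (l : ℤ) : Finset (Finset X) :=
  S.filter (fun P => lev P = l)

/-- depth among the members of the same level -/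
noncomputable def dl (S : Finset (Finset X)) (lev : Finset X → ℤ) (Q : Finset X) : ℕ :=
  dep (cls S lev (lev Q)) Q

/-- first weight -/
noncomputable def al1 (S : Finset (Finset X)) (lev : Finset X → ℤ) (ρ : Finset X → ℝ)
    (Q : Finset X) : ℝ :=
  ∑ P ∈ (cls S lev (lev Q)).filter (fun P => Q ⊆ P), 64 ^ (dl S lev Q - dl S lev P) * (ρ Q / ρ P)

/-- sets at which the scale drops -/
def Drop (S : Finset (Finset X)) (lev : Finset X → ℤ) (sc : Finset X → ℕ) (Q : Finset X) : Prop :=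
  (∃ P ∈ S, lev P = lev Q ∧ Q ⊆ P ∧ dl S lev P + 1 = dl S lev Q ∧ sc Q + 5 ≤ sc P) ∧
    ∀ A ∈ S, Q ⊆ A → lev A ≤ lev Q + sc Q

/-- second weight -/
noncomputable def al2 (S : Finset (Finset X)) (lev : Finset X → ℤ) (sc : Finset X → ℕ)
    (Q : Finset X) : ℝ :=
  if Drop S lev sc Q then (3 / 2) ^ sc Q else 0

lemma al2_nonneg (S : Finset (Finset X)) (lev : Finset X → ℤ) (sc : Finset X → ℕ)
    (Q : Finset X) : 0 ≤ al2 S lev sc Q := by
  unfold al2
  split_ifs <;> positivity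

lemma le_al1 {S : Finset (Finset X)} {lev : Finset X → ℤ} {ρ : Finset X → ℝ}
    (hρ : ∀ Q ∈ S, 0 < ρ Q) {Q P : Finset X} (hQ : Q ∈ S) (hP : P ∈ S) (hl : lev P = lev Q)
    (hQP : Q ⊆ P) : 64 ^ (dl S lev Q - dl S lev P) * (ρ Q / ρ P) ≤ al1 S lev ρ Q := by
  unfold al1
  apply single_le_sum (f := fun P => (64 : ℝ) ^ (dl S lev Q - dl S lev P) * (ρ Q / ρ P))
  · intro Z hZ
    have h1 := hρ Z (mem_filter.1 (mem_filter.1 hZ).1).1
    have h2 := hρ Q hQ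
    positivity
  · exact mem_filter.2 ⟨mem_filter.2 ⟨hP, hl⟩, hQP⟩

lemma one_le_al1 {S : Finset (Finset X)} {lev : Finset X → ℤ} {ρ : Finset X → ℝ}
    (hρ : ∀ Q ∈ S, 0 < ρ Q) {Q : Finset X} (hQ : Q ∈ S) : 1 ≤ al1 S lev ρ Q := by
  have := le_al1 (lev := lev) hρ hQ hQ rfl (Subset.refl _)
  rwa [Nat.sub_self, pow_zero, div_self (hρ Q hQ).ne', mul_one] at this

lemma count_level {S : Finset (Finset X)} (hS : Lam S) {lev : Finset X → ℤ} {ρ : Finset X → ℝ}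
    {sc : Finset X → ℕ} (hsc : ∀ Q ∈ S, 2 ^ sc Q ≤ ρ Q ∧ ρ Q < 2 ^ (sc Q + 1)) (x : X) (l : ℤ)
    (n : ℕ) (hlev : ∀ Q ∈ S, x ∈ Q → lev Q ≤ l + n)
    (h1 : ∀ Q ∈ S, x ∈ Q → lev Q = l → al1 S lev ρ Q < 4 ^ n)
    (h2 : ∀ Q ∈ S, x ∈ Q → lev Q = l → al2 S lev sc Q < 4 ^ n) :
    ((cls S lev l).filter (fun Q => x ∈ Q)).card ≤ 2 * n + 1 := by
  have hρ : ∀ Q ∈ S, 0 < ρ Q := fun Q hQ => lt_of_lt_of_le (by positivity) (hsc Q hQ).1
  have hL : Lam (cls S lev l) := hS.mono (filter_subset _ _)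
  by_contra hc
  have hex : ∃ Q ∈ (cls S lev l).filter (fun Q => x ∈ Q), 2 * n + 1 ≤ dep (cls S lev l) Q := by
    by_contra hne
    push Not at hne
    apply hc
    rw [← card_range (2 * n + 1)]
    apply card_le_card_of_injOn (fun Q => dep (cls S lev l) Q)
    · intro Q hQ
      exact mem_coe.2 (mem_range.2 (hne Q hQ))
    · intro Q hQ Q' hQ' he
      have hQ := mem_filter.1 (mem_coe.1 hQ)
      have hQ' := mem_filter.1 (mem_coe.1 hQ')
      exact hL.eq_of_dep_eq hQ.1 hQ'.1 hQ.2 hQ'.2 he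
  obtain ⟨Q, hQ, hQd⟩ := hex
  obtain ⟨hQc, hxQ⟩ := mem_filter.1 hQ
  have hP : ∀ t : ℕ, ∃ P, t ≤ 2 * n + 1 → P ∈ cls S lev l ∧ x ∈ P ∧ dep (cls S lev l) P = t := by
    intro t
    by_cases ht : t ≤ 2 * n + 1
    · obtain ⟨P, hP1, hP2, hP3⟩ := hL.exists_anc hQc (ht.trans hQd)
      exact ⟨P, fun _ => ⟨hP1, hP2 hxQ, hP3⟩⟩
    · exact ⟨∅, fun h => absurd h ht⟩
  choose P hP using hP
  have hPS : ∀ t ≤ 2 * n + 1, P t ∈ S := fun t ht => (mem_filter.1 (hP t ht).1).1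
  have hPl : ∀ t ≤ 2 * n + 1, lev (P t) = l := fun t ht => (mem_filter.1 (hP t ht).1).2
  have hPd : ∀ t ≤ 2 * n + 1, dl S lev (P t) = t := fun t ht => by
    unfold dl; rw [hPl t ht]; exact (hP t ht).2.2
  have hsub : ∀ i j, i ≤ j → j ≤ 2 * n + 1 → P j ⊆ P i := fun i j hij hj =>
    hL.subset_of_dep_le (hP i (hij.trans hj)).1 (hP j hj).1 (hP i (hij.trans hj)).2.1
      (hP j hj).2.1 (by rw [(hP i (hij.trans hj)).2.2, (hP j hj).2.2]; exact hij)
  have hkey : ∀ i j, i ≤ j → j ≤ 2 * n + 1 →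
      6 * (j - i) + sc (P j) < 2 * n + (sc (P i) + 1) := by
    intro i j hij hj
    have hi := hij.trans hj
    have a1 := le_al1 (lev := lev) hρ (hPS j hj) (hPS i hi) (by rw [hPl i hi, hPl j hj])
      (hsub i j hij hj)
    rw [hPd i hi, hPd j hj] at a1
    have a2 := a1.trans_lt (h1 _ (hPS j hj) (hP j hj).2.1 (hPl j hj))
    have a3 := hρ _ (hPS i hi)
    rw [← mul_div_assoc, div_lt_iff₀ a3] at a2
    have a4 : (2 : ℝ) ^ (6 * (j - i) + sc (P j)) < 2 ^ (2 * n + (sc (P i) + 1)) := by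
      rw [pow_add, pow_add _ (2 * n), pow_mul, pow_mul]
      calc ((2 : ℝ) ^ 6) ^ (j - i) * 2 ^ sc (P j) ≤ 64 ^ (j - i) * ρ (P j) := by
            rw [show (2 : ℝ) ^ 6 = 64 by norm_num]
            exact mul_le_mul_of_nonneg_left (hsc _ (hPS j hj)).1 (by positivity)
        _ < 4 ^ n * ρ (P i) := a2
        _ ≤ _ := by
            rw [show (2 : ℝ) ^ 2 = 4 by norm_num]
            exact mul_le_mul_of_nonneg_left (hsc _ (hPS i hi)).2.le (by positivity)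
    exact (pow_lt_pow_iff_right₀ (by norm_num : (1 : ℝ) < 2)).1 a4
  have hstep : ∃ i < n + 1, sc (P (i + 1)) + 5 ≤ sc (P i) := by
    by_contra hne
    push Not at hne
    have : ∀ t ≤ n + 1, sc (P 0) ≤ sc (P t) + 4 * t := by
      intro t
      induction t with
      | zero => intro _; omega
      | succ t ih =>
        intro ht
        have := ih (by omega)
        have := hne t (by omega)
        omega
    have b1 := this (n + 1) le_rfl
    have b2 := hkey 0 (n + 1) (by omega) (by omega)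
    omega
  obtain ⟨i, hi, hdrop⟩ := hstep
  have hi1 : i + 1 ≤ 2 * n + 1 := by omega
  have hy := hkey (i + 1) (2 * n + 1) hi1 le_rfl
  have hy' : 4 * n ≤ sc (P (i + 1)) := by omega
  have hD : Drop S lev sc (P (i + 1)) := by
    refine ⟨⟨P i, hPS i (by omega), by rw [hPl i (by omega), hPl _ hi1], hsub i _ (by omega) hi1,
      by rw [hPd i (by omega), hPd _ hi1], hdrop⟩, fun A hA hsubA => ?_⟩
    have := hlev A hA (hsubA (hP _ hi1).2.1)
    rw [hPl _ hi1]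
    omega
  have c1 := h2 _ (hPS _ hi1) (hP _ hi1).2.1 (hPl _ hi1)
  unfold al2 at c1
  rw [if_pos hD] at c1
  have c2 : (4 : ℝ) ^ n ≤ (3 / 2) ^ sc (P (i + 1)) := by
    calc (4 : ℝ) ^ n ≤ ((3 / 2) ^ 4) ^ n := pow_le_pow_left₀ (by norm_num) (by norm_num) n
      _ = (3 / 2) ^ (4 * n) := by rw [pow_mul]
      _ ≤ _ := pow_le_pow_right₀ (by norm_num) hy'
  linarith

lemma sum_odd_half (N : ℕ) :
    ∑ n ∈ range N, (2 * n + 1 : ℝ) * (1 / 2) ^ n + (4 * N + 6) * (1 / 2) ^ N = 6 := by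
  induction N with
  | zero => simp
  | succ N ih =>
    rw [sum_range_succ, pow_succ]
    push_cast
    linarith

lemma path_ineq {S : Finset (Finset X)} (hS : Lam S) {lev : Finset X → ℤ} {av ρ : Finset X → ℝ}
    {sc : Finset X → ℕ} (hsc : ∀ Q ∈ S, 2 ^ sc Q ≤ ρ Q ∧ ρ Q < 2 ^ (sc Q + 1))
    (hlv : ∀ Q ∈ S, 2 ^ lev Q ≤ av Q ∧ av Q < 2 ^ (lev Q + 1)) (x : X) :
    (∑ Q ∈ S.filter (fun Q => x ∈ Q), av Q) ^ 2 ≤
      576 * ∑ Q ∈ S.filter (fun Q => x ∈ Q), (al1 S lev ρ Q + al2 S lev sc Q) * av Q ^ 2 := by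
  have hρ : ∀ Q ∈ S, 0 < ρ Q := fun Q hQ => lt_of_lt_of_le (by positivity) (hsc Q hQ).1
  have hav : ∀ Q ∈ S, 0 < av Q := fun Q hQ => lt_of_lt_of_le (by positivity) (hlv Q hQ).1
  set C := S.filter (fun Q => x ∈ Q) with hC
  set M2 := ∑ Q ∈ C, (al1 S lev ρ Q + al2 S lev sc Q) * av Q ^ 2 with hM2
  have hterm : ∀ Q ∈ C, 0 < (al1 S lev ρ Q + al2 S lev sc Q) * av Q ^ 2 := by
    intro Q hQ
    have h1 := one_le_al1 (lev := lev) hρ (mem_filter.1 hQ).1
    have h2 := al2_nonneg S lev sc Q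
    have h3 := hav Q (mem_filter.1 hQ).1
    positivity
  rcases C.eq_empty_or_nonempty with he | hne
  · rw [hM2, he]; simp
  have hM2pos : 0 < M2 := sum_pos hterm hne
  set M := √M2 with hM
  have hMpos : 0 < M := Real.sqrt_pos.2 hM2pos
  have hMM : M ^ 2 = M2 := Real.sq_sqrt hM2pos.le
  set m : ℤ := Int.log 2 M + 1 with hm
  have hm1 : M < 2 ^ m := by exact_mod_cast Int.lt_zpow_succ_log_self (b := 2) (by norm_num) M
  have hm2 : (2 : ℝ) ^ m ≤ 2 * M := by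
    have : (2 : ℝ) ^ Int.log 2 M ≤ M := by
      exact_mod_cast Int.zpow_log_le_self (b := 2) (by norm_num) hMpos
    rw [hm, zpow_add₀ (by norm_num), zpow_one]
    linarith
  have hle : ∀ Q ∈ C, (al1 S lev ρ Q + al2 S lev sc Q) * (2 ^ lev Q) ^ 2 < (2 ^ m) ^ 2 := by
    intro Q hQ
    have h1 := one_le_al1 (lev := lev) hρ (mem_filter.1 hQ).1
    have h2 := al2_nonneg S lev sc Q
    calc _ ≤ (al1 S lev ρ Q + al2 S lev sc Q) * av Q ^ 2 :=
          mul_le_mul_of_nonneg_left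
            (pow_le_pow_left₀ (by positivity) (hlv Q (mem_filter.1 hQ).1).1 2) (by positivity)
      _ ≤ M2 := single_le_sum (fun Q hQ => (hterm Q hQ).le) hQ
      _ = M ^ 2 := hMM.symm
      _ < _ := pow_lt_pow_left₀ hm1 hMpos.le (by norm_num)
  have hlt : ∀ Q ∈ C, lev Q < m := by
    intro Q hQ
    have h1 := one_le_al1 (lev := lev) hρ (mem_filter.1 hQ).1
    have h2 := al2_nonneg S lev sc Q
    have h3 := hle Q hQ
    have h4 : (0 : ℝ) < (2 ^ lev Q) ^ 2 := by positivity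
    have h5 : ((2 : ℝ) ^ lev Q) ^ 2 < (2 ^ m) ^ 2 := by nlinarith
    have h6 := lt_of_pow_lt_pow_left₀ 2 (by positivity) h5
    exact (zpow_lt_zpow_iff_right₀ (by norm_num : (1 : ℝ) < 2)).1 h6
  have hcount : ∀ n : ℕ, (C.filter (fun Q => (m - lev Q).toNat = n)).card ≤ 2 * n + 1 := by
    intro n
    have hb : ∀ Q ∈ S, x ∈ Q → lev Q = m - n → al1 S lev ρ Q + al2 S lev sc Q < 4 ^ n := by
      intro Q hQ hx hl
      have h3 := hle Q (mem_filter.2 ⟨hQ, hx⟩)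
      have h4 : ((2 : ℝ) ^ m) ^ 2 = 4 ^ n * (2 ^ lev Q) ^ 2 := by
        rw [hl, zpow_sub₀ (by norm_num), zpow_natCast, div_pow, ← pow_mul, mul_comm n 2, pow_mul]
        field_simp
        norm_num
      rw [h4] at h3
      exact lt_of_mul_lt_mul_right h3 (by positivity)
    refine le_trans (card_le_card ?_) (count_level (lev := lev) hS hsc x (m - n) n (fun Q hQ hx => ?_)
      (fun Q hQ hx hl => ?_) (fun Q hQ hx hl => ?_))
    · intro Q hQ
      obtain ⟨hQ1, hQ2⟩ := mem_filter.1 hQ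
      have := hlt Q hQ1
      exact mem_filter.2 ⟨mem_filter.2 ⟨(mem_filter.1 hQ1).1, by omega⟩, (mem_filter.1 hQ1).2⟩
    · have := hlt Q (mem_filter.2 ⟨hQ, hx⟩)
      omega
    · have := hb Q hQ hx hl
      have := al2_nonneg S lev sc Q
      linarith
    · have := hb Q hQ hx hl
      have := one_le_al1 (lev := lev) hρ hQ
      linarith
  obtain ⟨N, hN⟩ := (C.image (fun Q => (m - lev Q).toNat)).exists_nat_subset_range
  have hsum : ∑ Q ∈ C, av Q ≤ 24 * M := by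
    rw [← sum_fiberwise_of_maps_to (g := fun Q => (m - lev Q).toNat) (t := range N)
      (fun Q hQ => hN (mem_image_of_mem _ hQ))]
    have h6 := sum_odd_half N
    have h7 : (0 : ℝ) ≤ (4 * N + 6) * (1 / 2) ^ N := by positivity
    calc _ ≤ ∑ n ∈ range N, (2 * n + 1 : ℝ) * (1 / 2) ^ n * (4 * M) := by
          apply sum_le_sum
          intro n _
          have hb : ∀ Q ∈ C.filter (fun Q => (m - lev Q).toNat = n),
              av Q ≤ (1 / 2) ^ n * (4 * M) := by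
            intro Q hQ
            obtain ⟨hQ1, hQ2⟩ := mem_filter.1 hQ
            have := hlt Q hQ1
            have h1 : lev Q + 1 = m + 1 - n := by omega
            have h2 := (hlv Q (mem_filter.1 hQ1).1).2
            rw [h1, zpow_sub₀ (by norm_num), zpow_natCast, zpow_add₀ (by norm_num), zpow_one] at h2
            rw [one_div, inv_pow, ← div_eq_inv_mul]
            exact h2.le.trans (div_le_div_of_nonneg_right (by linarith) (by positivity))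
          refine (sum_le_card_nsmul _ _ _ hb).trans ?_
          rw [nsmul_eq_mul, mul_assoc]
          refine mul_le_mul_of_nonneg_right ?_ (by positivity)
          exact_mod_cast hcount n
      _ ≤ _ := by
          rw [← sum_mul]
          nlinarith
  calc _ ≤ (24 * M) ^ 2 :=
        pow_le_pow_left₀ (sum_nonneg (fun Q hQ => (hav Q (mem_filter.1 hQ).1).le)) hsum 2
    _ = _ := by rw [mul_pow, hMM]; norm_num

end Pool.Agent.MP_93f72d_an

end

-- part MP_93f72d_an.Test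
section

/-!
The testing condition for a sparse laminar family under one separated bump.
-/

namespace Pool.Agent.MP_93f72d_an

open Finset

open scoped Classical

variable {X : Type}

lemma sum_mem_comm (S : Finset (Finset X)) {R : Finset X} (hR : ∀ Q ∈ S, Q ⊆ R)
    (c : Finset X → ℝ) (m : X → ℝ) :
    ∑ x ∈ R, (∑ Q ∈ S.filter (fun Q => x ∈ Q), c Q) * m x = ∑ Q ∈ S, c Q * ms m Q := by
  simp_rw [sum_mul]
  rw [sum_comm' (t' := S) (s' := fun Q => Q) (by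
    intro x Q
    simp only [mem_filter]
    constructor
    · rintro ⟨-, h2, h3⟩; exact ⟨h3, h2⟩
    · rintro ⟨h1, h2⟩; exact ⟨hR Q h2 h1, h2, h1⟩)]
  simp_rw [ms, mul_sum]

lemma cost_al1 {S : Finset (Finset X)} (hS : Lam S) {μ : X → ℝ} (hμ : ∀ x, 0 ≤ μ x)
    (hsp : Sparse μ (1 / 128) S) {lev : Finset X → ℤ} {av ρ : Finset X → ℝ}
    (hρ : ∀ Q ∈ S, 0 < ρ Q) (hlv : ∀ Q ∈ S, 2 ^ lev Q ≤ av Q ∧ av Q < 2 ^ (lev Q + 1)) :
    ∑ Q ∈ S, al1 S lev ρ Q * (av Q * ms μ Q / ρ Q) ≤ 4 * ∑ P ∈ S, av P * ms μ P / ρ P := by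
  unfold al1
  simp_rw [sum_mul]
  rw [sum_comm' (t' := S) (s' := fun P => (cls S lev (lev P)).filter (fun Q => Q ⊆ P)) (by
    intro Q P
    simp only [cls, mem_filter]
    constructor
    · rintro ⟨h1, ⟨h2, h3⟩, h4⟩; exact ⟨⟨⟨h1, h3.symm⟩, h4⟩, h2⟩
    · rintro ⟨⟨⟨h1, h3⟩, h4⟩, h2⟩; exact ⟨h1, ⟨h2, h3.symm⟩, h4⟩), mul_sum]
  apply sum_le_sum
  intro P hP
  have hPc : P ∈ cls S lev (lev P) := mem_filter.2 ⟨hP, rfl⟩
  have h1 := pack_exp hμ (hS.mono (filter_subset _ _)) (η := 1 / 128) (β := 64) (by norm_num)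
    (by norm_num) (by norm_num) (hsp.mono hμ (filter_subset _ _)) hPc
  have hρP := hρ P hP
  have havP : 0 < av P := lt_of_lt_of_le (by positivity) (hlv P hP).1
  calc _ ≤ ∑ Q ∈ (cls S lev (lev P)).filter (fun Q => Q ⊆ P),
        (2 * av P / ρ P) * (64 ^ (dep (cls S lev (lev P)) Q - dep (cls S lev (lev P)) P) *
          ms μ Q) := by
        apply sum_le_sum
        intro Q hQ
        obtain ⟨hQS, hQl⟩ := mem_filter.1 (mem_filter.1 hQ).1
        have hρQ := hρ Q hQS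
        have h2 : av Q ≤ 2 * av P := by
          have a1 := (hlv Q hQS).2
          have a2 := (hlv P hP).1
          rw [hQl, zpow_add₀ (by norm_num), zpow_one] at a1
          linarith
        have h3 := ms_nonneg hμ Q
        unfold dl
        rw [hQl]
        calc _ = (av Q / ρ P) * (64 ^ (dep (cls S lev (lev P)) Q - dep (cls S lev (lev P)) P) *
            ms μ Q) := by field_simp
          _ ≤ _ := mul_le_mul_of_nonneg_right (div_le_div_of_nonneg_right h2 hρP.le)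
            (by positivity)
    _ ≤ (2 * av P / ρ P) * (2 * ms μ P) := by
        rw [← mul_sum]
        exact mul_le_mul_of_nonneg_left h1 (by positivity)
    _ = _ := by ring

lemma drop_sparse {S : Finset (Finset X)} (hS : Lam S) {w : X → ℝ} (hw : ∀ x, 0 ≤ w x)
    {lev : Finset X → ℤ} {ρ : Finset X → ℝ} {sc : Finset X → ℕ}
    (hsc : ∀ Q ∈ S, 2 ^ sc Q ≤ ρ Q ∧ ρ Q < 2 ^ (sc Q + 1))
    (H2 : ∀ Q ∈ S, ∀ A ⊆ S, (A : Set (Finset X)).PairwiseDisjoint id → (∀ Z ∈ A, Z ⊆ Q) →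
      ∑ Z ∈ A, ρ Z * ms w Z ≤ 8 * (ρ Q * ms w Q)) (y : ℕ) (r : ℤ) :
    Sparse w (1 / 2)
      (S.filter (fun Q => Drop S lev sc Q ∧ sc Q = y ∧ lev Q % (y + 1) = r)) := by
  intro Q hQ
  obtain ⟨hQS, hQD, hQy, hQr⟩ := mem_filter.1 hQ
  set Hi := S.filter (fun P => P ⊆ Q ∧ y + 5 ≤ sc P) with hHi
  have hHiL : Lam Hi := hS.mono (filter_subset _ _)
  set A := Hi.filter (fun P => dep Hi P = 0) with hA
  have hAd : (A : Set (Finset X)).PairwiseDisjoint id :=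
    hHiL.disjoint_of_dep (filter_subset _ _) (fun P hP => (mem_filter.1 hP).2)
  have hsub : und (S.filter (fun Q => Drop S lev sc Q ∧ sc Q = y ∧ lev Q % (y + 1) = r)) Q ⊆
      A.biUnion id := by
    intro x hx
    obtain ⟨Z, hZ, hZQ, hxZ⟩ := mem_und.1 hx
    obtain ⟨hZS, hZD, hZy, hZr⟩ := mem_filter.1 hZ
    obtain ⟨P, hPS, hPl, hZP, hPd, hPs⟩ := hZD.1
    have hPQ : P ⊆ Q := by
      have e1 := hZD.2 Q hQS hZQ.subset
      by_cases hl : lev Q = lev Z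
      · have hQc : Q ∈ cls S lev (lev Z) := mem_filter.2 ⟨hQS, hl⟩
        have hPc : P ∈ cls S lev (lev Z) := mem_filter.2 ⟨hPS, hPl⟩
        have e2 := dep_lt hQc hZQ
        unfold dl at hPd
        rw [hPl] at hPd
        have hLc : Lam (cls S lev (lev Z)) := hS.mono (filter_subset _ _)
        exact hLc.subset_of_dep_le hQc hPc (hZQ.subset hxZ) (hZP hxZ) (by omega)
      · rcases hS.comp hPS hQS (hZP hxZ) (hZQ.subset hxZ) with h | h
        · exact h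
        · exfalso
          have e2 := hQD.2 P hPS h
          have e3 : ((y : ℤ) + 1) ∣ lev Z - lev Q :=
            Int.dvd_of_emod_eq_zero (Int.emod_eq_emod_iff_emod_sub_eq_zero.1 (by rw [hZr, hQr]))
          have e4 := Int.eq_zero_of_abs_lt_dvd e3 (by rw [abs_lt]; omega)
          omega
    have hPH : P ∈ Hi := mem_filter.2 ⟨hPS, hPQ, by omega⟩
    obtain ⟨P', hP', hPP', hd⟩ := hHiL.exists_anc hPH (Nat.zero_le _)
    exact mem_biUnion.2 ⟨P', mem_filter.2 ⟨hP', hd⟩, hPP' (hZP hxZ)⟩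
  refine (ms_mono hw hsub).trans ?_
  rw [ms_biUnion w hAd]
  have h1 := H2 Q hQS A ((filter_subset _ _).trans (filter_subset _ _)) hAd
    (fun Z hZ => (mem_filter.1 (mem_filter.1 hZ).1).2.1)
  have h2 : (2 : ℝ) ^ (y + 5) * ∑ Z ∈ A, ms w Z ≤ ∑ Z ∈ A, ρ Z * ms w Z := by
    rw [mul_sum]
    apply sum_le_sum
    intro Z hZ
    obtain ⟨hZS, -, hZs⟩ := mem_filter.1 (mem_filter.1 hZ).1
    exact mul_le_mul_of_nonneg_right
      ((pow_le_pow_right₀ (by norm_num) hZs).trans (hsc Z hZS).1) (ms_nonneg hw Z)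
  have h3 : ρ Q * ms w Q ≤ 2 ^ (y + 1) * ms w Q := by
    have := (hsc Q hQS).2.le
    rw [hQy] at this
    exact mul_le_mul_of_nonneg_right this (ms_nonneg hw Q)
  have h4 : (0 : ℝ) < 2 ^ (y + 5) := by positivity
  apply le_of_mul_le_mul_left _ h4
  have h5 : (2 : ℝ) ^ (y + 5) = 16 * 2 ^ (y + 1) := by ring
  rw [h5] at h2 ⊢
  linarith

lemma sum_succ_three_four (N : ℕ) :
    ∑ n ∈ range N, (n + 1 : ℝ) * (3 / 4) ^ n + (4 * N + 16) * (3 / 4) ^ N = 16 := by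
  induction N with
  | zero => simp
  | succ N ih =>
    rw [sum_range_succ, pow_succ]
    push_cast
    linarith

lemma cost_al2 {S : Finset (Finset X)} (hS : Lam S) {w : X → ℝ} (hw : ∀ x, 0 ≤ w x)
    {lev : Finset X → ℤ} {ρ : Finset X → ℝ} {sc : Finset X → ℕ}
    (hsc : ∀ Q ∈ S, 2 ^ sc Q ≤ ρ Q ∧ ρ Q < 2 ^ (sc Q + 1))
    (H2 : ∀ Q ∈ S, ∀ A ⊆ S, (A : Set (Finset X)).PairwiseDisjoint id → (∀ Z ∈ A, Z ⊆ Q) →
      ∑ Z ∈ A, ρ Z * ms w Z ≤ 8 * (ρ Q * ms w Q)) {R : Finset X} (hR : ∀ Q ∈ S, Q ⊆ R) :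
    ∑ Q ∈ S, al2 S lev sc Q * (ms w Q / ρ Q) ≤ 32 * ms w R := by
  have hwR := ms_nonneg hw R
  have h1 : ∑ Q ∈ S, al2 S lev sc Q * (ms w Q / ρ Q) ≤
      ∑ Q ∈ S.filter (fun Q => Drop S lev sc Q), (3 / 4) ^ sc Q * ms w Q := by
    rw [sum_filter]
    apply sum_le_sum
    intro Q hQ
    unfold al2
    split_ifs
    · have a1 := (hsc Q hQ).1
      have a2 := ms_nonneg hw Q
      calc _ ≤ (3 / 2 : ℝ) ^ sc Q * (ms w Q / 2 ^ sc Q) :=
            mul_le_mul_of_nonneg_left (div_le_div_of_nonneg_left a2 (by positivity) a1)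
              (by positivity)
        _ = _ := by
            rw [show (3 / 4 : ℝ) = 3 / 2 / 2 by norm_num, div_pow (3 / 2 : ℝ)]
            ring
    · simp
  refine h1.trans ?_
  obtain ⟨N, hN⟩ := (S.image sc).exists_nat_subset_range
  rw [← sum_fiberwise_of_maps_to (g := sc) (t := range N)
    (fun Q hQ => hN (mem_image_of_mem _ (mem_filter.1 hQ).1))]
  have h6 := sum_succ_three_four N
  have h7 : (0 : ℝ) ≤ (4 * N + 16) * (3 / 4) ^ N := by positivity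
  calc _ ≤ ∑ y ∈ range N, (y + 1 : ℝ) * (3 / 4) ^ y * (2 * ms w R) := by
        apply sum_le_sum
        intro y _
        rw [sum_congr rfl (g := fun Q => (3 / 4 : ℝ) ^ y * ms w Q)
          (fun Q hQ => by rw [(mem_filter.1 hQ).2]), ← mul_sum, mul_comm (y + 1 : ℝ), mul_assoc]
        refine mul_le_mul_of_nonneg_left ?_ (by positivity)
        rw [← sum_fiberwise_of_maps_to (g := fun Q => (lev Q % (y + 1)).toNat) (t := range (y + 1))
          (fun Q _ => by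
            have := Int.emod_lt_of_pos (lev Q) (show (0 : ℤ) < y + 1 by omega)
            exact mem_range.2 (by omega))]
        refine (sum_le_card_nsmul _ _ (2 * ms w R) (fun r _ => ?_)).trans
          (by rw [card_range, nsmul_eq_mul]; push_cast; exact le_rfl)
        refine le_trans (sum_le_sum_of_subset_of_nonneg ?_ (fun Q _ _ => ms_nonneg hw Q))
          (pack_half hw (hS.mono (filter_subset _ _)) (drop_sparse (lev := lev) hS hw hsc H2 y r)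
            (fun Q hQ => hR Q (mem_filter.1 hQ).1))
        intro Q hQ
        simp only [mem_filter] at hQ ⊢
        have := Int.emod_nonneg (lev Q) (show ((y : ℤ) + 1) ≠ 0 by omega)
        exact ⟨hQ.1.1.1, hQ.1.1.2, hQ.1.2, by omega⟩
    _ ≤ _ := by
        rw [← sum_mul]
        nlinarith

/-- the testing inequality -/
lemma testing {S : Finset (Finset X)} (hS : Lam S) {μ w σ : X → ℝ} (hμ : ∀ x, 0 ≤ μ x)
    (hw : ∀ x, 0 ≤ w x) (hσ : ∀ x, 0 ≤ σ x) (hsp : Sparse μ (1 / 128) S) {R : Finset X}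
    (hR : ∀ Q ∈ S, Q ⊆ R) (hμp : ∀ Q ∈ S, 0 < ms μ Q) (hwp : ∀ Q ∈ S, 0 < ms w Q)
    {lam : Finset X → ℝ} {K C : ℝ} (hK : 0 ≤ K)
    (H1 : ∀ Q ∈ S, ms σ Q * lam Q ≤ K * ms μ Q)
    (H4 : ∀ Q ∈ S, ms w Q / ms μ Q ≤ lam Q)
    (H2 : ∀ Q ∈ S, ∀ A ⊆ S, (A : Set (Finset X)).PairwiseDisjoint id → (∀ Z ∈ A, Z ⊆ Q) →
      ∑ Z ∈ A, lam Z * ms μ Z ≤ 8 * (lam Q * ms μ Q))
    (H3 : ∑ Q ∈ S, ms w Q * (ms w Q / ms μ Q / lam Q) ≤ C * ms w R) :
    ∑ x ∈ R, (∑ Q ∈ S.filter (fun Q => x ∈ Q), ms w Q / ms μ Q) ^ 2 * σ x ≤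
      576 * K * (4 * C + 32) * ms w R := by
  set av : Finset X → ℝ := fun Q => ms w Q / ms μ Q with hav
  set ρ : Finset X → ℝ := fun Q => lam Q / av Q with hρdef
  have havp : ∀ Q ∈ S, 0 < av Q := fun Q hQ => div_pos (hwp Q hQ) (hμp Q hQ)
  have hlam : ∀ Q ∈ S, 0 < lam Q := fun Q hQ => (havp Q hQ).trans_le (H4 Q hQ)
  have hρ1 : ∀ Q ∈ S, 1 ≤ ρ Q := fun Q hQ => (one_le_div (havp Q hQ)).2 (H4 Q hQ)
  have hρ : ∀ Q ∈ S, 0 < ρ Q := fun Q hQ => one_pos.trans_le (hρ1 Q hQ)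
  set lev : Finset X → ℤ := fun Q => Int.log 2 (av Q) with hlevdef
  set sc : Finset X → ℕ := fun Q => (Int.log 2 (ρ Q)).toNat with hscdef
  have hlv : ∀ Q ∈ S, 2 ^ lev Q ≤ av Q ∧ av Q < 2 ^ (lev Q + 1) := fun Q hQ =>
    ⟨by exact_mod_cast Int.zpow_log_le_self (b := 2) (by norm_num) (havp Q hQ),
      by exact_mod_cast Int.lt_zpow_succ_log_self (b := 2) (by norm_num) (av Q)⟩
  have hsc : ∀ Q ∈ S, 2 ^ sc Q ≤ ρ Q ∧ ρ Q < 2 ^ (sc Q + 1) := by
    intro Q hQ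
    have a1 : (2 : ℝ) ^ Int.log 2 (ρ Q) ≤ ρ Q := by
      exact_mod_cast Int.zpow_log_le_self (b := 2) (by norm_num) (hρ Q hQ)
    have a2 : ρ Q < (2 : ℝ) ^ (Int.log 2 (ρ Q) + 1) := by
      exact_mod_cast Int.lt_zpow_succ_log_self (b := 2) (by norm_num) (ρ Q)
    have a3 : 0 ≤ Int.log 2 (ρ Q) := by
      have := (hρ1 Q hQ).trans_lt a2
      have := (one_lt_zpow_iff_right₀ (by norm_num : (1 : ℝ) < 2)).1 this
      omega
    have a4 : Int.log 2 (ρ Q) = (sc Q : ℤ) := (Int.toNat_of_nonneg a3).symm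
    rw [a4] at a1 a2
    exact ⟨by exact_mod_cast a1, by exact_mod_cast a2⟩
  have hwav : ∀ Q ∈ S, av Q * ms μ Q = ms w Q := fun Q hQ => div_mul_cancel₀ _ (hμp Q hQ).ne'
  have hρw : ∀ Q ∈ S, ρ Q * ms w Q = lam Q * ms μ Q := by
    intro Q hQ
    rw [← hwav Q hQ, ← mul_assoc, div_mul_cancel₀ _ (havp Q hQ).ne']
  have c1 := cost_al1 hS hμ hsp hρ hlv
  have c2 := cost_al2 (lev := lev) hS hw hsc (fun Q hQ A hA hd hsub => by
    rw [hρw Q hQ, sum_congr rfl (fun Z hZ => hρw Z (hA hZ))]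
    exact H2 Q hQ A hA hd hsub) hR
  have c3 : ∑ P ∈ S, av P * ms μ P / ρ P ≤ C * ms w R := by
    refine le_of_eq_of_le (sum_congr rfl (fun Q hQ => ?_)) H3
    rw [hwav Q hQ]
    change ms w Q / (lam Q / av Q) = ms w Q * (av Q / lam Q)
    rw [div_div_eq_mul_div, mul_div_assoc]
  calc _ ≤ ∑ x ∈ R, 576 * ((∑ Q ∈ S.filter (fun Q => x ∈ Q),
          (al1 S lev ρ Q + al2 S lev sc Q) * av Q ^ 2) * σ x) := by
        apply sum_le_sum
        intro x _
        rw [← mul_assoc]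
        exact mul_le_mul_of_nonneg_right (path_ineq hS hsc hlv x) (hσ x)
    _ = 576 * ∑ Q ∈ S, (al1 S lev ρ Q + al2 S lev sc Q) * av Q ^ 2 * ms σ Q := by
        rw [← mul_sum, sum_mem_comm S hR]
    _ ≤ 576 * ∑ Q ∈ S, K * (al1 S lev ρ Q * (av Q * ms μ Q / ρ Q) +
          al2 S lev sc Q * (ms w Q / ρ Q)) := by
        refine mul_le_mul_of_nonneg_left (sum_le_sum (fun Q hQ => ?_)) (by norm_num)
        have a1 := one_le_al1 (lev := lev) hρ hQ
        have a2 := al2_nonneg S lev sc Q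
        have a3 := hlam Q hQ
        have a4 := havp Q hQ
        have a5 : ms σ Q ≤ K * ms μ Q / lam Q := (le_div_iff₀ a3).2 (H1 Q hQ)
        calc _ ≤ (al1 S lev ρ Q + al2 S lev sc Q) * av Q ^ 2 * (K * ms μ Q / lam Q) :=
              mul_le_mul_of_nonneg_left a5 (by positivity)
          _ = _ := by
              rw [← hwav Q hQ]
              change _ = K * (_ * (av Q * ms μ Q / (lam Q / av Q)) +
                _ * (av Q * ms μ Q / (lam Q / av Q)))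
              field_simp
    _ ≤ 576 * (K * (4 * (C * ms w R) + 32 * ms w R)) := by
        rw [← mul_sum, sum_add_distrib]
        refine mul_le_mul_of_nonneg_left (mul_le_mul_of_nonneg_left ?_ hK) (by norm_num)
        linarith
    _ = _ := by ring

end Pool.Agent.MP_93f72d_an

end

-- part MP_93f72d_an.LSU
section

/-!
Two testing conditions imply the bilinear bound for a positive laminar operator.
-/

namespace Pool.Agent.MP_93f72d_an

open Finset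

open scoped Classical

variable {X : Type}

lemma carleson_emb {P : Finset (Finset X)} (hP : Lam P) {w f : X → ℝ} (hw : ∀ x, 0 ≤ w x)
    {a : Finset X → ℝ} (ha : ∀ F ∈ P, a F * ms w F = ms (fun x => f x * w x) F)
    {lv : Finset X → ℤ} (hlv : ∀ F ∈ P, 2 ^ lv F ≤ a F ∧ a F < 2 ^ (lv F + 1))
    (hinc : ∀ F ∈ P, ∀ F' ∈ P, F ⊂ F' → lv F' < lv F) {U : Finset X} (hU : ∀ F ∈ P, F ⊆ U) :
    ∑ F ∈ P, a F ^ 2 * ms w F ≤ 16 * ∑ x ∈ U, f x ^ 2 * w x := by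
  have hap : ∀ F ∈ P, 0 < a F := fun F hF => lt_of_lt_of_le (by positivity) (hlv F hF).1
  have hs : ∀ x, (∑ F ∈ P.filter (fun F => x ∈ F), a F) ^ 2 ≤
      16 * ∑ F ∈ P.filter (fun F => x ∈ F), a F ^ 2 := by
    intro x
    rcases (P.filter (fun F => x ∈ F)).eq_empty_or_nonempty with he | hne
    · rw [he]; simp
    obtain ⟨G, hG, hmax⟩ := exists_max_image _ lv hne
    have h1 := sum_zpow_le (P.filter (fun F => x ∈ F)) lv (lv G) hmax (by
      intro A hA B hB hAB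
      obtain ⟨hA1, hA2⟩ := mem_filter.1 hA
      obtain ⟨hB1, hB2⟩ := mem_filter.1 hB
      by_contra hne
      rcases hP.comp hA1 hB1 hA2 hB2 with h | h
      · have := hinc A hA1 B hB1 (ssubset_of_subset_of_ne h hne); omega
      · have := hinc B hB1 A hA1 (ssubset_of_subset_of_ne h (Ne.symm hne)); omega)
    have h2 : ∑ F ∈ P.filter (fun F => x ∈ F), a F ≤
        ∑ F ∈ P.filter (fun F => x ∈ F), 2 * (2 : ℝ) ^ lv F := by
      apply sum_le_sum
      intro F hF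
      have := (hlv F (mem_filter.1 hF).1).2
      rw [zpow_add₀ (by norm_num), zpow_one] at this
      linarith
    rw [← mul_sum] at h2
    have h3 := (hlv G (mem_filter.1 hG).1).1
    have h4 : a G ^ 2 ≤ ∑ F ∈ P.filter (fun F => x ∈ F), a F ^ 2 :=
      single_le_sum (f := fun F => a F ^ 2) (fun F _ => sq_nonneg _) hG
    calc _ ≤ (4 * a G) ^ 2 := pow_le_pow_left₀
          (sum_nonneg (fun F hF => (hap F (mem_filter.1 hF).1).le)) (by linarith) 2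
      _ ≤ _ := by rw [mul_pow]; linarith
  have e1 : ∑ F ∈ P, a F ^ 2 * ms w F =
      ∑ x ∈ U, (∑ F ∈ P.filter (fun F => x ∈ F), a F) * (f x * w x) := by
    rw [sum_mem_comm P hU]
    refine sum_congr rfl (fun F hF => ?_)
    rw [← ha F hF]; ring
  have e2 := sum_mem_comm P hU (fun F => a F ^ 2) w
  have e3 : ∑ x ∈ U, (∑ F ∈ P.filter (fun F => x ∈ F), a F) * (f x * w x) ≤
      ∑ x ∈ U, (1 / 2 * ((∑ F ∈ P.filter (fun F => x ∈ F), a F ^ 2) * w x) +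
        8 * (f x ^ 2 * w x)) := by
    apply sum_le_sum
    intro x _
    have h1 := hs x
    generalize (∑ F ∈ P.filter (fun F => x ∈ F), a F) = s at h1 ⊢
    generalize (∑ F ∈ P.filter (fun F => x ∈ F), a F ^ 2) = q at h1 ⊢
    have h2 : s * f x ≤ 1 / 2 * q + 8 * f x ^ 2 := by nlinarith [sq_nonneg (s - 16 * f x)]
    have := mul_le_mul_of_nonneg_right h2 (hw x)
    linarith
  rw [sum_add_distrib, ← mul_sum, ← mul_sum, e2, ← e1] at e3
  linarith

/-- the strict descendants are covered by the children -/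
lemma und_eq_children {P : Finset (Finset X)} (hP : Lam P) {F : Finset X} (hF : F ∈ P) :
    und P F = (P.filter (fun G => G ⊆ F ∧ dep P G = dep P F + 1)).biUnion id := by
  ext x
  rw [mem_und, mem_biUnion]
  constructor
  · rintro ⟨Z, hZ, hZF, hx⟩
    obtain ⟨G, hG, hZG, hd⟩ := hP.exists_anc hZ (t := dep P F + 1) (dep_lt hF hZF)
    exact ⟨G, mem_filter.2 ⟨hG, hP.subset_of_dep_le hF hG (hZF.subset hx) (hZG hx) (by omega),
      hd⟩, hZG hx⟩
  · rintro ⟨G, hG, hx⟩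
    obtain ⟨hG1, hG2, hG3⟩ := mem_filter.1 hG
    exact ⟨G, hG1, ssubset_of_subset_of_ne hG2 (fun he => by rw [he] at hG3; omega), hx⟩

lemma sum_children_le {P : Finset (Finset X)} (hP : Lam P) (h : Finset X → ℝ)
    (h0 : ∀ G ∈ P, 0 ≤ h G) :
    ∑ F ∈ P, ∑ G ∈ P.filter (fun G => G ⊆ F ∧ dep P G = dep P F + 1), h G ≤ ∑ G ∈ P, h G := by
  rw [sum_comm' (t' := P) (s' := fun G => P.filter (fun F => G ⊆ F ∧ dep P G = dep P F + 1)) (by
    intro F G
    simp only [mem_filter]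
    tauto)]
  apply sum_le_sum
  intro G hG
  rw [sum_const, nsmul_eq_mul]
  have : (P.filter (fun F => G ⊆ F ∧ dep P G = dep P F + 1)).card ≤ 1 := by
    rw [card_le_one]
    intro A hA B hB
    obtain ⟨hA1, hA2, hA3⟩ := mem_filter.1 hA
    obtain ⟨hB1, hB2, hB3⟩ := mem_filter.1 hB
    obtain ⟨x, hx⟩ := hP.1 G hG
    exact hP.eq_of_dep_eq hA1 hB1 (hA2 hx) (hB2 hx) (by omega)
  have h1 : ((P.filter (fun F => G ⊆ F ∧ dep P G = dep P F + 1)).card : ℝ) ≤ 1 := by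
    exact_mod_cast this
  nlinarith [h0 G hG]

/-- one half of the bilinear estimate -/
lemma lsu_half {S : Finset (Finset X)} (hS : Lam S) {w σ f g : X → ℝ} (hw : ∀ x, 0 ≤ w x)
    (hσ : ∀ x, 0 ≤ σ x) (hg : ∀ x, 0 ≤ g x) {τ : Finset X → ℝ} (hτ : ∀ Q ∈ S, 0 ≤ τ Q)
    (hwp : ∀ Q ∈ S, 0 < ms w Q) (hσp : ∀ Q ∈ S, 0 < ms σ Q)
    (hfp : ∀ Q ∈ S, 0 < ms (fun x => f x * w x) Q)
    (hcmp : ∀ Q ∈ S, ms (fun x => g x * σ x) Q ^ 2 / ms σ Q ≤
      ms (fun x => f x * w x) Q ^ 2 / ms w Q) {T : ℝ} (hT : 0 ≤ T)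
    (htest : ∀ R ∈ S, ∑ x ∈ R, (∑ Q ∈ (S.filter (fun Q => Q ⊆ R)).filter (fun Q => x ∈ Q),
      τ Q * ms w Q) ^ 2 * σ x ≤ T * ms w R) {U : Finset X} (hU : ∀ Q ∈ S, Q ⊆ U) :
    ∑ Q ∈ S, τ Q * ms (fun x => f x * w x) Q * ms (fun x => g x * σ x) Q ≤
      16 * (T + 1) * ∑ x ∈ U, f x ^ 2 * w x + ∑ x ∈ U, g x ^ 2 * σ x := by
  set a : Finset X → ℝ := fun Q => ms (fun x => f x * w x) Q / ms w Q with hadef
  have hap : ∀ Q ∈ S, 0 < a Q := fun Q hQ => div_pos (hfp Q hQ) (hwp Q hQ)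
  have ha : ∀ Q ∈ S, a Q * ms w Q = ms (fun x => f x * w x) Q := fun Q hQ =>
    div_mul_cancel₀ _ (hwp Q hQ).ne'
  set lv : Finset X → ℤ := fun Q => Int.log 2 (a Q) with hlvdef
  have hlv : ∀ Q ∈ S, 2 ^ lv Q ≤ a Q ∧ a Q < 2 ^ (lv Q + 1) := fun Q hQ =>
    ⟨by exact_mod_cast Int.zpow_log_le_self (b := 2) (by norm_num) (hap Q hQ),
      by exact_mod_cast Int.lt_zpow_succ_log_self (b := 2) (by norm_num) (a Q)⟩
  set P := S.filter (fun F => ∀ A ∈ S, F ⊂ A → lv A < lv F) with hPdef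
  have hPS : P ⊆ S := filter_subset _ _
  have hP : Lam P := hS.mono hPS
  have hinc : ∀ F ∈ P, ∀ F' ∈ P, F ⊂ F' → lv F' < lv F := fun F hF F' hF' h =>
    (mem_filter.1 hF).2 F' (hPS hF') h
  have hemb := carleson_emb hP hw (fun F hF => ha F (hPS hF)) (fun F hF => hlv F (hPS hF)) hinc
    (fun F hF => hU F (hPS hF))
  have hπ : ∀ Q, ∃ F, Q ∈ S → F ∈ P ∧ Q ⊆ F ∧ lv Q ≤ lv F ∧
      ∀ G ∈ P, Q ⊆ G → dep P G ≤ dep P F := by
    intro Q
    by_cases hQ : Q ∈ S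
    swap
    · exact ⟨∅, fun h => absurd h hQ⟩
    obtain ⟨x, hx⟩ := hS.1 Q hQ
    obtain ⟨G1, hG1, hmax1⟩ := exists_max_image (S.filter (fun A => Q ⊆ A)) lv
      ⟨Q, mem_filter.2 ⟨hQ, Subset.refl _⟩⟩
    obtain ⟨G, hG, hmin⟩ := exists_min_image
      ((S.filter (fun A => Q ⊆ A)).filter (fun A => lv A = lv G1)) (dep S)
      ⟨G1, mem_filter.2 ⟨hG1, rfl⟩⟩
    obtain ⟨hG2, hG3⟩ := mem_filter.1 hG
    obtain ⟨hGS, hQG⟩ := mem_filter.1 hG2
    have hGP : G ∈ P := by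
      refine mem_filter.2 ⟨hGS, fun A hA hGA => ?_⟩
      have hA' : A ∈ S.filter (fun A => Q ⊆ A) := mem_filter.2 ⟨hA, hQG.trans hGA.subset⟩
      have b1 := hmax1 A hA'
      have b2 := dep_lt hA hGA
      by_contra hc
      have := hmin A (mem_filter.2 ⟨hA', by omega⟩)
      omega
    obtain ⟨F, hF, hmax⟩ := exists_max_image (P.filter (fun A => Q ⊆ A)) (dep P)
      ⟨G, mem_filter.2 ⟨hGP, hQG⟩⟩
    obtain ⟨hFP, hQF⟩ := mem_filter.1 hF
    refine ⟨F, fun _ => ⟨hFP, hQF, ?_, fun G' hG' hQG' => hmax G' (mem_filter.2 ⟨hG', hQG'⟩)⟩⟩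
    have b1 := hmax1 Q (mem_filter.2 ⟨hQ, Subset.refl _⟩)
    have b2 := hP.subset_of_dep_le hGP hFP (hQG hx) (hQF hx) (hmax G (mem_filter.2 ⟨hGP, hQG⟩))
    rcases eq_or_ssubset_of_subset b2 with h | h
    · rw [h]; omega
    · have := hinc F hFP G hGP h; omega
  choose π hπ using hπ
  rw [← sum_fiberwise_of_maps_to (g := π) (t := P) (fun Q hQ => (hπ Q hQ).1)]
  have hgσ : ∀ Q, 0 ≤ ms (fun x => g x * σ x) Q :=
    ms_nonneg (fun x => mul_nonneg (hg x) (hσ x))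
  have hF : ∀ F ∈ P, ∑ Q ∈ S.filter (fun Q => π Q = F),
      τ Q * ms (fun x => f x * w x) Q * ms (fun x => g x * σ x) Q ≤
      T * (a F ^ 2 * ms w F) + ms (fun x => g x ^ 2 * σ x) (F \ und P F) +
        ∑ G ∈ P.filter (fun G => G ⊆ F ∧ dep P G = dep P F + 1), a G ^ 2 * ms w G := by
    intro F hF
    have hsub : ∀ Q ∈ S.filter (fun Q => π Q = F), Q ⊆ F := fun Q hQ => by
      rw [← (mem_filter.1 hQ).2]; exact (hπ Q (mem_filter.1 hQ).1).2.1
    set t : X → ℝ := fun x => ∑ Q ∈ (S.filter (fun Q => π Q = F)).filter (fun Q => x ∈ Q),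
      τ Q * ms w Q with ht
    have haF := hap F (hPS hF)
    have c1 : ∑ Q ∈ S.filter (fun Q => π Q = F),
        τ Q * ms (fun x => f x * w x) Q * ms (fun x => g x * σ x) Q ≤
        2 * a F * ∑ x ∈ F, t x * (g x * σ x) := by
      rw [sum_mem_comm _ hsub, mul_sum]
      apply sum_le_sum
      intro Q hQ
      obtain ⟨hQS, hQF⟩ := mem_filter.1 hQ
      have d1 : a Q ≤ 2 * a F := by
        have e1 := (hlv Q hQS).2
        have e2 := (hlv F (hPS hF)).1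
        have e3 : (2 : ℝ) ^ lv Q ≤ 2 ^ lv F :=
          zpow_le_zpow_right₀ (by norm_num) (hQF ▸ (hπ Q hQS).2.2.1)
        rw [zpow_add₀ (by norm_num), zpow_one] at e1
        linarith
      rw [← ha Q hQS]
      have d2 : 0 ≤ τ Q * ms w Q * ms (fun x => g x * σ x) Q :=
        mul_nonneg (mul_nonneg (hτ Q hQS) (hwp Q hQS).le) (hgσ Q)
      have := mul_le_mul_of_nonneg_right d1 d2
      linarith
    have c2 : ∑ x ∈ F, t x ^ 2 * σ x ≤ T * ms w F := by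
      refine le_trans (sum_le_sum (fun x _ => ?_)) (htest F (hPS hF))
      refine mul_le_mul_of_nonneg_right (pow_le_pow_left₀ (sum_nonneg (fun Q hQ => ?_))
        (sum_le_sum_of_subset_of_nonneg (fun Q hQ => ?_) (fun Q hQ _ => ?_)) 2) (hσ x)
      · have := (mem_filter.1 (mem_filter.1 hQ).1).1
        exact mul_nonneg (hτ Q this) (hwp Q this).le
      · exact mem_filter.2 ⟨mem_filter.2 ⟨(mem_filter.1 (mem_filter.1 hQ).1).1,
          hsub Q (mem_filter.1 hQ).1⟩, (mem_filter.1 hQ).2⟩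
      · have := (mem_filter.1 (mem_filter.1 hQ).1).1
        exact mul_nonneg (hτ Q this) (hwp Q this).le
    have hchd : ((P.filter (fun G => G ⊆ F ∧ dep P G = dep P F + 1) : Finset (Finset X)) :
        Set (Finset X)).PairwiseDisjoint id :=
      hP.disjoint_of_dep (filter_subset _ _) (fun G hG => (mem_filter.1 hG).2.2)
    have split : ∀ m : X → ℝ, ∑ x ∈ F, m x = ∑ x ∈ F \ und P F, m x +
        ∑ G ∈ P.filter (fun G => G ⊆ F ∧ dep P G = dep P F + 1), ∑ x ∈ G, m x := by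
      intro m
      rw [← sum_sdiff (und_subset P F)]
      congr 1
      rw [und_eq_children hP hF]
      exact sum_biUnion hchd
    have c3 : 2 * a F * ∑ x ∈ F \ und P F, t x * (g x * σ x) ≤
        a F ^ 2 * ∑ x ∈ F \ und P F, t x ^ 2 * σ x +
          ms (fun x => g x ^ 2 * σ x) (F \ und P F) := by
      unfold ms
      rw [mul_sum, mul_sum, ← sum_add_distrib]
      apply sum_le_sum
      intro x _
      have := mul_nonneg (sq_nonneg (a F * t x - g x)) (hσ x)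
      nlinarith
    have c4 : ∀ G ∈ P.filter (fun G => G ⊆ F ∧ dep P G = dep P F + 1),
        2 * a F * ∑ x ∈ G, t x * (g x * σ x) ≤
          a F ^ 2 * ∑ x ∈ G, t x ^ 2 * σ x + a G ^ 2 * ms w G := by
      intro G hG
      obtain ⟨hGP, hGF, hGd⟩ := mem_filter.1 hG
      obtain ⟨x0, hx0⟩ := hP.1 G hGP
      have hconst : ∀ x ∈ G, t x = t x0 := by
        have key : ∀ x ∈ G, ∀ y ∈ G, ∀ Q ∈ S.filter (fun Q => π Q = F), x ∈ Q → y ∈ Q := by
          intro x hx y hy Q hQ hxQ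
          obtain ⟨hQS, hQF⟩ := mem_filter.1 hQ
          rcases hS.comp hQS (hPS hGP) hxQ hx with h | h
          · have := (hπ Q hQS).2.2.2 G hGP h
            rw [hQF] at this
            omega
          · exact h hy
        intro x hx
        simp only [ht]
        refine sum_congr (filter_congr (fun Q hQ => ?_)) (fun _ _ => rfl)
        exact ⟨key x hx x0 hx0 Q hQ, key x0 hx0 x hx Q hQ⟩
      rw [sum_congr rfl (g := fun x => t x0 * (g x * σ x)) (fun x hx => by rw [hconst x hx]),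
        sum_congr rfl (f := fun x => t x ^ 2 * σ x) (g := fun x => t x0 ^ 2 * σ x)
          (fun x hx => by rw [hconst x hx]), ← mul_sum, ← mul_sum]
      have d1 := hcmp G (hPS hGP)
      have d2 := hσp G (hPS hGP)
      have d3 := hwp G (hPS hGP)
      have d4 : ms (fun x => f x * w x) G ^ 2 / ms w G = a G ^ 2 * ms w G := by
        rw [← ha G (hPS hGP)]; field_simp
      rw [d4] at d1
      change 2 * a F * (t x0 * ms (fun x => g x * σ x) G) ≤ a F ^ 2 * (t x0 ^ 2 * ms σ G) + _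
      generalize ms (fun x => g x * σ x) G = γ at d1 ⊢
      have d5 : 2 * a F * (t x0 * γ) ≤ a F ^ 2 * (t x0 ^ 2 * ms σ G) + γ ^ 2 / ms σ G := by
        have e : γ = γ / ms σ G * ms σ G := (div_mul_cancel₀ _ d2.ne').symm
        have e2 : γ ^ 2 / ms σ G = (γ / ms σ G) ^ 2 * ms σ G := by field_simp
        rw [e2]
        conv_lhs => rw [e]
        have := mul_nonneg (sq_nonneg (a F * t x0 - γ / ms σ G)) d2.le
        nlinarith
      linarith
    have c5 := sum_le_sum c4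
    rw [sum_add_distrib, ← mul_sum, ← mul_sum] at c5
    rw [split] at c1 c2
    have c6 := mul_le_mul_of_nonneg_left c2 (sq_nonneg (a F))
    nlinarith
  refine (sum_le_sum hF).trans ?_
  rw [sum_add_distrib, sum_add_distrib, ← mul_sum]
  have c1 := sum_children_le hP (fun G => a G ^ 2 * ms w G)
    (fun G hG => mul_nonneg (sq_nonneg _) (hwp G (hPS hG)).le)
  have c2 := sum_sdiff_und_le (m := fun x => g x ^ 2 * σ x)
    (fun x => mul_nonneg (sq_nonneg _) (hσ x)) hP (fun F hF => hU F (hPS hF))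
  have c3 := mul_le_mul_of_nonneg_left hemb hT
  change _ ≤ _ + ms (fun x => g x ^ 2 * σ x) U
  nlinarith

lemma testing_mono {S S' : Finset (Finset X)} (hs : S' ⊆ S) {w σ : X → ℝ} (hw : ∀ x, 0 ≤ w x)
    (hσ : ∀ x, 0 ≤ σ x) {τ : Finset X → ℝ} (hτ : ∀ Q ∈ S, 0 ≤ τ Q) {T : ℝ}
    (htest : ∀ R ∈ S, ∑ x ∈ R, (∑ Q ∈ (S.filter (fun Q => Q ⊆ R)).filter (fun Q => x ∈ Q),
      τ Q * ms w Q) ^ 2 * σ x ≤ T * ms w R) :
    ∀ R ∈ S', ∑ x ∈ R, (∑ Q ∈ (S'.filter (fun Q => Q ⊆ R)).filter (fun Q => x ∈ Q),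
      τ Q * ms w Q) ^ 2 * σ x ≤ T * ms w R := by
  intro R hR
  refine le_trans (sum_le_sum (fun x _ => ?_)) (htest R (hs hR))
  refine mul_le_mul_of_nonneg_right (pow_le_pow_left₀ (sum_nonneg (fun Q hQ => ?_))
    (sum_le_sum_of_subset_of_nonneg (fun Q hQ => ?_) (fun Q hQ _ => ?_)) 2) (hσ x)
  · exact mul_nonneg (hτ Q (hs (mem_filter.1 (mem_filter.1 hQ).1).1)) (ms_nonneg hw Q)
  · exact filter_subset_filter _ (filter_subset_filter _ hs) hQ
  · exact mul_nonneg (hτ Q (mem_filter.1 (mem_filter.1 hQ).1).1) (ms_nonneg hw Q)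

/-- the bilinear estimate -/
lemma lsu {S : Finset (Finset X)} (hS : Lam S) {w σ f g : X → ℝ} (hw : ∀ x, 0 ≤ w x)
    (hσ : ∀ x, 0 ≤ σ x) (hf : ∀ x, 0 ≤ f x) (hg : ∀ x, 0 ≤ g x) {τ : Finset X → ℝ}
    (hτ : ∀ Q ∈ S, 0 ≤ τ Q) (hwp : ∀ Q ∈ S, 0 < ms w Q) (hσp : ∀ Q ∈ S, 0 < ms σ Q)
    {T : ℝ} (hT : 0 ≤ T)
    (htest : ∀ R ∈ S, ∑ x ∈ R, (∑ Q ∈ (S.filter (fun Q => Q ⊆ R)).filter (fun Q => x ∈ Q),
      τ Q * ms w Q) ^ 2 * σ x ≤ T * ms w R)
    (htest' : ∀ R ∈ S, ∑ x ∈ R, (∑ Q ∈ (S.filter (fun Q => Q ⊆ R)).filter (fun Q => x ∈ Q),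
      τ Q * ms σ Q) ^ 2 * w x ≤ T * ms σ R) {U : Finset X} (hU : ∀ Q ∈ S, Q ⊆ U) :
    ∑ Q ∈ S, τ Q * ms (fun x => f x * w x) Q * ms (fun x => g x * σ x) Q ≤
      (16 * T + 17) * (∑ x ∈ U, f x ^ 2 * w x + ∑ x ∈ U, g x ^ 2 * σ x) := by
  have hfw : ∀ Q, 0 ≤ ms (fun x => f x * w x) Q := ms_nonneg (fun x => mul_nonneg (hf x) (hw x))
  have hgσ : ∀ Q, 0 ≤ ms (fun x => g x * σ x) Q := ms_nonneg (fun x => mul_nonneg (hg x) (hσ x))
  set S1 := S.filter (fun Q => 0 < ms (fun x => f x * w x) Q ∧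
    ms (fun x => g x * σ x) Q ^ 2 / ms σ Q ≤ ms (fun x => f x * w x) Q ^ 2 / ms w Q) with hS1
  set S2 := S.filter (fun Q => 0 < ms (fun x => g x * σ x) Q ∧
    ms (fun x => f x * w x) Q ^ 2 / ms w Q ≤ ms (fun x => g x * σ x) Q ^ 2 / ms σ Q) with hS2
  have s1 : S1 ⊆ S := filter_subset _ _
  have s2 : S2 ⊆ S := filter_subset _ _
  have h1 := lsu_half (hS.mono s1) hw hσ hg (fun Q hQ => hτ Q (s1 hQ)) (fun Q hQ => hwp Q (s1 hQ))
    (fun Q hQ => hσp Q (s1 hQ)) (fun Q hQ => (mem_filter.1 hQ).2.1)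
    (fun Q hQ => (mem_filter.1 hQ).2.2) hT (testing_mono s1 hw hσ hτ htest)
    (fun Q hQ => hU Q (s1 hQ))
  have h2 := lsu_half (hS.mono s2) hσ hw hf (fun Q hQ => hτ Q (s2 hQ)) (fun Q hQ => hσp Q (s2 hQ))
    (fun Q hQ => hwp Q (s2 hQ)) (fun Q hQ => (mem_filter.1 hQ).2.1)
    (fun Q hQ => (mem_filter.1 hQ).2.2) hT (testing_mono s2 hσ hw hτ htest')
    (fun Q hQ => hU Q (s2 hQ))
  have h3 : ∑ Q ∈ S, τ Q * ms (fun x => f x * w x) Q * ms (fun x => g x * σ x) Q ≤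
      ∑ Q ∈ S1, τ Q * ms (fun x => f x * w x) Q * ms (fun x => g x * σ x) Q +
      ∑ Q ∈ S2, τ Q * ms (fun x => g x * σ x) Q * ms (fun x => f x * w x) Q := by
    rw [hS1, hS2, sum_filter, sum_filter, ← sum_add_distrib]
    apply sum_le_sum
    intro Q hQ
    have a1 := hτ Q hQ
    have a2 := hfw Q
    have a3 := hgσ Q
    generalize ms (fun x => f x * w x) Q = u at a2 ⊢
    generalize ms (fun x => g x * σ x) Q = v at a3 ⊢
    have a4 : 0 ≤ τ Q * v * u := by positivity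
    have a5 : τ Q * u * v = τ Q * v * u := by ring
    split_ifs with b1 b2 b2
    · linarith
    · linarith
    · linarith
    · rcases a2.eq_or_lt with c | c
      · rw [← c]; simp
      rcases a3.eq_or_lt with c' | c'
      · rw [← c']; simp
      rcases le_total (v ^ 2 / ms σ Q) (u ^ 2 / ms w Q) with h | h
      · exact absurd ⟨c, h⟩ b1
      · exact absurd ⟨c', h⟩ b2
  linarith

end Pool.Agent.MP_93f72d_an

end

-- part MP_93f72d_an.Lux
section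

/-!
Discrete Luxemburg norms and the bilinear bound for sparse families under separated bumps.
-/

namespace Pool.Agent.MP_93f72d_an

open Finset

open scoped Classical

variable {X : Type}

/-- what is used of a Young function -/
structure YD (Φ : ℝ → ℝ) : Prop where
  zero : Φ 0 = 0
  conv : ConvexOn ℝ (Set.Ici 0) Φ
  mono : MonotoneOn Φ (Set.Ici 0)
  big : ∃ t0, 0 ≤ t0 ∧ ∀ t, t0 ≤ t → t ≤ Φ t
  summ : ∃ n0 : ℕ, 0 < Φ (2 ^ n0) ∧ Summable (fun n : ℕ => 2 ^ (n + n0) / Φ (2 ^ (n + n0)))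

lemma YD.nonneg {Φ : ℝ → ℝ} (h : YD Φ) {t : ℝ} (ht : 0 ≤ t) : 0 ≤ Φ t := by
  rw [← h.zero]
  exact h.mono (Set.mem_Ici.2 le_rfl) ht ht

lemma YD.scale {Φ : ℝ → ℝ} (h : YD Φ) {t θ : ℝ} (ht : 0 ≤ t) (h0 : 0 ≤ θ) (h1 : θ ≤ 1) :
    Φ (θ * t) ≤ θ * Φ t := by
  have := h.conv.2 (Set.mem_Ici.2 ht) (Set.mem_Ici.2 (le_refl (0 : ℝ))) h0 (sub_nonneg.2 h1)
    (by ring)
  simpa [h.zero] using this

lemma YD.lin {Φ : ℝ → ℝ} (h : YD Φ) : ∃ c, 1 ≤ c ∧ ∀ t, 0 ≤ t → t ≤ Φ t + (c - 1) := by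
  obtain ⟨t0, h0, h1⟩ := h.big
  refine ⟨1 + t0, by linarith, fun t ht => ?_⟩
  rcases le_total t0 t with h2 | h2
  · have := h1 t h2; linarith
  · have := h.nonneg ht; linarith

lemma YD.chi {Φ : ℝ → ℝ} (h : YD Φ) : ∃ χ : ℕ → ℝ, Summable χ ∧ (∀ j, 0 ≤ χ j) ∧
    ∀ (j : ℕ) (s ρ : ℝ), 0 < ρ → 4 ^ j ≤ 16 * s → Φ (s / ρ) ≤ 4 * s → min 1 (1 / ρ) ≤ χ j := by
  obtain ⟨n0, hpos, hsum⟩ := h.summ
  have hp : ∀ n, n0 ≤ n → 0 < Φ (2 ^ n) := fun n hn =>
    hpos.trans_le (h.mono (Set.mem_Ici.2 (by positivity)) (Set.mem_Ici.2 (by positivity))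
      (pow_le_pow_right₀ (by norm_num) hn))
  refine ⟨fun j => if j < n0 + 2 then 1 else
    (1 / 2) ^ (j - 2) + 4 * (2 ^ (j - 2) / Φ (2 ^ (j - 2))), ?_, fun j => ?_, ?_⟩
  · rw [← summable_nat_add_iff (n0 + 2)]
    have : Summable (fun n : ℕ => (1 / 2 : ℝ) ^ (n + n0) +
        4 * (2 ^ (n + n0) / Φ (2 ^ (n + n0)))) :=
      ((summable_nat_add_iff (f := fun n => (1 / 2 : ℝ) ^ n) n0).2 summable_geometric_two).add
        (hsum.mul_left 4)
    refine this.congr (fun n => ?_)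
    rw [if_neg (by omega), show n + (n0 + 2) - 2 = n + n0 by omega]
  · simp only
    split_ifs with hj
    · norm_num
    · have := hp (j - 2) (by omega)
      positivity
  · intro j s ρ hρ hs hΦ
    simp only
    split_ifs with hj
    · exact min_le_left _ _
    refine (min_le_right _ _).trans ?_
    obtain ⟨n, rfl⟩ : ∃ n, j = n + 2 := ⟨j - 2, by omega⟩
    rw [Nat.add_sub_cancel]
    have h1 := hp n (by omega)
    have h2 : (2 : ℝ) ^ n * 2 ^ n ≤ s := by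
      rw [← mul_pow]
      rw [pow_add] at hs
      norm_num at hs ⊢
      linarith
    have h3 : (0 : ℝ) < 2 ^ n := by positivity
    have hs0 : 0 < s := lt_of_lt_of_le (by positivity) h2
    rcases le_total (2 ^ n) ρ with h4 | h4
    · have : 1 / ρ ≤ (1 / 2) ^ n := by
        rw [one_div_pow]
        exact one_div_le_one_div_of_le h3 h4
      have : 0 ≤ 4 * (2 ^ n / Φ (2 ^ n)) := by positivity
      linarith
    · have a1 : 2 ^ n * ρ / s ≤ 1 := by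
        rw [div_le_one hs0]
        exact (mul_le_mul_of_nonneg_left h4 h3.le).trans h2
      have a2 := h.scale (t := s / ρ) (by positivity) (by positivity) a1
      rw [show 2 ^ n * ρ / s * (s / ρ) = 2 ^ n by field_simp] at a2
      have a3 : Φ (2 ^ n) ≤ 2 ^ n * ρ * 4 := by
        calc _ ≤ _ := a2
          _ ≤ 2 ^ n * ρ / s * (4 * s) := mul_le_mul_of_nonneg_left hΦ (by positivity)
          _ = _ := by field_simp
      have a4 : 1 / ρ ≤ 4 * (2 ^ n / Φ (2 ^ n)) := by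
        rw [← mul_div_assoc, div_le_div_iff₀ hρ h1]
        linarith
      have : (0 : ℝ) ≤ (1 / 2) ^ n := by positivity
      linarith

/-- admissible values in the discrete Luxemburg norm -/
def Adm (Φ : ℝ → ℝ) (w : X → ℝ) (Q : Finset X) (l : ℝ) : Prop :=
  0 < l ∧ ∑ x ∈ Q, Φ (w x / l) ≤ Q.card

/-- discrete Luxemburg norm -/
noncomputable def dlux (Φ : ℝ → ℝ) (w : X → ℝ) (Q : Finset X) : ℝ := sInf {l | Adm Φ w Q l}

lemma ms_one (Q : Finset X) : ms (fun _ => (1 : ℝ)) Q = Q.card := by simp [ms]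

lemma YD.sum_scale {Φ : ℝ → ℝ} (h : YD Φ) {w : X → ℝ} (hw : ∀ x, 0 ≤ w x) (Q : Finset X)
    {l c : ℝ} (hl : 0 < l) (hc : 1 ≤ c) :
    c * ∑ x ∈ Q, Φ (w x / (c * l)) ≤ ∑ x ∈ Q, Φ (w x / l) := by
  rw [mul_sum]
  apply sum_le_sum
  intro x _
  have h0 : 0 < c := by linarith
  have := h.scale (t := w x / l) (θ := 1 / c) (div_nonneg (hw x) hl.le) (by positivity)
    ((div_le_one h0).2 hc)
  rw [show 1 / c * (w x / l) = w x / (c * l) by field_simp] at this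
  calc _ ≤ c * (1 / c * Φ (w x / l)) := mul_le_mul_of_nonneg_left this h0.le
    _ = _ := by field_simp

lemma YD.adm_of {Φ : ℝ → ℝ} (h : YD Φ) {w : X → ℝ} (hw : ∀ x, 0 ≤ w x) (Q : Finset X)
    {l c : ℝ} (hl : 0 < l) (hc : 1 ≤ c) (hs : ∑ x ∈ Q, Φ (w x / l) ≤ c * Q.card) :
    Adm Φ w Q (c * l) := by
  have h0 : 0 < c := by linarith
  exact ⟨by positivity, le_of_mul_le_mul_left ((h.sum_scale hw Q hl hc).trans hs) h0⟩

lemma YD.adm_mono {Φ : ℝ → ℝ} (h : YD Φ) {w : X → ℝ} (hw : ∀ x, 0 ≤ w x) {Q : Finset X}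
    {l l' : ℝ} (ha : Adm Φ w Q l) (hl : l ≤ l') : Adm Φ w Q l' := by
  have := h.adm_of hw Q ha.1 ((one_le_div ha.1).2 hl) (ha.2.trans
    (le_mul_of_one_le_left (Nat.cast_nonneg _) ((one_le_div ha.1).2 hl)))
  rwa [div_mul_cancel₀ _ ha.1.ne'] at this

lemma dlux_le {Φ : ℝ → ℝ} {w : X → ℝ} {Q : Finset X} {l : ℝ} (ha : Adm Φ w Q l) :
    dlux Φ w Q ≤ l :=
  csInf_le ⟨0, fun _ hl => hl.1.le⟩ ha

lemma YD.dlux_le' {Φ : ℝ → ℝ} (h : YD Φ) {w : X → ℝ} (hw : ∀ x, 0 ≤ w x) {Q : Finset X}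
    (hQ : Q.Nonempty) {l : ℝ} (hl : 0 < l) :
    Adm Φ w Q ((1 + (∑ x ∈ Q, Φ (w x / l)) / Q.card) * l) := by
  have h1 : (0 : ℝ) < Q.card := by exact_mod_cast hQ.card_pos
  have h2 : 0 ≤ ∑ x ∈ Q, Φ (w x / l) := sum_nonneg (fun x _ => h.nonneg (div_nonneg (hw x) hl.le))
  refine h.adm_of hw Q hl (le_add_of_nonneg_right (by positivity)) ?_
  rw [add_mul, div_mul_cancel₀ _ h1.ne']
  linarith

lemma YD.le_dlux {Φ : ℝ → ℝ} (h : YD Φ) {w : X → ℝ} (hw : ∀ x, 0 ≤ w x) {Q : Finset X}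
    (hQ : Q.Nonempty) {c : ℝ} (hc : 1 ≤ c) (hlin : ∀ t, 0 ≤ t → t ≤ Φ t + (c - 1)) :
    ms w Q / Q.card ≤ c * dlux Φ w Q := by
  have h1 : (0 : ℝ) < Q.card := by exact_mod_cast hQ.card_pos
  have h0 : 0 < c := by linarith
  rw [← div_le_iff₀' h0]
  refine le_csInf ⟨_, h.dlux_le' hw hQ one_pos⟩ (fun l hl => ?_)
  have h2 : ∑ x ∈ Q, w x / l ≤ ∑ x ∈ Q, (Φ (w x / l) + (c - 1)) :=
    sum_le_sum (fun x _ => hlin _ (div_nonneg (hw x) hl.1.le))
  rw [sum_add_distrib, sum_const, nsmul_eq_mul, ← sum_div, div_le_iff₀ hl.1] at h2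
  rw [div_div, div_le_iff₀ (by positivity)]
  have h3 := mul_le_mul_of_nonneg_right hl.2 hl.1.le
  unfold ms
  nlinarith

lemma YD.adm_two {Φ : ℝ → ℝ} (h : YD Φ) {w : X → ℝ} (hw : ∀ x, 0 ≤ w x) {Q : Finset X}
    (hQ : Q.Nonempty) (hp : 0 < dlux Φ w Q) : Adm Φ w Q (2 * dlux Φ w Q) := by
  obtain ⟨l, hl, hlt⟩ := exists_lt_of_csInf_lt (s := {l | Adm Φ w Q l})
    ⟨_, h.dlux_le' hw hQ one_pos⟩ (show dlux Φ w Q < 2 * dlux Φ w Q by linarith)
  exact h.adm_mono hw hl hlt.le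

lemma YD.pack {Φ : ℝ → ℝ} (h : YD Φ) {w : X → ℝ} (hw : ∀ x, 0 ≤ w x) {Q : Finset X}
    (hQ : Q.Nonempty) (hp : 0 < dlux Φ w Q) {A : Finset (Finset X)} (hA : ∀ Z ∈ A, Z.Nonempty)
    (hd : (A : Set (Finset X)).PairwiseDisjoint id) (hsub : ∀ Z ∈ A, Z ⊆ Q) :
    ∑ Z ∈ A, dlux Φ w Z * Z.card ≤ 4 * (dlux Φ w Q * Q.card) := by
  have ha := h.adm_two hw hQ hp
  set l := 2 * dlux Φ w Q with hl
  have h1 : ∑ Z ∈ A, dlux Φ w Z * Z.card ≤
      ∑ Z ∈ A, l * (ms (fun _ => (1 : ℝ)) Z + ms (fun x => Φ (w x / l)) Z) := by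
    apply sum_le_sum
    intro Z hZ
    have a1 : (0 : ℝ) < Z.card := by exact_mod_cast (hA Z hZ).card_pos
    have a2 := dlux_le (h.dlux_le' hw (hA Z hZ) ha.1)
    rw [ms_one]
    calc _ ≤ (1 + (∑ x ∈ Z, Φ (w x / l)) / Z.card) * l * Z.card :=
          mul_le_mul_of_nonneg_right a2 a1.le
      _ = _ := by unfold ms; field_simp
  rw [← mul_sum, sum_add_distrib] at h1
  have h2 := sum_ms_le (m := fun _ => (1 : ℝ)) (fun _ => zero_le_one) hd hsub
  have h3 := sum_ms_le (m := fun x => Φ (w x / l))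
    (fun x => h.nonneg (div_nonneg (hw x) ha.1.le)) hd hsub
  have h4 : ms (fun x => Φ (w x / l)) Q ≤ Q.card := ha.2
  rw [ms_one Q] at h2
  have h5 := mul_le_mul_of_nonneg_left (add_le_add h2 (h3.trans h4)) ha.1.le
  linarith

lemma good_mass {Φ : ℝ → ℝ} (h : YD Φ) {w : X → ℝ} (hw : ∀ x, 0 ≤ w x) {S : Finset (Finset X)}
    (hS : Lam S) (hsp : Sparse (fun _ => (1 : ℝ)) (1 / 128) S) {Q : Finset X} (hQ : Q ∈ S)
    (hwp : 0 < ms w Q) (hav : ∀ Z ∈ S, ms w Z ≤ 4 * (ms w Q / Q.card) * Z.card) {l : ℝ}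
    (ha : Adm Φ w Q l) :
    ms w Q ≤ 4 * ms w ((Q \ und S Q).filter (fun x => ms w Q / Q.card ≤ 4 * w x ∧
      Φ (w x / l) ≤ 4 * (w x / (ms w Q / Q.card)))) := by
  have h1 : (0 : ℝ) < Q.card := by exact_mod_cast (hS.1 Q hQ).card_pos
  set av := ms w Q / Q.card with havdef
  have havp : 0 < av := div_pos hwp h1
  have hwQ : ms w Q = av * Q.card := (div_mul_cancel₀ _ h1.ne').symm
  clear havdef
  clear_value av
  have b1 : ms w (und S Q) ≤ 1 / 32 * ms w Q := by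
    have hd : ((S.filter (fun G => G ⊆ Q ∧ dep S G = dep S Q + 1) : Finset (Finset X)) :
        Set (Finset X)).PairwiseDisjoint id :=
      hS.disjoint_of_dep (filter_subset _ _) (fun G hG => (mem_filter.1 hG).2.2)
    have c1 := hsp Q hQ
    rw [und_eq_children hS hQ, ms_biUnion _ hd] at c1 ⊢
    have c2 : ∑ G ∈ S.filter (fun G => G ⊆ Q ∧ dep S G = dep S Q + 1), ms w G ≤
        ∑ G ∈ S.filter (fun G => G ⊆ Q ∧ dep S G = dep S Q + 1),
          4 * av * ms (fun _ => (1 : ℝ)) G :=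
      sum_le_sum (fun G hG => by rw [ms_one]; exact hav G (mem_filter.1 hG).1)
    rw [← mul_sum] at c2
    rw [ms_one Q] at c1
    have := mul_le_mul_of_nonneg_left c1 (show 0 ≤ 4 * av by positivity)
    linarith
  have b2 : ms w (Q \ und S Q) ≤ ms w ((Q \ und S Q).filter (fun x => av ≤ 4 * w x ∧
      Φ (w x / l) ≤ 4 * (w x / av))) + ∑ x ∈ Q, (av / 4 + av / 4 * Φ (w x / l)) := by
    have hn : ∀ x, 0 ≤ av / 4 * Φ (w x / l) := fun x =>
      mul_nonneg (by positivity) (h.nonneg (div_nonneg (hw x) ha.1.le))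
    refine le_trans ?_ (add_le_add le_rfl (sum_le_sum_of_subset_of_nonneg
      (sdiff_subset (t := und S Q)) (fun x _ _ => add_nonneg (by positivity) (hn x))))
    unfold ms
    rw [sum_filter, ← sum_add_distrib]
    apply sum_le_sum
    intro x _
    have := hn x
    have := hw x
    split_ifs with hc
    · linarith
    · rw [not_and_or, not_le, not_le] at hc
      rcases hc with hc | hc
      · linarith
      · have := mul_le_mul_of_nonneg_left hc.le (show 0 ≤ av / 4 by positivity)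
        rw [show av / 4 * (4 * (w x / av)) = w x by field_simp] at this
        linarith
  rw [sum_add_distrib, sum_const, nsmul_eq_mul, ← mul_sum, ms_sdiff_und] at b2
  have b3 := mul_le_mul_of_nonneg_left ha.2 (show 0 ≤ av / 4 by positivity)
  nlinarith

/-- the one-bump Carleson estimate -/
lemma YD.carleson {Φ : ℝ → ℝ} (h : YD Φ) : ∃ C, 0 ≤ C ∧ ∀ (w : X → ℝ), (∀ x, 0 ≤ w x) →
    ∀ S : Finset (Finset X), Lam S → Sparse (fun _ => (1 : ℝ)) (1 / 128) S →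
    (∀ Q ∈ S, 0 < ms w Q) → ∀ l : Finset X → ℝ, (∀ Q ∈ S, Adm Φ w Q (l Q)) →
    ∀ R : Finset X, (∀ Q ∈ S, Q ⊆ R) →
    ∑ Q ∈ S, ms w Q * min 1 (ms w Q / Q.card / l Q) ≤ C * ms w R := by
  obtain ⟨χ, hχs, hχ0, hχ⟩ := h.chi
  refine ⟨4 * ∑' j, χ j, mul_nonneg (by norm_num) (tsum_nonneg hχ0), ?_⟩
  intro w hw S hS hsp hwp l ha R hR
  set av : Finset X → ℝ := fun Q => ms w Q / Q.card with havdef
  have hc : ∀ Q ∈ S, (0 : ℝ) < Q.card := fun Q hQ => by exact_mod_cast (hS.1 Q hQ).card_pos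
  have havp : ∀ Q ∈ S, 0 < av Q := fun Q hQ => div_pos (hwp Q hQ) (hc Q hQ)
  set lev : Finset X → ℤ := fun Q => Int.log 4 (av Q) with hlevdef
  have hlv : ∀ Q ∈ S, 4 ^ lev Q ≤ av Q ∧ av Q < 4 ^ (lev Q + 1) := fun Q hQ =>
    ⟨by exact_mod_cast Int.zpow_log_le_self (b := 4) (by norm_num) (havp Q hQ),
      by exact_mod_cast Int.lt_zpow_succ_log_self (b := 4) (by norm_num) (av Q)⟩
  set G : Finset X → Finset X := fun Q => (Q \ und (cls S lev (lev Q)) Q).filter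
    (fun x => av Q ≤ 4 * w x ∧ Φ (w x / l Q) ≤ 4 * (w x / av Q)) with hG
  have hm0 : ∀ Q ∈ S, 0 ≤ min 1 (av Q / l Q) := fun Q hQ =>
    le_min zero_le_one (div_nonneg (havp Q hQ).le (ha Q hQ).1.le)
  have h1 : ∑ Q ∈ S, ms w Q * min 1 (av Q / l Q) ≤
      ∑ Q ∈ S, 4 * ∑ x ∈ G Q, min 1 (av Q / l Q) * w x := by
    apply sum_le_sum
    intro Q hQ
    have := good_mass h hw (S := cls S lev (lev Q)) (hS.mono (filter_subset _ _))
      (hsp.mono (fun _ => zero_le_one) (filter_subset _ _)) (mem_filter.2 ⟨hQ, rfl⟩) (hwp Q hQ)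
      (fun Z hZ => by
        obtain ⟨hZS, hZl⟩ := mem_filter.1 hZ
        have a1 := (hlv Z hZS).2
        have a2 := (hlv Q hQ).1
        rw [hZl, zpow_add₀ (by norm_num), zpow_one] at a1
        rw [← div_le_iff₀ (hc Z hZS)]
        change av Z ≤ 4 * av Q
        linarith) (ha Q hQ)
    rw [← mul_sum, mul_comm, mul_left_comm]
    exact mul_le_mul_of_nonneg_left this (hm0 Q hQ)
  refine h1.trans ?_
  rw [← mul_sum, mul_assoc]
  refine mul_le_mul_of_nonneg_left ?_ (by norm_num)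
  rw [sum_comm' (t' := R) (s' := fun x => S.filter (fun Q => x ∈ G Q)) (by
    intro Q x
    simp only [mem_filter (s := S)]
    constructor
    · rintro ⟨h1, h2⟩; exact ⟨⟨h1, h2⟩, hR Q h1 (mem_sdiff.1 (mem_filter.1 h2).1).1⟩
    · rintro ⟨h1, -⟩; exact h1), ms, mul_sum]
  apply sum_le_sum
  intro x _
  rw [← sum_mul]
  refine mul_le_mul_of_nonneg_right ?_ (hw x)
  have hj : ∀ Q ∈ S.filter (fun Q => x ∈ G Q), lev Q ≤ Int.log 4 (w x) + 1 := by
    intro Q hQ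
    obtain ⟨hQS, hx⟩ := mem_filter.1 hQ
    have a1 := (mem_filter.1 hx).2.1
    have a2 : w x < 4 ^ (Int.log 4 (w x) + 1) := by
      exact_mod_cast Int.lt_zpow_succ_log_self (b := 4) (by norm_num) (w x)
    have a3 : (4 : ℝ) ^ lev Q < 4 ^ (Int.log 4 (w x) + 1 + 1) := by
      rw [zpow_add₀ (by norm_num) _ 1, zpow_one]
      linarith [(hlv Q hQS).1]
    have := (zpow_lt_zpow_iff_right₀ (by norm_num : (1 : ℝ) < 4)).1 a3
    omega
  calc _ ≤ ∑ Q ∈ S.filter (fun Q => x ∈ G Q), χ (Int.log 4 (w x) + 1 - lev Q).toNat := by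
        apply sum_le_sum
        intro Q hQ
        obtain ⟨hQS, hx⟩ := mem_filter.1 hQ
        obtain ⟨a1, a2⟩ := (mem_filter.1 hx).2
        have a3 := havp Q hQS
        have a4 := (ha Q hQS).1
        have a5 : 0 < w x := by linarith
        have := hχ (Int.log 4 (w x) + 1 - lev Q).toNat (w x / av Q) (l Q / av Q) (by positivity)
          (by
            have b1 : (4 : ℝ) ^ Int.log 4 (w x) ≤ w x := by
              exact_mod_cast Int.zpow_log_le_self (b := 4) (by norm_num) a5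
            have b2 := (hlv Q hQS).2
            rw [← zpow_natCast, Int.toNat_of_nonneg (by have := hj Q hQ; omega),
              zpow_sub₀ (by norm_num), ← mul_div_assoc, div_le_div_iff₀ (by positivity) a3]
            rw [zpow_add₀ (by norm_num), zpow_one] at b2 ⊢
            have b3 : (0 : ℝ) < 4 ^ lev Q := by positivity
            have b4 : (0 : ℝ) < 4 ^ Int.log 4 (w x) := by positivity
            nlinarith [mul_le_mul b1 b2.le a3.le a5.le])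
          (by rwa [show w x / av Q / (l Q / av Q) = w x / l Q by field_simp])
        rwa [one_div_div] at this
    _ ≤ _ := by
        rw [← sum_image (s := S.filter (fun Q => x ∈ G Q))
          (g := fun Q => (Int.log 4 (w x) + 1 - lev Q).toNat) (f := χ) (by
            intro Q hQ Q' hQ' he
            have a1 := hj Q hQ
            have a2 := hj Q' hQ'
            have a3 : lev Q = lev Q' := by simp only at he; omega
            obtain ⟨hQS, hx⟩ := mem_filter.1 (mem_coe.1 hQ)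
            obtain ⟨hQS', hx'⟩ := mem_filter.1 (mem_coe.1 hQ')
            by_contra hne
            have hL : Lam (cls S lev (lev Q)) := hS.mono (filter_subset _ _)
            have := hL.disjoint_sdiff_und (mem_coe.2 (mem_filter.2 ⟨hQS, rfl⟩))
              (mem_coe.2 (mem_filter.2 ⟨hQS', a3.symm⟩)) hne
            refine disjoint_left.1 this (mem_filter.1 hx).1 ?_
            rw [a3]
            exact (mem_filter.1 hx').1)]
        exact hχs.sum_le_tsum _ (fun j _ => hχ0 j)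

/-- the testing condition from one bump -/
lemma YD.test {Φ : ℝ → ℝ} (h : YD Φ) {K : ℝ} (hK : 0 ≤ K) : ∃ T, 0 ≤ T ∧ ∀ (w σ : X → ℝ),
    (∀ x, 0 ≤ w x) → (∀ x, 0 ≤ σ x) →
    ∀ S : Finset (Finset X), Lam S → Sparse (fun _ => (1 : ℝ)) (1 / 128) S →
    (∀ Q ∈ S, 0 < ms w Q) → (∀ Q ∈ S, ms σ Q * dlux Φ w Q ≤ K * Q.card) →
    ∀ R ∈ S, ∑ x ∈ R, (∑ Q ∈ (S.filter (fun Q => Q ⊆ R)).filter (fun Q => x ∈ Q),
      1 / (Q.card : ℝ) * ms w Q) ^ 2 * σ x ≤ T * ms w R := by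
  obtain ⟨C, hC, hcar⟩ := h.carleson (X := X)
  obtain ⟨c, hc, hlin⟩ := h.lin
  have hc0 : 0 < c := by linarith
  refine ⟨576 * (2 * c * K) * (4 * C + 32), by positivity, ?_⟩
  intro w σ hw hσ S hS hsp hwp hK1 R _
  have s1 : S.filter (fun Q => Q ⊆ R) ⊆ S := filter_subset _ _
  have hcard : ∀ Q ∈ S, (0 : ℝ) < Q.card := fun Q hQ => by exact_mod_cast (hS.1 Q hQ).card_pos
  have hle : ∀ Q ∈ S, ms w Q / Q.card ≤ c * dlux Φ w Q := fun Q hQ =>
    h.le_dlux hw (hS.1 Q hQ) hc hlin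
  have hp : ∀ Q ∈ S, 0 < dlux Φ w Q := fun Q hQ =>
    pos_of_mul_pos_left ((div_pos (hwp Q hQ) (hcard Q hQ)).trans_le
      ((hle Q hQ).trans_eq (mul_comm _ _))) hc0.le
  have := testing (hS.mono s1) (μ := fun _ => (1 : ℝ)) (fun _ => zero_le_one) hw hσ
    (hsp.mono (fun _ => zero_le_one) s1) (fun Q hQ => (mem_filter.1 hQ).2)
    (fun Q hQ => by rw [ms_one]; exact hcard Q (s1 hQ)) (fun Q hQ => hwp Q (s1 hQ))
    (lam := fun Q => 2 * c * dlux Φ w Q) (K := 2 * c * K) (C := C) (by positivity)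
    (fun Q hQ => by
      rw [ms_one]
      have := mul_le_mul_of_nonneg_left (hK1 Q (s1 hQ)) (show 0 ≤ 2 * c by positivity)
      linarith)
    (fun Q hQ => by
      rw [ms_one]
      have := hle Q (s1 hQ)
      have := mul_pos hc0 (hp Q (s1 hQ))
      linarith)
    (fun Q hQ A hA hd hsub => by
      have a1 := h.pack hw (hS.1 Q (s1 hQ)) (hp Q (s1 hQ)) (fun Z hZ => hS.1 Z (s1 (hA hZ))) hd
        hsub
      simp_rw [ms_one, mul_assoc]
      rw [← mul_sum, ← mul_sum]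
      have a2 := mul_pos (hp Q (s1 hQ)) (hcard Q (s1 hQ))
      nlinarith)
    (by
      refine le_trans (sum_le_sum (fun Q hQ => ?_)) (hcar w hw _ (hS.mono s1)
        (hsp.mono (fun _ => zero_le_one) s1) (fun Q hQ => hwp Q (s1 hQ))
        (fun Q => 2 * dlux Φ w Q) (fun Q hQ => h.adm_two hw (hS.1 Q (s1 hQ)) (hp Q (s1 hQ))) R
        (fun Q hQ => (mem_filter.1 hQ).2))
      rw [ms_one]
      have a1 := hle Q (s1 hQ)
      have a2 := hp Q (s1 hQ)
      have a3 := mul_pos hc0 a2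
      refine mul_le_mul_of_nonneg_left (le_min ?_ ?_) (hwp Q (s1 hQ)).le
      · rw [div_le_one (by positivity)]; linarith
      · refine div_le_div_of_nonneg_left (div_pos (hwp Q (s1 hQ)) (hcard Q (s1 hQ))).le
          (by positivity) ?_
        nlinarith)
  simp_rw [ms_one] at this
  simp_rw [one_div_mul_eq_div]
  exact this

/-- the bilinear bound for a strongly sparse laminar family -/
lemma sparse_bil {Φ₁ Φ₂ : ℝ → ℝ} (h₁ : YD Φ₁) (h₂ : YD Φ₂) {K : ℝ} (hK : 0 ≤ K) :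
    ∃ C, 0 ≤ C ∧ ∀ (w σ f g : X → ℝ), (∀ x, 0 ≤ w x) → (∀ x, 0 ≤ σ x) → (∀ x, 0 ≤ f x) →
    (∀ x, 0 ≤ g x) → ∀ S : Finset (Finset X), Lam S → Sparse (fun _ => (1 : ℝ)) (1 / 128) S →
    (∀ Q ∈ S, ms σ Q * dlux Φ₁ w Q ≤ K * Q.card) → (∀ Q ∈ S, ms w Q * dlux Φ₂ σ Q ≤ K * Q.card) →
    ∀ U : Finset X, (∀ Q ∈ S, Q ⊆ U) →
    ∑ Q ∈ S, 1 / (Q.card : ℝ) * ms (fun x => f x * w x) Q * ms (fun x => g x * σ x) Q ≤
      C * (∑ x ∈ U, f x ^ 2 * w x + ∑ x ∈ U, g x ^ 2 * σ x) := by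
  obtain ⟨T₁, hT₁, t₁⟩ := h₁.test (X := X) hK
  obtain ⟨T₂, hT₂, t₂⟩ := h₂.test (X := X) hK
  refine ⟨16 * (T₁ + T₂) + 17, by positivity, ?_⟩
  intro w σ f g hw hσ hf hg S hS hsp hK1 hK2 U hU
  have s1 : S.filter (fun Q => 0 < ms w Q ∧ 0 < ms σ Q) ⊆ S := filter_subset _ _
  have hz : ∀ (w f : X → ℝ), (∀ x, 0 ≤ w x) → ∀ Q, ¬ 0 < ms w Q →
      ms (fun x => f x * w x) Q = 0 := by
    intro w f hw Q hn
    have := (sum_eq_zero_iff_of_nonneg (fun x _ => hw x)).1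
      (le_antisymm (not_lt.1 hn) (ms_nonneg hw Q))
    exact sum_eq_zero (fun x hx => by rw [this x hx, mul_zero])
  rw [← sum_subset s1 (fun Q hQ hn => by
    rw [mem_filter, not_and_or, not_and_or] at hn
    rcases hn with hn | hn | hn
    · exact absurd hQ hn
    · rw [hz w f hw Q hn]; simp
    · rw [hz σ g hσ Q hn]; simp)]
  refine lsu (hS.mono s1) hw hσ hf hg (fun Q _ => by positivity)
    (fun Q hQ => (mem_filter.1 hQ).2.1) (fun Q hQ => (mem_filter.1 hQ).2.2) (by positivity)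
    (fun R hR => ?_) (fun R hR => ?_) (fun Q hQ => hU Q (s1 hQ))
  · refine (t₁ w σ hw hσ _ (hS.mono s1) (hsp.mono (fun _ => zero_le_one) s1)
      (fun Q hQ => (mem_filter.1 hQ).2.1) (fun Q hQ => hK1 Q (s1 hQ)) R hR).trans ?_
    exact mul_le_mul_of_nonneg_right (by linarith) (ms_nonneg hw R)
  · refine (t₂ σ w hσ hw _ (hS.mono s1) (hsp.mono (fun _ => zero_le_one) s1)
      (fun Q hQ => (mem_filter.1 hQ).2.2) (fun Q hQ => hK2 Q (s1 hQ)) R hR).trans ?_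
    exact mul_le_mul_of_nonneg_right (by linarith) (ms_nonneg hσ R)

end Pool.Agent.MP_93f72d_an

end

-- part MP_93f72d_an.Grid
section

/-!
Abstract discrete dyadic grids, stopping families, and the weak type estimate for discrete kernels.
-/

namespace Pool.Agent.MP_93f72d_an

open Finset

open scoped Classical

/-- an abstract discrete dyadic grid with tripled cubes -/
structure Grid (X ι κ : Type) where
  cb : ℕ → X → ι
  lev : ι → ℕ
  cube : ι → Finset X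
  tri : ι → Finset X
  col : ι → κ
  D : ℕ
  A : ℕ
  D_pos : 0 < D
  lev_cb : ∀ k x, lev (cb k x) = k
  mem_cube : ∀ Q y, y ∈ cube Q ↔ cb (lev Q) y = Q
  cb_zero : ∀ x y, cb 0 x = cb 0 y → x = y
  cb_succ : ∀ k x y, cb k x = cb k y → cb (k + 1) x = cb (k + 1) y
  card_cube : ∀ Q, (cube Q).card = D ^ lev Q
  tri_self : ∀ k x, x ∈ tri (cb k x)
  tri_symm : ∀ k x y, y ∈ tri (cb k x) → x ∈ tri (cb k y)
  tri_succ : ∀ k x, tri (cb k x) ⊆ tri (cb (k + 1) x)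
  card_tri : ∀ Q, (tri Q).card ≤ A * D ^ lev Q
  tri_lam : ∀ Q Q', col Q = col Q' →
    tri Q ⊆ tri Q' ∨ tri Q' ⊆ tri Q ∨ Disjoint (tri Q) (tri Q')
  tri_inj : ∀ Q Q', tri Q = tri Q' → Q = Q'

variable {X ι κ : Type} (G : Grid X ι κ)

namespace Grid

lemma Dr_pos : (0 : ℝ) < G.D := by exact_mod_cast G.D_pos

lemma one_le_Dr : (1 : ℝ) ≤ G.D := by exact_mod_cast G.D_pos

lemma mem_cb (k : ℕ) (x : X) : x ∈ G.cube (G.cb k x) := by rw [G.mem_cube, G.lev_cb]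

lemma mem_cb_iff {k : ℕ} {x y : X} : y ∈ G.cube (G.cb k x) ↔ G.cb k y = G.cb k x := by
  rw [G.mem_cube, G.lev_cb]

lemma cb_le {k j : ℕ} (h : k ≤ j) {x y : X} (e : G.cb k x = G.cb k y) : G.cb j x = G.cb j y := by
  induction j, h using Nat.le_induction with
  | base => exact e
  | succ j _ ih => exact G.cb_succ j x y ih

lemma tri_le {k j : ℕ} (h : k ≤ j) (x : X) : G.tri (G.cb k x) ⊆ G.tri (G.cb j x) := by
  induction j, h using Nat.le_induction with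
  | base => exact Subset.refl _
  | succ j _ ih => exact ih.trans (G.tri_succ j x)

lemma cube_subset {Q : ι} {x : X} (hx : x ∈ G.cube Q) {j : ℕ} (h : G.lev Q ≤ j) :
    G.cube Q ⊆ G.cube (G.cb j x) := by
  intro y hy
  rw [G.mem_cube] at hx hy
  exact G.mem_cb_iff.2 (G.cb_le h (hy.trans hx.symm))

lemma cube_subset_tri (Q : ι) : G.cube Q ⊆ G.tri Q := by
  intro y hy
  rw [G.mem_cube] at hy
  have := G.tri_self (G.lev Q) y
  rwa [hy] at this

lemma cube_nonempty (Q : ι) : (G.cube Q).Nonempty := by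
  rw [← card_pos, G.card_cube]
  exact pow_pos G.D_pos _

lemma card_cube_r (Q : ι) : ((G.cube Q).card : ℝ) = (G.D : ℝ) ^ G.lev Q := by
  rw [G.card_cube]; push_cast; rfl

lemma card_tri_r (Q : ι) : ((G.tri Q).card : ℝ) ≤ G.A * (G.D : ℝ) ^ G.lev Q := by
  exact_mod_cast G.card_tri Q

lemma cube_zero (x : X) : G.cube (G.cb 0 x) = {x} := by
  ext y
  rw [G.mem_cb_iff, mem_singleton]
  exact ⟨G.cb_zero y x, fun h => by rw [h]⟩

lemma mem_tri_of_cb {k : ℕ} {x y z : X} (hy : y ∈ G.tri (G.cb k x)) (e : G.cb k z = G.cb k y) :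
    z ∈ G.tri (G.cb k x) := by
  have := G.tri_symm k x y hy
  rw [← e] at this
  exact G.tri_symm k z x this

/-- maximal cubes with a given property -/
lemma stopping (P : ι → Prop) (n : ℕ) (W : Finset X) : ∃ B : Finset ι,
    (∀ Q ∈ B, P Q ∧ G.lev Q ≤ n ∧ (∃ x ∈ W, x ∈ G.cube Q) ∧
      ∀ x ∈ G.cube Q, ∀ j, G.lev Q < j → j ≤ n → ¬ P (G.cb j x)) ∧
    (B : Set ι).PairwiseDisjoint G.cube ∧
    ∀ x ∈ W, ∀ j ≤ n, P (G.cb j x) → ∃ Q ∈ B, x ∈ G.cube Q ∧ j ≤ G.lev Q := by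
  have h1 : ∀ Q ∈ ((range (n + 1) ×ˢ W).filter (fun p => P (G.cb p.1 p.2) ∧
      ∀ j, p.1 < j → j ≤ n → ¬ P (G.cb j p.2))).image (fun p => G.cb p.1 p.2),
      P Q ∧ G.lev Q ≤ n ∧ (∃ x ∈ W, x ∈ G.cube Q) ∧
      ∀ x ∈ G.cube Q, ∀ j, G.lev Q < j → j ≤ n → ¬ P (G.cb j x) := by
    intro Q hQ
    obtain ⟨⟨k, x⟩, hp, rfl⟩ := mem_image.1 hQ
    obtain ⟨hp1, hp2, hp3⟩ := mem_filter.1 hp
    obtain ⟨hk, hx⟩ := mem_product.1 hp1
    simp only at hp2 hp3 hk hx ⊢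
    rw [G.lev_cb]
    refine ⟨hp2, Nat.lt_succ_iff.1 (mem_range.1 hk), ⟨x, hx, G.mem_cb k x⟩, fun y hy j hj hn => ?_⟩
    rw [G.cb_le hj.le (G.mem_cb_iff.1 hy)]
    exact hp3 j hj hn
  refine ⟨_, h1, ?_, ?_⟩
  · intro Q hQ Q' hQ' hne
    rw [Function.onFun, disjoint_left]
    intro y hy hy'
    obtain ⟨a1, a2, -, a3⟩ := h1 Q hQ
    obtain ⟨b1, b2, -, b3⟩ := h1 Q' hQ'
    have e := (G.mem_cube _ _).1 hy
    have e' := (G.mem_cube _ _).1 hy'
    rcases lt_trichotomy (G.lev Q) (G.lev Q') with h | h | h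
    · exact a3 y hy _ h b2 (by rwa [e'])
    · exact hne (by rw [← e, ← e', h])
    · exact b3 y hy' _ h a2 (by rwa [e])
  · intro x hx j hj hP
    obtain ⟨k, hk, hmax⟩ := exists_max_image ((range (n + 1)).filter (fun k => P (G.cb k x))) id
      ⟨j, mem_filter.2 ⟨mem_range.2 (by omega), hP⟩⟩
    refine ⟨G.cb k x, mem_image.2 ⟨(k, x), mem_filter.2 ⟨mem_product.2 ⟨(mem_filter.1 hk).1, hx⟩,
      (mem_filter.1 hk).2, fun i hi hn hPi => ?_⟩, rfl⟩, G.mem_cb k x, ?_⟩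
    · have := hmax i (mem_filter.2 ⟨mem_range.2 (by omega), hPi⟩)
      simp only [id] at this hi
      omega
    · rw [G.lev_cb]
      exact hmax j (mem_filter.2 ⟨mem_range.2 (by omega), hP⟩)

/-- summation over the shells around a point -/
lemma shell {C θ M : ℝ} (hC : 0 ≤ C) (hθ : 0 ≤ θ) (hθ1 : θ < 1) (hM : 0 ≤ M) {k n : ℕ}
    (hkn : k ≤ n) (z : X) {e φ : X → ℝ} (hφ : ∀ y, 0 ≤ φ y)
    (he : ∀ j, k ≤ j → ∀ y, y ∉ G.tri (G.cb j z) → e y ≤ C * θ ^ (j - k) / (G.D : ℝ) ^ j)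
    (hm : ∀ j ≤ n, ∑ y ∈ G.tri (G.cb j z), φ y ≤ M * (G.D : ℝ) ^ j) :
    ∑ y ∈ G.tri (G.cb n z) \ G.tri (G.cb k z), e y * φ y ≤ C * G.D / (1 - θ) * M := by
  have hD := G.Dr_pos
  have key : ∀ m, k ≤ m → m ≤ n → ∑ y ∈ G.tri (G.cb m z) \ G.tri (G.cb k z), e y * φ y ≤
      C * G.D / (1 - θ) * M * (1 - θ ^ (m - k)) := by
    intro m hm1
    induction m, hm1 using Nat.le_induction with
    | base => intro _; simp
    | succ m hkm ih =>
      intro hmn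
      have h1 := ih (by omega)
      have h2 : G.tri (G.cb (m + 1) z) \ G.tri (G.cb k z) =
          (G.tri (G.cb m z) \ G.tri (G.cb k z)) ∪ (G.tri (G.cb (m + 1) z) \ G.tri (G.cb m z)) := by
        ext y
        simp only [mem_union, mem_sdiff]
        have a1 := @G.tri_succ m z y
        have a2 : y ∈ G.tri (G.cb k z) → y ∈ G.tri (G.cb m z) := fun h => G.tri_le hkm z h
        tauto
      rw [h2, sum_union (by
        rw [disjoint_left]
        intro y hy hy'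
        exact (mem_sdiff.1 hy').2 (mem_sdiff.1 hy).1)]
      have h3 : ∑ y ∈ G.tri (G.cb (m + 1) z) \ G.tri (G.cb m z), e y * φ y ≤
          C * θ ^ (m - k) / (G.D : ℝ) ^ m * (M * (G.D : ℝ) ^ (m + 1)) := by
        calc _ ≤ ∑ y ∈ G.tri (G.cb (m + 1) z) \ G.tri (G.cb m z),
              C * θ ^ (m - k) / (G.D : ℝ) ^ m * φ y :=
              sum_le_sum (fun y hy => mul_le_mul_of_nonneg_right
                (he m hkm y (mem_sdiff.1 hy).2) (hφ y))
          _ ≤ _ := by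
              rw [← mul_sum]
              exact mul_le_mul_of_nonneg_left ((sum_le_sum_of_subset_of_nonneg sdiff_subset
                (fun y _ _ => hφ y)).trans (hm (m + 1) hmn)) (by positivity)
      have h4 : C * θ ^ (m - k) / (G.D : ℝ) ^ m * (M * (G.D : ℝ) ^ (m + 1)) =
          C * G.D / (1 - θ) * M * (θ ^ (m - k) - θ ^ (m + 1 - k)) := by
        have : 1 - θ ≠ 0 := by linarith
        rw [show m + 1 - k = m - k + 1 by omega, pow_succ, pow_succ]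
        field_simp
      linarith
  refine (key n hkn le_rfl).trans (mul_le_of_le_one_right ?_ ?_)
  · have : 0 < 1 - θ := by linarith
    positivity
  · have : 0 ≤ θ ^ (n - k) := by positivity
    linarith

lemma sum_tri_le {k : ℕ} (x : X) {φ : X → ℝ} {t : ℝ} (ht : 0 ≤ t)
    (h : ∀ y ∈ G.tri (G.cb k x), ∑ z ∈ G.cube (G.cb k y), φ z ≤ t * (G.D : ℝ) ^ k) :
    ∑ y ∈ G.tri (G.cb k x), φ y ≤ G.A * t * (G.D : ℝ) ^ k := by
  have hD : (0 : ℝ) < (G.D : ℝ) ^ k := pow_pos G.Dr_pos k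
  have h1 : ∑ y ∈ G.tri (G.cb k x), ∑ z ∈ G.cube (G.cb k y), φ z =
      (G.D : ℝ) ^ k * ∑ z ∈ G.tri (G.cb k x), φ z := by
    rw [sum_comm' (t' := G.tri (G.cb k x)) (s' := fun z => G.cube (G.cb k z)) (by
      intro y z
      rw [G.mem_cb_iff, G.mem_cb_iff]
      constructor
      · rintro ⟨a1, a2⟩; exact ⟨a2.symm, G.mem_tri_of_cb a1 a2⟩
      · rintro ⟨a1, a2⟩; exact ⟨G.mem_tri_of_cb a2 a1, a1.symm⟩), mul_sum]
    refine sum_congr rfl (fun z _ => ?_)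
    rw [sum_const, nsmul_eq_mul, G.card_cube_r, G.lev_cb]
  have h2 := sum_le_card_nsmul _ _ _ h
  rw [h1, nsmul_eq_mul] at h2
  have h3 := G.card_tri_r (G.cb k x)
  rw [G.lev_cb] at h3
  have h4 := mul_le_mul_of_nonneg_right h3 (show 0 ≤ t * (G.D : ℝ) ^ k by positivity)
  apply le_of_mul_le_mul_left _ hD
  linarith

lemma card_biUnion_tri (B : Finset ι) :
    ((B.biUnion G.tri).card : ℝ) ≤ G.A * ∑ Q ∈ B, (G.D : ℝ) ^ G.lev Q := by
  rw [mul_sum]
  refine le_trans ?_ (sum_le_sum (fun Q _ => G.card_tri_r Q))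
  exact_mod_cast card_biUnion_le

lemma sum_disj_le {B : Finset ι} (hd : (B : Set ι).PairwiseDisjoint G.cube) {φ : X → ℝ}
    (hφ : ∀ y, 0 ≤ φ y) {U : Finset X} (hU : ∀ y, y ∉ U → φ y = 0) :
    ∑ Q ∈ B, ∑ y ∈ G.cube Q, φ y ≤ ∑ y ∈ U, φ y := by
  rw [← sum_biUnion hd, ← sum_subset (inter_subset_left (s₂ := U))
    (fun y h1 h2 => hU y (fun h3 => h2 (mem_inter.2 ⟨h1, h3⟩)))]
  exact sum_le_sum_of_subset_of_nonneg inter_subset_right (fun y _ _ => hφ y)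

/-- weak type bound for the maximal function -/
lemma max_weak {φ : X → ℝ} (hφ : ∀ y, 0 ≤ φ y) {U : Finset X} (hU : ∀ y, y ∉ U → φ y = 0)
    {t : ℝ} (ht : 0 ≤ t) (n : ℕ) : ∃ Ω : Finset X, Ω.card * t ≤ G.A * ∑ y ∈ U, φ y ∧
      ∀ x, x ∉ Ω → ∀ j ≤ n, ∑ y ∈ G.tri (G.cb j x), φ y ≤ G.A * t * (G.D : ℝ) ^ j := by
  obtain ⟨B, h1, h2, h3⟩ := G.stopping
    (fun Q => t * (G.D : ℝ) ^ G.lev Q < ∑ y ∈ G.cube Q, φ y) n U
  refine ⟨B.biUnion G.tri, ?_, fun x hx j hj => G.sum_tri_le x ht (fun y hy => ?_)⟩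
  · refine (mul_le_mul_of_nonneg_right (G.card_biUnion_tri B) ht).trans ?_
    rw [mul_assoc, sum_mul]
    refine mul_le_mul_of_nonneg_left (le_trans (sum_le_sum (fun Q hQ => ?_))
      (G.sum_disj_le h2 hφ hU)) (Nat.cast_nonneg _)
    rw [mul_comm]
    exact (h1 Q hQ).1.le
  · by_contra hc
    rw [not_le] at hc
    have hD : 0 ≤ t * (G.D : ℝ) ^ j := mul_nonneg ht (pow_pos G.Dr_pos j).le
    obtain ⟨z, hz, hz0⟩ := exists_ne_zero_of_sum_ne_zero (hD.trans_lt hc).ne'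
    have hzU : z ∈ U := by by_contra hn; exact hz0 (hU z hn)
    have e := G.mem_cb_iff.1 hz
    obtain ⟨Q, hQ, hzQ, hl⟩ := h3 z hzU j hj (by rw [G.lev_cb, e]; exact hc)
    refine hx (mem_biUnion.2 ⟨Q, hQ, ?_⟩)
    rw [← (G.mem_cube _ _).1 hzQ]
    exact G.tri_le hl z (G.tri_symm j x z (G.mem_tri_of_cb hy e))

end Grid

end Pool.Agent.MP_93f72d_an

end

-- part MP_93f72d_an.Weak
section

/-!
The weak type estimate for discrete kernels (decomposition into a good and a bad part).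
-/

namespace Pool.Agent.MP_93f72d_an

open Finset

open scoped Classical

variable {X ι κ 𝕜 : Type} [RCLike 𝕜] (G : Grid X ι κ)

/-- a discrete kernel: bounded on square-summable sequences, smooth away from the diagonal -/
structure Ker (a : X → X → 𝕜) (C θ : ℝ) : Prop where
  C_nonneg : 0 ≤ C
  θ_nonneg : 0 ≤ θ
  θ_lt : θ < 1
  l2 : ∀ (U V : Finset X) (c : X → 𝕜),
    ∑ x ∈ V, ‖∑ y ∈ U, a x y * c y‖ ^ 2 ≤ C * ∑ y ∈ U, ‖c y‖ ^ 2
  sx : ∀ k j, k ≤ j → ∀ x x' y, G.cb k x = G.cb k x' → y ∉ G.tri (G.cb j x) →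
    ‖a x y - a x' y‖ ≤ C * θ ^ (j - k) / (G.D : ℝ) ^ j
  sy : ∀ k j, k ≤ j → ∀ x y y', G.cb k y = G.cb k y' → x ∉ G.tri (G.cb j y) →
    ‖a x y - a x y'‖ ≤ C * θ ^ (j - k) / (G.D : ℝ) ^ j

variable {G}

lemma card_mul_le_sum {V : Finset X} {h : X → ℝ} (h0 : ∀ x ∈ V, 0 ≤ h x) {t : ℝ}
    (p : X → Prop) (hp : ∀ x ∈ V, p x → t ≤ h x) :
    ((V.filter p).card : ℝ) * t ≤ ∑ x ∈ V, h x := by
  have := card_nsmul_le_sum (V.filter p) h t (fun x hx => hp x (mem_filter.1 hx).1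
    (mem_filter.1 hx).2)
  rw [nsmul_eq_mul] at this
  exact this.trans (sum_le_sum_of_subset_of_nonneg (filter_subset _ _) (fun x hx _ => h0 x hx))

lemma Ker.weak0 {a : X → X → 𝕜} {C θ : ℝ} (h : Ker G a C θ) {n : ℕ} {U V : Finset X}
    (hUV : ∀ x ∈ V, ∀ y ∈ U, y ∈ G.tri (G.cb n x)) {F : X → 𝕜} (hF : ∀ y, y ∉ U → F y = 0)
    {t : ℝ} (ht : 0 < t) (hn : ∑ y ∈ U, ‖F y‖ ≤ t * (G.D : ℝ) ^ n) :
    ((V.filter (fun x => t < ‖∑ y ∈ U, a x y * F y‖)).card : ℝ) * t ≤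
      (G.A + 4 * C * G.D + 4 * (C * G.D / (1 - θ) * G.A)) * ∑ y ∈ U, ‖F y‖ := by
  have hD := G.Dr_pos
  have hD1 := G.one_le_Dr
  have hC := h.C_nonneg
  have hθ : 0 < 1 - θ := by linarith [h.θ_lt]
  have hF' : ∀ y, y ∉ U → ‖F y‖ = 0 := fun y hy => by rw [hF y hy, norm_zero]
  obtain ⟨B, h1, h2, h3⟩ := G.stopping
    (fun Q => t * (G.D : ℝ) ^ G.lev Q < ∑ y ∈ G.cube Q, ‖F y‖) n U
  have hsum := G.sum_disj_le h2 (fun y => norm_nonneg (F y)) hF'
  have hup : ∀ Q ∈ B, ∑ y ∈ G.cube Q, ‖F y‖ ≤ G.D * t * (G.D : ℝ) ^ G.lev Q := by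
    intro Q hQ
    obtain ⟨a1, a2, ⟨x, -, hx⟩, a3⟩ := h1 Q hQ
    have hlt : G.lev Q < n := by
      refine lt_of_le_of_ne a2 (fun he => ?_)
      have := G.sum_disj_le (B := {Q}) (by simp) (fun y => norm_nonneg (F y)) hF'
      rw [sum_singleton] at this
      rw [he] at a1
      linarith
    have a4 := a3 x hx (G.lev Q + 1) (by omega) hlt
    rw [not_lt, G.lev_cb, pow_succ] at a4
    have a5 : ∑ y ∈ G.cube Q, ‖F y‖ ≤ ∑ y ∈ G.cube (G.cb (G.lev Q + 1) x), ‖F y‖ :=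
      sum_le_sum_of_subset_of_nonneg (G.cube_subset hx (by omega)) (fun y _ _ => norm_nonneg _)
    linarith
  set E := B.biUnion G.cube with hE
  have hsmall : ∀ y ∈ U \ E, ‖F y‖ ≤ t := by
    intro y hy
    by_contra hc
    obtain ⟨Q, hQ, hyQ, -⟩ := h3 y (mem_sdiff.1 hy).1 0 (Nat.zero_le _) (by
      rw [G.lev_cb, G.cube_zero, sum_singleton, pow_zero, mul_one]; exact not_le.1 hc)
    exact (mem_sdiff.1 hy).2 (mem_biUnion.2 ⟨Q, hQ, hyQ⟩)
  set m : ι → 𝕜 := fun Q => (∑ y ∈ G.cube Q, F y) / ((G.cube Q).card : 𝕜) with hm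
  have hcard : ∀ Q, (((G.cube Q).card : ℕ) : 𝕜) ≠ 0 := fun Q =>
    Nat.cast_ne_zero.2 (G.cube_nonempty Q).card_pos.ne'
  have hmn : ∀ Q, ‖m Q‖ * (G.D : ℝ) ^ G.lev Q ≤ ∑ y ∈ G.cube Q, ‖F y‖ := by
    intro Q
    simp only [hm]
    rw [norm_div, RCLike.norm_natCast, G.card_cube_r, div_mul_cancel₀ _ (pow_pos hD _).ne']
    exact norm_sum_le _ _
  have hβ : ∀ y, ∃ Q, y ∈ E → Q ∈ B ∧ y ∈ G.cube Q := by
    intro y
    by_cases hy : y ∈ E
    · obtain ⟨Q, hQ, hyQ⟩ := mem_biUnion.1 hy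
      exact ⟨Q, fun _ => ⟨hQ, hyQ⟩⟩
    · exact ⟨G.cb 0 y, fun h => absurd h hy⟩
  choose β hβ using hβ
  set g : X → 𝕜 := fun y => if y ∈ E then m (β y) else F y with hg
  have hgE : ∀ Q ∈ B, ∀ y ∈ G.cube Q, g y = m Q := by
    intro Q hQ y hy
    have hyE : y ∈ E := mem_biUnion.2 ⟨Q, hQ, hy⟩
    have : β y = Q := by
      by_contra hne
      exact disjoint_left.1 (h2 (hβ y hyE).1 hQ hne) (hβ y hyE).2 hy
    simp only [hg]
    rw [if_pos hyE, this]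
  have hgU : ∀ y ∈ U \ E, g y = F y := fun y hy => by
    simp only [hg]; rw [if_neg (mem_sdiff.1 hy).2]
  have split : ∀ {M : Type} [AddCommMonoid M] (u : X → M),
      ∑ y ∈ U ∪ E, u y = ∑ y ∈ U \ E, u y + ∑ Q ∈ B, ∑ y ∈ G.cube Q, u y := by
    intro M _ u
    rw [← sdiff_union_self_eq_union, sum_union sdiff_disjoint, hE, sum_biUnion h2]
  have hFs : ∑ y ∈ U \ E, ‖F y‖ + ∑ Q ∈ B, ∑ y ∈ G.cube Q, ‖F y‖ = ∑ y ∈ U, ‖F y‖ := by
    rw [← split]
    exact (sum_subset subset_union_left (fun y _ hy => hF' y hy)).symm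
  have hg2 : ∑ y ∈ U ∪ E, ‖g y‖ ^ 2 ≤ G.D * t * ∑ y ∈ U, ‖F y‖ := by
    rw [split, ← hFs, mul_add, mul_sum, mul_sum]
    refine add_le_add (sum_le_sum (fun y hy => ?_)) (sum_le_sum (fun Q hQ => ?_))
    · rw [hgU y hy, sq]
      refine mul_le_mul_of_nonneg_right ((hsmall y hy).trans ?_) (norm_nonneg _)
      exact le_mul_of_one_le_left ht.le hD1
    · rw [sum_congr rfl (g := fun _ => ‖m Q‖ ^ 2) (fun y hy => by rw [hgE Q hQ y hy]), sum_const,
        nsmul_eq_mul, G.card_cube_r]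
      have a1 := hmn Q
      have a2 : ‖m Q‖ ≤ G.D * t := le_of_mul_le_mul_right (a1.trans (hup Q hQ)) (pow_pos hD _)
      calc _ = ‖m Q‖ * (‖m Q‖ * (G.D : ℝ) ^ G.lev Q) := by ring
        _ ≤ _ := mul_le_mul a2 a1 (by positivity) (by positivity)
  have hz : ∀ Q, ∃ z, Q ∈ B → z ∈ U ∧ z ∈ G.cube Q := by
    intro Q
    by_cases hQ : Q ∈ B
    · obtain ⟨z, hz⟩ := (h1 Q hQ).2.2.1
      exact ⟨z, fun _ => hz⟩
    · obtain ⟨z, -⟩ := G.cube_nonempty Q
      exact ⟨z, fun h => absurd h hQ⟩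
  choose z hz using hz
  have hdiff : ∀ x, ‖∑ y ∈ U, a x y * F y - ∑ y ∈ U ∪ E, a x y * g y‖ ≤
      ∑ Q ∈ B, ∑ y ∈ G.cube Q, ‖a x (z Q) - a x y‖ * ‖F y - m Q‖ := by
    intro x
    rw [sum_subset (subset_union_left (s₂ := E)) (fun y _ hy => by rw [hF y hy, mul_zero]),
      ← sum_sub_distrib, split, sum_eq_zero (fun y hy => by rw [hgU y hy, sub_self]), zero_add]
    refine (norm_sum_le _ _).trans (sum_le_sum (fun Q hQ => ?_))
    have e1 : ∑ y ∈ G.cube Q, (F y - m Q) = 0 := by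
      rw [sum_sub_distrib, sum_const, nsmul_eq_mul]
      simp only [hm]
      rw [mul_div_cancel₀ _ (hcard Q), sub_self]
    have e2 : ∑ y ∈ G.cube Q, (a x y * F y - a x y * g y) =
        ∑ y ∈ G.cube Q, (a x y - a x (z Q)) * (F y - m Q) := by
      have : ∑ y ∈ G.cube Q, (a x y - a x (z Q)) * (F y - m Q) =
          ∑ y ∈ G.cube Q, a x y * (F y - m Q) - a x (z Q) * ∑ y ∈ G.cube Q, (F y - m Q) := by
        rw [mul_sum, ← sum_sub_distrib]
        exact sum_congr rfl (fun y _ => by ring)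
      rw [this, e1, mul_zero, sub_zero]
      exact sum_congr rfl (fun y hy => by rw [hgE Q hQ y hy]; ring)
    rw [e2]
    refine (norm_sum_le _ _).trans (sum_le_sum (fun y _ => ?_))
    rw [norm_mul, norm_sub_rev]
  have hb : ∑ x ∈ V \ B.biUnion G.tri, ‖∑ y ∈ U, a x y * F y - ∑ y ∈ U ∪ E, a x y * g y‖ ≤
      2 * (C * G.D / (1 - θ) * G.A) * ∑ y ∈ U, ‖F y‖ := by
    refine (sum_le_sum (fun x _ => hdiff x)).trans ?_
    rw [sum_comm]
    refine le_trans (sum_le_sum (fun Q hQ => ?_)) (le_of_eq_of_le (mul_sum _ _ _).symm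
      (mul_le_mul_of_nonneg_left hsum (by positivity)))
    rw [sum_comm]
    have ez := (G.mem_cube _ _).1 (hz Q hQ).2
    calc _ ≤ ∑ y ∈ G.cube Q, (C * G.D / (1 - θ) * G.A) * (‖F y‖ + ‖m Q‖) := by
          apply sum_le_sum
          intro y hy
          rw [← sum_mul]
          refine mul_le_mul ?_ (norm_sub_le _ _) (norm_nonneg _) (by positivity)
          have := G.shell hC h.θ_nonneg h.θ_lt (M := G.A) (Nat.cast_nonneg _) (h1 Q hQ).2.1 (z Q)
            (e := fun x => ‖a x (z Q) - a x y‖) (φ := fun _ => 1) (fun _ => zero_le_one)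
            (fun j hj x hx => h.sy _ j hj x _ y (ez.trans ((G.mem_cube _ _).1 hy).symm) hx)
            (fun j _ => by
              have := G.card_tri_r (G.cb j (z Q))
              rw [G.lev_cb] at this
              simpa using this)
          simp only [mul_one] at this
          refine le_trans (sum_le_sum_of_subset_of_nonneg (fun x hx => ?_)
            (fun x _ _ => norm_nonneg _)) this
          obtain ⟨hx1, hx2⟩ := mem_sdiff.1 hx
          refine mem_sdiff.2 ⟨G.tri_symm n x _ (hUV x hx1 _ (hz Q hQ).1), fun hc => hx2 ?_⟩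
          rw [ez] at hc
          exact mem_biUnion.2 ⟨Q, hQ, hc⟩
      _ ≤ _ := by
          rw [← mul_sum, sum_add_distrib, sum_const, nsmul_eq_mul, G.card_cube_r, mul_comm 2,
            mul_assoc _ 2]
          refine mul_le_mul_of_nonneg_left ?_ (by positivity)
          have := hmn Q
          linarith
  have c1 : ((B.biUnion G.tri).card : ℝ) * t ≤ G.A * ∑ y ∈ U, ‖F y‖ := by
    refine (mul_le_mul_of_nonneg_right (G.card_biUnion_tri B) ht.le).trans ?_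
    rw [mul_assoc, sum_mul]
    refine mul_le_mul_of_nonneg_left (le_trans (sum_le_sum (fun Q hQ => ?_)) hsum)
      (Nat.cast_nonneg _)
    rw [mul_comm]
    exact (h1 Q hQ).1.le
  have c2 := card_mul_le_sum (V := V) (h := fun x => ‖∑ y ∈ U ∪ E, a x y * g y‖ ^ 2)
    (fun x _ => sq_nonneg _) (t := (t / 2) ^ 2) (fun x => t / 2 < ‖∑ y ∈ U ∪ E, a x y * g y‖)
    (fun x _ hx => pow_le_pow_left₀ (by positivity) hx.le 2)
  have c2' : ((V.filter (fun x => t / 2 < ‖∑ y ∈ U ∪ E, a x y * g y‖)).card : ℝ) * t ≤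
      4 * C * G.D * ∑ y ∈ U, ‖F y‖ := by
    have := (c2.trans (h.l2 _ _ _)).trans (mul_le_mul_of_nonneg_left hg2 hC)
    apply le_of_mul_le_mul_left _ ht
    linarith
  have c3 := (card_mul_le_sum (V := V \ B.biUnion G.tri)
    (h := fun x => ‖∑ y ∈ U, a x y * F y - ∑ y ∈ U ∪ E, a x y * g y‖)
    (fun x _ => norm_nonneg _) (t := t / 2)
    (fun x => t / 2 < ‖∑ y ∈ U, a x y * F y - ∑ y ∈ U ∪ E, a x y * g y‖)
    (fun x _ hx => hx.le)).trans hb
  have c4 : V.filter (fun x => t < ‖∑ y ∈ U, a x y * F y‖) ⊆ (B.biUnion G.tri ∪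
      V.filter (fun x => t / 2 < ‖∑ y ∈ U ∪ E, a x y * g y‖)) ∪
      (V \ B.biUnion G.tri).filter
        (fun x => t / 2 < ‖∑ y ∈ U, a x y * F y - ∑ y ∈ U ∪ E, a x y * g y‖) := by
    intro x hx
    obtain ⟨hx1, hx2⟩ := mem_filter.1 hx
    by_contra hc
    rw [mem_union, mem_union, not_or, not_or] at hc
    have d1 : ¬ t / 2 < ‖∑ y ∈ U ∪ E, a x y * g y‖ := fun h => hc.1.2 (mem_filter.2 ⟨hx1, h⟩)
    have d2 : ¬ t / 2 < ‖∑ y ∈ U, a x y * F y - ∑ y ∈ U ∪ E, a x y * g y‖ := fun h =>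
      hc.2 (mem_filter.2 ⟨mem_sdiff.2 ⟨hx1, hc.1.1⟩, h⟩)
    have d3 := norm_le_insert' (∑ y ∈ U, a x y * F y) (∑ y ∈ U ∪ E, a x y * g y)
    linarith
  have c5 := (card_le_card c4).trans ((card_union_le _ _).trans
    (Nat.add_le_add_right (card_union_le _ _) _))
  have c6 := mul_le_mul_of_nonneg_right (Nat.cast_le (α := ℝ) |>.2 c5) ht.le
  push_cast at c6
  linarith

/-- weak type estimate -/
lemma Ker.weak {a : X → X → 𝕜} {C θ : ℝ} (h : Ker G a C θ) {n : ℕ} {U V : Finset X}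
    (hUV : ∀ x ∈ V, ∀ y ∈ U, y ∈ G.tri (G.cb n x)) (F : X → 𝕜)
    {t : ℝ} (ht : 0 < t) (hn : ∑ y ∈ U, ‖F y‖ ≤ t * (G.D : ℝ) ^ n) :
    ((V.filter (fun x => t < ‖∑ y ∈ U, a x y * F y‖)).card : ℝ) * t ≤
      (G.A + 4 * C * G.D + 4 * (C * G.D / (1 - θ) * G.A)) * ∑ y ∈ U, ‖F y‖ := by
  have e1 : ∑ y ∈ U, ‖if y ∈ U then F y else 0‖ = ∑ y ∈ U, ‖F y‖ :=
    sum_congr rfl (fun y hy => by rw [if_pos hy])
  have e2 : ∀ x, ∑ y ∈ U, a x y * (if y ∈ U then F y else 0) = ∑ y ∈ U, a x y * F y :=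
    fun x => sum_congr rfl (fun y hy => by rw [if_pos hy])
  have := h.weak0 hUV (F := fun y => if y ∈ U then F y else 0) (fun y hy => if_neg hy) ht
    (by rw [e1]; exact hn)
  simp only [e1, e2] at this
  exact this

end Pool.Agent.MP_93f72d_an

end

-- part MP_93f72d_an.SD
section

/-!
Pointwise sparse domination for discrete kernels.
-/

namespace Pool.Agent.MP_93f72d_an

open Finset

open scoped Classical

variable {X ι κ 𝕜 : Type} [RCLike 𝕜] {G : Grid X ι κ}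

lemma Ker.weak_frac {C θ : ℝ} (hC : 0 ≤ C) (hθ : θ < 1) : ∃ c, 1 ≤ c ∧ ∀ a : X → X → 𝕜,
    Ker G a C θ → ∀ (Q : ι) (F : X → 𝕜) (t : ℝ), 0 ≤ t →
    ∑ y ∈ G.tri Q, ‖F y‖ ≤ t * (G.D : ℝ) ^ G.lev Q →
    (((G.cube Q).filter (fun x => c * t < ‖∑ y ∈ G.tri Q, a x y * F y‖)).card : ℝ) * (8 * G.D) ≤
      (G.D : ℝ) ^ G.lev Q := by
  have hD := G.Dr_pos
  have hθ' : 0 < 1 - θ := by linarith
  obtain ⟨W, hW, hW0⟩ : ∃ W : ℝ, W = G.A + 4 * C * G.D + 4 * (C * G.D / (1 - θ) * G.A) ∧ 0 ≤ W :=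
    ⟨_, rfl, by positivity⟩
  have hc : 1 ≤ (W + 1) * (8 * G.D) := by nlinarith [G.one_le_Dr]
  refine ⟨(W + 1) * (8 * G.D), hc, fun a h Q F t ht hF => ?_⟩
  rcases ht.eq_or_lt with h0 | h0
  · rw [← h0, zero_mul] at hF
    have hz := (sum_eq_zero_iff_of_nonneg (fun y _ => norm_nonneg (F y))).1
      (le_antisymm hF (sum_nonneg (fun y _ => norm_nonneg _)))
    rw [filter_eq_empty_iff.2 (fun x _ => by
      rw [sum_eq_zero (fun y hy => by rw [norm_eq_zero.1 (hz y hy), mul_zero]), ← h0]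
      simp)]
    simp
  have := h.weak (n := G.lev Q) (U := G.tri Q) (V := G.cube Q) (fun x hx y hy => by
    rwa [(G.mem_cube _ _).1 hx]) F (t := (W + 1) * (8 * G.D) * t) (by positivity)
    (hF.trans (mul_le_mul_of_nonneg_right (le_mul_of_one_le_left ht hc) (by positivity)))
  rw [← hW] at this
  have h2 := this.trans (mul_le_mul (show W ≤ W + 1 by linarith) hF
    (sum_nonneg (fun y _ => norm_nonneg _)) (by positivity))
  apply le_of_mul_le_mul_left _ (show 0 < (W + 1) * t by positivity)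
  linarith

lemma Grid.max_frac (G : Grid X ι κ) : ∃ c, 1 ≤ c ∧ ∀ (Q : ι) (φ : X → ℝ), (∀ y, 0 ≤ φ y) →
    ∀ t : ℝ, 0 ≤ t → ∑ y ∈ G.tri Q, φ y ≤ t * (G.D : ℝ) ^ G.lev Q →
    ∃ Ω : Finset X, (Ω.card : ℝ) * (8 * G.D) ≤ (G.D : ℝ) ^ G.lev Q ∧
      ∀ x ∈ G.cube Q, x ∉ Ω → ∀ j ≤ G.lev Q,
        ∑ y ∈ G.tri (G.cb j x), φ y ≤ c * t * (G.D : ℝ) ^ j := by
  have hD := G.Dr_pos
  have hA : (0 : ℝ) ≤ G.A := Nat.cast_nonneg _
  refine ⟨1 + G.A * ((G.A + 1) * (8 * G.D)), le_add_of_nonneg_right (by positivity),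
    fun Q φ hφ t ht hF => ?_⟩
  have hsub : ∀ x ∈ G.cube Q, ∀ j ≤ G.lev Q, G.tri (G.cb j x) ⊆ G.tri Q := by
    intro x hx j hj
    have := G.tri_le hj x
    rwa [(G.mem_cube _ _).1 hx] at this
  rcases ht.eq_or_lt with h0 | h0
  · refine ⟨∅, by simp, fun x hx _ j hj => ?_⟩
    refine (sum_le_sum_of_subset_of_nonneg (hsub x hx j hj) (fun y _ _ => hφ y)).trans
      (hF.trans ?_)
    rw [← h0]; simp
  obtain ⟨Ω, h1, h2⟩ := G.max_weak (φ := fun y => if y ∈ G.tri Q then φ y else 0)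
    (fun y => by split_ifs; exacts [hφ y, le_rfl]) (U := G.tri Q) (fun y hy => if_neg hy)
    (t := (G.A + 1) * (8 * G.D) * t) (by positivity) (G.lev Q)
  refine ⟨Ω, ?_, fun x hx hxΩ j hj => ?_⟩
  · rw [sum_congr rfl (fun y hy => if_pos hy)] at h1
    have h3 := h1.trans (mul_le_mul (show (G.A : ℝ) ≤ G.A + 1 by linarith) hF
      (sum_nonneg (fun y _ => hφ y)) (by positivity))
    apply le_of_mul_le_mul_left _ (show 0 < (G.A + 1) * t by positivity)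
    linarith
  · have h3 := h2 x hxΩ j hj
    rw [sum_congr rfl (fun y hy => if_pos (hsub x hx j hj hy))] at h3
    refine h3.trans (mul_le_mul_of_nonneg_right ?_ (by positivity))
    linarith

/-- one step of the recursion -/
lemma Ker.step {C θ : ℝ} (hC : 0 ≤ C) (hθ : θ < 1) : ∃ c, 0 ≤ c ∧ ∀ a : X → X → 𝕜,
    Ker G a C θ → ∀ (Q : ι) (F : X → 𝕜) (t : ℝ), 0 ≤ t →
    ∑ y ∈ G.tri Q, ‖F y‖ ≤ t * (G.D : ℝ) ^ G.lev Q →
    ∃ B : Finset ι, (∀ P ∈ B, G.lev P < G.lev Q ∧ G.cube P ⊆ G.cube Q) ∧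
      (B : Set ι).PairwiseDisjoint G.cube ∧
      2 * ∑ P ∈ B, ((G.cube P).card : ℝ) ≤ (G.cube Q).card ∧
      (∀ x ∈ G.cube Q, (∀ P ∈ B, x ∉ G.cube P) → ‖∑ y ∈ G.tri Q, a x y * F y‖ ≤ c * t) ∧
      ∀ P ∈ B, ∀ x ∈ G.cube P,
        ‖∑ y ∈ G.tri Q, a x y * F y‖ ≤ ‖∑ y ∈ G.tri P, a x y * F y‖ + c * t := by
  obtain ⟨c1, hc1, hw⟩ := Ker.weak_frac (G := G) (𝕜 := 𝕜) hC hθ
  obtain ⟨c2, hc2, hm⟩ := G.max_frac
  have hD := G.Dr_pos
  have hD1 := G.one_le_Dr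
  have hθ' : 0 < 1 - θ := by linarith
  have hc1' : 0 ≤ c1 := by linarith
  have hc2' : 0 ≤ c2 := by linarith
  refine ⟨c1 + c1 * c2 + C * G.D / (1 - θ) * c2, by positivity, fun a h Q F t ht hF => ?_⟩
  obtain ⟨Ω2, hΩ2, hgood2⟩ := hm Q (fun y => ‖F y‖) (fun y => norm_nonneg _) t ht hF
  have hΩ1 := hw a h Q F t ht hF
  set Ω := (G.cube Q).filter (fun x => c1 * t < ‖∑ y ∈ G.tri Q, a x y * F y‖) ∪ Ω2 with hΩ
  have hΩc : (Ω.card : ℝ) * (4 * G.D) ≤ (G.D : ℝ) ^ G.lev Q := by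
    have := mul_le_mul_of_nonneg_right (Nat.cast_le (α := ℝ) |>.2 (card_union_le
      ((G.cube Q).filter (fun x => c1 * t < ‖∑ y ∈ G.tri Q, a x y * F y‖)) Ω2))
      (show 0 ≤ 4 * (G.D : ℝ) by positivity)
    push_cast at this
    linarith
  have hgood1 : ∀ x ∈ G.cube Q, x ∉ Ω → ‖∑ y ∈ G.tri Q, a x y * F y‖ ≤ c1 * t := fun x hx hn =>
    not_lt.1 (fun hc => hn (mem_union_left _ (mem_filter.2 ⟨hx, hc⟩)))
  obtain ⟨B, h1, h2, h3⟩ := G.stopping
    (fun P => ((G.cube P).card : ℝ) < 2 * G.D * (G.cube P ∩ Ω).card) (G.lev Q) (G.cube Q ∩ Ω)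
  have hB : ∀ P ∈ B, G.lev P < G.lev Q ∧ G.cube P ⊆ G.cube Q := by
    intro P hP
    obtain ⟨a1, a2, ⟨x, hx, hxP⟩, -⟩ := h1 P hP
    have a3 := G.cube_subset hxP a2
    rw [(G.mem_cube _ _).1 (mem_inter.1 hx).1] at a3
    refine ⟨lt_of_le_of_ne a2 (fun he => ?_), a3⟩
    rw [G.card_cube_r, he] at a1
    have a4 : ((G.cube P ∩ Ω).card : ℝ) ≤ Ω.card := by
      exact_mod_cast card_le_card inter_subset_right
    have a5 : (0 : ℝ) ≤ Ω.card := Nat.cast_nonneg _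
    nlinarith
  have hpos : 0 ≤ c1 * c2 * t + C * G.D / (1 - θ) * c2 * t := by positivity
  refine ⟨B, hB, h2, ?_, fun x hx hn => ?_, fun P hP x hx => ?_⟩
  · have a1 : ∑ P ∈ B, ((G.cube P).card : ℝ) ≤ ∑ P ∈ B, 2 * G.D * ((G.cube P ∩ Ω).card : ℝ) :=
      sum_le_sum (fun P hP => (h1 P hP).1.le)
    have a2 : ∑ P ∈ B, (G.cube P ∩ Ω).card ≤ Ω.card := by
      rw [← card_biUnion (fun P hP P' hP' hne => (h2 hP hP' hne).mono inter_subset_left
        inter_subset_left)]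
      exact card_le_card (biUnion_subset.2 (fun P _ => inter_subset_right))
    have a3 : ∑ P ∈ B, ((G.cube P ∩ Ω).card : ℝ) ≤ Ω.card := by exact_mod_cast a2
    rw [← mul_sum] at a1
    rw [G.card_cube_r Q]
    nlinarith
  · have : x ∉ Ω := by
      intro hxΩ
      obtain ⟨P, hP, hxP, -⟩ := h3 x (mem_inter.2 ⟨hx, hxΩ⟩) 0 (Nat.zero_le _) (by
        rw [G.cube_zero, singleton_inter_of_mem hxΩ, card_singleton]
        push_cast
        linarith)
      exact hn P hP hxP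
    have := hgood1 x hx this
    linarith
  obtain ⟨hl, hsub⟩ := hB P hP
  have hDP : (0 : ℝ) < (G.D : ℝ) ^ G.lev P := pow_pos hD _
  have hhalf : 2 * ((G.cube P ∩ Ω).card : ℝ) ≤ (G.D : ℝ) ^ G.lev P := by
    have a1 := (h1 P hP).2.2.2 x hx (G.lev P + 1) (by omega) hl
    rw [not_lt, G.card_cube_r, G.lev_cb, pow_succ] at a1
    have a2 : ((G.cube P ∩ Ω).card : ℝ) ≤ (G.cube (G.cb (G.lev P + 1) x) ∩ Ω).card := by
      exact_mod_cast card_le_card (inter_subset_inter_right (G.cube_subset hx (by omega)))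
    apply le_of_mul_le_mul_left _ hD
    nlinarith
  have hex : ∀ Z : Finset X, (Z.card : ℝ) * 8 ≤ (G.D : ℝ) ^ G.lev P →
      ∃ x' ∈ G.cube P, x' ∉ Ω ∧ x' ∉ Z := by
    intro Z hZ
    by_contra hc
    push Not at hc
    have a1 : G.cube P ⊆ (G.cube P ∩ Ω) ∪ Z := by
      intro y hy
      by_cases hyΩ : y ∈ Ω
      · exact mem_union_left _ (mem_inter.2 ⟨hy, hyΩ⟩)
      · exact mem_union_right _ (hc y hy hyΩ)
    have a2 := Nat.cast_le (α := ℝ) |>.2 ((card_le_card a1).trans (card_union_le _ _))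
    push_cast at a2
    rw [G.card_cube_r] at a2
    linarith
  have havg : ∀ x' ∈ G.cube P, x' ∉ Ω → ∀ j ≤ G.lev Q,
      ∑ y ∈ G.tri (G.cb j x'), ‖F y‖ ≤ c2 * t * (G.D : ℝ) ^ j := fun x' hx' hn =>
    hgood2 x' (hsub hx') (fun hc => hn (mem_union_right _ hc))
  have hFP : ∑ y ∈ G.tri P, ‖F y‖ ≤ c2 * t * (G.D : ℝ) ^ G.lev P := by
    obtain ⟨x', hx', hn, -⟩ := hex ∅ (by simp)
    have := havg x' hx' hn (G.lev P) hl.le
    rwa [(G.mem_cube _ _).1 hx'] at this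
  have hZ := hw a h P F (c2 * t) (by positivity) hFP
  obtain ⟨x', hx', hn, hZ'⟩ := hex _ (le_trans (mul_le_mul_of_nonneg_left
    (show (8 : ℝ) ≤ 8 * G.D by linarith) (Nat.cast_nonneg _)) hZ)
  have b1 : ‖∑ y ∈ G.tri P, a x' y * F y‖ ≤ c1 * (c2 * t) :=
    not_lt.1 (fun hc => hZ' (mem_filter.2 ⟨hx', hc⟩))
  have b2 := hgood1 x' (hsub hx') hn
  have eP := (G.mem_cube _ _).1 hx'
  have eQ := (G.mem_cube _ _).1 (hsub hx')
  have b3 := G.shell hC h.θ_nonneg hθ (M := c2 * t) (by positivity) hl.le x'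
    (e := fun y => ‖a x' y - a x y‖) (φ := fun y => ‖F y‖) (fun _ => norm_nonneg _)
    (fun j hj y hy => h.sx _ j hj x' x y (eP.trans ((G.mem_cube _ _).1 hx).symm) hy)
    (havg x' hx' hn)
  have htri : G.tri P ⊆ G.tri Q := by
    have := G.tri_le hl.le x'
    rwa [eP, eQ] at this
  rw [eP, eQ] at b3
  have b4 : ‖∑ y ∈ G.tri Q \ G.tri P, a x' y * F y - ∑ y ∈ G.tri Q \ G.tri P, a x y * F y‖ ≤
      C * G.D / (1 - θ) * (c2 * t) := by
    rw [← sum_sub_distrib]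
    refine (norm_sum_le _ _).trans (le_trans (sum_le_sum (fun y _ => ?_)) b3)
    rw [← sub_mul, norm_mul]
  rw [sum_sdiff_eq_sub htri, sum_sdiff_eq_sub htri] at b4
  generalize ∑ y ∈ G.tri Q, a x y * F y = u at b4 ⊢
  generalize ∑ y ∈ G.tri P, a x y * F y = v at b4 ⊢
  generalize ∑ y ∈ G.tri Q, a x' y * F y = u' at b4 b2
  generalize ∑ y ∈ G.tri P, a x' y * F y = v' at b4 b1
  have b5 : u = v + (u' - v') - (u' - v' - (u - v)) := by ring
  have b6 : ‖u‖ ≤ ‖v‖ + (‖u'‖ + ‖v'‖) + ‖u' - v' - (u - v)‖ := by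
    conv_lhs => rw [b5]
    exact (norm_sub_le _ _).trans (add_le_add ((norm_add_le _ _).trans
      (add_le_add le_rfl (norm_sub_le _ _))) le_rfl)
  linarith

lemma sum_biUnion_le' {α β : Type} (B : Finset α) (S : α → Finset β) {f : β → ℝ}
    (hf : ∀ b, 0 ≤ f b) : ∑ b ∈ B.biUnion S, f b ≤ ∑ a ∈ B, ∑ b ∈ S a, f b := by
  induction B using Finset.induction_on with
  | empty => simp
  | insert a B ha ih =>
    rw [biUnion_insert, sum_insert ha]
    have := sum_union_inter (s₁ := S a) (s₂ := B.biUnion S) (f := f)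
    have h2 : 0 ≤ ∑ b ∈ S a ∩ B.biUnion S, f b := sum_nonneg (fun b _ => hf b)
    linarith

/-- pointwise sparse domination -/
lemma Ker.sparse_dom {C θ : ℝ} (hC : 0 ≤ C) (hθ : θ < 1) : ∃ c, 0 ≤ c ∧ ∀ a : X → X → 𝕜,
    Ker G a C θ → ∀ (F : X → 𝕜) (Q : ι), ∃ S : Finset ι,
      (∀ P ∈ S, G.lev P ≤ G.lev Q ∧ G.cube P ⊆ G.cube Q) ∧
      (∀ W : Finset X, ∑ P ∈ S.filter (fun P => G.cube P ⊆ W), ((G.cube P).card : ℝ) ≤
        2 * (W ∩ G.cube Q).card) ∧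
      ∀ x ∈ G.cube Q, ‖∑ y ∈ G.tri Q, a x y * F y‖ ≤
        c * ∑ P ∈ S.filter (fun P => x ∈ G.cube P),
          (∑ y ∈ G.tri P, ‖F y‖) / (G.D : ℝ) ^ G.lev P := by
  obtain ⟨c, hc, hstep⟩ := Ker.step (G := G) (𝕜 := 𝕜) hC hθ
  refine ⟨c, hc, fun a h F Q => ?_⟩
  have hD := G.Dr_pos
  induction hn : G.lev Q using Nat.strong_induction_on generalizing Q with
  | _ n ih =>
  subst hn
  have hav : ∀ P, 0 ≤ (∑ y ∈ G.tri P, ‖F y‖) / (G.D : ℝ) ^ G.lev P := fun P =>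
    div_nonneg (sum_nonneg (fun y _ => norm_nonneg _)) (by positivity)
  obtain ⟨B, h1, h2, h3, h4, h5⟩ := hstep a h Q F _ (hav Q)
    (div_mul_cancel₀ _ (pow_pos hD _).ne').ge
  have hS : ∀ P, ∃ S : Finset ι, P ∈ B →
      (∀ P' ∈ S, G.lev P' ≤ G.lev P ∧ G.cube P' ⊆ G.cube P) ∧
      (∀ W : Finset X, ∑ P' ∈ S.filter (fun P' => G.cube P' ⊆ W), ((G.cube P').card : ℝ) ≤
        2 * (W ∩ G.cube P).card) ∧
      ∀ x ∈ G.cube P, ‖∑ y ∈ G.tri P, a x y * F y‖ ≤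
        c * ∑ P' ∈ S.filter (fun P' => x ∈ G.cube P'),
          (∑ y ∈ G.tri P', ‖F y‖) / (G.D : ℝ) ^ G.lev P' := by
    intro P
    by_cases hP : P ∈ B
    · obtain ⟨S, hS⟩ := ih (G.lev P) (h1 P hP).1 P rfl
      exact ⟨S, fun _ => hS⟩
    · exact ⟨∅, fun h => absurd h hP⟩
  choose S hS using hS
  refine ⟨insert Q (B.biUnion S), fun P hP => ?_, fun W => ?_, fun x hx => ?_⟩
  · rcases mem_insert.1 hP with rfl | hP
    · exact ⟨le_rfl, Subset.refl _⟩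
    · obtain ⟨P', hP', hP⟩ := mem_biUnion.1 hP
      exact ⟨((hS P' hP').1 P hP).1.trans (h1 P' hP').1.le,
        ((hS P' hP').1 P hP).2.trans (h1 P' hP').2⟩
  · have a1 : ∑ P ∈ (B.biUnion S).filter (fun P => G.cube P ⊆ W), ((G.cube P).card : ℝ) ≤
        2 * ∑ P ∈ B, ((W ∩ G.cube P).card : ℝ) := by
      rw [filter_biUnion, mul_sum]
      exact (sum_biUnion_le' _ _ (fun _ => Nat.cast_nonneg _)).trans
        (sum_le_sum (fun P hP => (hS P hP).2.1 W))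
    rw [filter_insert]
    split_ifs with hQW
    · have a2 : ∑ P ∈ B, ((W ∩ G.cube P).card : ℝ) ≤ ∑ P ∈ B, ((G.cube P).card : ℝ) :=
        sum_le_sum (fun P _ => by exact_mod_cast card_le_card inter_subset_right)
      rw [sum_insert (fun hc => by
        obtain ⟨P', hP', hP⟩ := mem_biUnion.1 (mem_filter.1 hc).1
        have := ((hS P' hP').1 Q hP).1
        have := (h1 P' hP').1
        omega), inter_eq_right.2 hQW]
      linarith
    · refine a1.trans (mul_le_mul_of_nonneg_left ?_ (by norm_num))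
      have a2 : ∑ P ∈ B, (W ∩ G.cube P).card ≤ (W ∩ G.cube Q).card := by
        rw [← card_biUnion (fun P hP P' hP' hne => (h2 hP hP' hne).mono inter_subset_right
          inter_subset_right)]
        exact card_le_card (biUnion_subset.2 (fun P hP => inter_subset_inter_left (h1 P hP).2))
      exact_mod_cast a2
  · rw [filter_insert, if_pos hx, sum_insert (fun hc => by
        obtain ⟨P', hP', hP⟩ := mem_biUnion.1 (mem_filter.1 hc).1
        have := ((hS P' hP').1 Q hP).1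
        have := (h1 P' hP').1
        omega), mul_add]
    by_cases hxB : ∃ P ∈ B, x ∈ G.cube P
    · obtain ⟨P, hP, hxP⟩ := hxB
      have a1 := h5 P hP x hxP
      have a2 := (hS P hP).2.2 x hxP
      have a3 := mul_le_mul_of_nonneg_left (sum_le_sum_of_subset_of_nonneg
        (filter_subset_filter (fun P => x ∈ G.cube P) (subset_biUnion_of_mem S hP))
        (fun P _ _ => hav P)) hc
      linarith
    · push Not at hxB
      have a1 := h4 x hx hxB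
      have a2 := mul_nonneg hc (sum_nonneg (s := (B.biUnion S).filter (fun P => x ∈ G.cube P))
        (fun P _ => hav P))
      linarith

end Pool.Agent.MP_93f72d_an

end
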