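import Pool.Agent.MP_93f72d_an.Mg.SD

-- part MP_93f72d_an.Disc
section

/-!
The two-weight bound for discrete kernels under separated bumps.
-/

namespace Pool.Agent.MP_93f72d_an

open Finset

open scoped Classical

variable {X ι κ 𝕜 : Type} [RCLike 𝕜]

lemma carleson_bil {Φ₁ Φ₂ : ℝ → ℝ} (h₁ : YD Φ₁) (h₂ : YD Φ₂) {K : ℝ} (hK : 0 ≤ K) (Λ : ℕ) :
    ∃ C, 0 ≤ C ∧ ∀ (w σ f g : X → ℝ), (∀ x, 0 ≤ w x) → (∀ x, 0 ≤ σ x) → (∀ x, 0 ≤ f x) →
    (∀ x, 0 ≤ g x) → ∀ S : Finset (Finset X), Lam S →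
    (∀ Q ∈ S, ∑ Z ∈ S.filter (fun Z => Z ⊆ Q), (Z.card : ℝ) ≤ Λ * Q.card) →
    (∀ Q ∈ S, ms σ Q * dlux Φ₁ w Q ≤ K * Q.card) → (∀ Q ∈ S, ms w Q * dlux Φ₂ σ Q ≤ K * Q.card) →
    ∀ U : Finset X, (∀ Q ∈ S, Q ⊆ U) →
    ∑ Q ∈ S, 1 / (Q.card : ℝ) * ms (fun x => f x * w x) Q * ms (fun x => g x * σ x) Q ≤
      C * (∑ x ∈ U, f x ^ 2 * w x + ∑ x ∈ U, g x ^ 2 * σ x) := by
  obtain ⟨C, hC, hb⟩ := sparse_bil (X := X) h₁ h₂ hK
  refine ⟨(128 * Λ + 1 : ℕ) * C, by positivity, ?_⟩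
  intro w σ f g hw hσ hf hg S hS hcar hK1 hK2 U hU
  rw [← sum_fiberwise_of_maps_to (g := fun Q => dep S Q % (128 * Λ + 1))
    (t := range (128 * Λ + 1)) (fun Q _ => mem_range.2 (Nat.mod_lt _ (by omega)))]
  refine (sum_le_card_nsmul _ _ _ (fun r _ => hb w σ f g hw hσ hf hg _
    (hS.mono (filter_subset _ _)) (sparse_of_carleson (Λ := Λ) (fun _ => zero_le_one) hS (by omega)
      (by push_cast; linarith) (by simpa only [ms_one] using hcar) r)
    (fun Q hQ => hK1 Q (mem_filter.1 hQ).1) (fun Q hQ => hK2 Q (mem_filter.1 hQ).1) U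
    (fun Q hQ => hU Q (mem_filter.1 hQ).1))).trans ?_
  rw [card_range, nsmul_eq_mul, mul_assoc]

lemma grid_bil [Fintype κ] (G : Grid X ι κ) {Φ₁ Φ₂ : ℝ → ℝ} (h₁ : YD Φ₁) (h₂ : YD Φ₂) {K : ℝ}
    (hK : 0 ≤ K) :
    ∃ C, 0 ≤ C ∧ ∀ (w σ f g : X → ℝ), (∀ x, 0 ≤ w x) → (∀ x, 0 ≤ σ x) → (∀ x, 0 ≤ f x) →
    (∀ x, 0 ≤ g x) → ∀ S : Finset ι,
    (∀ W : Finset X, ∑ P ∈ S.filter (fun P => G.cube P ⊆ W), ((G.cube P).card : ℝ) ≤ 2 * W.card) →
    (∀ Q, ms σ (G.tri Q) * dlux Φ₁ w (G.tri Q) ≤ K * (G.tri Q).card) →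
    (∀ Q, ms w (G.tri Q) * dlux Φ₂ σ (G.tri Q) ≤ K * (G.tri Q).card) →
    ∀ U : Finset X, (∀ Q ∈ S, G.tri Q ⊆ U) →
    ∑ Q ∈ S, ms (fun x => f x * w x) (G.tri Q) / (G.D : ℝ) ^ G.lev Q *
      ms (fun x => g x * σ x) (G.cube Q) ≤
      C * (∑ x ∈ U, f x ^ 2 * w x + ∑ x ∈ U, g x ^ 2 * σ x) := by
  obtain ⟨C, hC, hb⟩ := carleson_bil (X := X) h₁ h₂ hK (2 * G.A)
  refine ⟨G.A * (Fintype.card κ * C), by positivity, ?_⟩
  intro w σ f g hw hσ hf hg S hcar hK1 hK2 U hU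
  have hD := G.Dr_pos
  have hne : ∀ Q, (G.tri Q).Nonempty := fun Q => (G.cube_nonempty Q).mono (G.cube_subset_tri Q)
  calc _ ≤ ∑ Q ∈ S, G.A * (1 / ((G.tri Q).card : ℝ) * ms (fun x => f x * w x) (G.tri Q) *
        ms (fun x => g x * σ x) (G.tri Q)) := by
        apply sum_le_sum
        intro Q _
        have a1 := ms_nonneg (fun x => mul_nonneg (hf x) (hw x)) (G.tri Q)
        have a2 := ms_mono (fun x => mul_nonneg (hg x) (hσ x)) (G.cube_subset_tri Q)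
        have a3 := ms_nonneg (fun x => mul_nonneg (hg x) (hσ x)) (G.cube Q)
        have a4 : (0 : ℝ) < (G.tri Q).card := by exact_mod_cast (hne Q).card_pos
        have a5 : 1 / (G.D : ℝ) ^ G.lev Q ≤ G.A * (1 / ((G.tri Q).card : ℝ)) := by
          rw [mul_one_div, div_le_div_iff₀ (by positivity) a4, one_mul]
          exact G.card_tri_r Q
        rw [div_eq_mul_one_div, mul_comm (ms _ _), ← mul_assoc, ← mul_assoc]
        exact mul_le_mul (mul_le_mul_of_nonneg_right a5 a1) a2 a3 (by positivity)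
    _ ≤ _ := by
        rw [← mul_sum, mul_assoc]
        refine mul_le_mul_of_nonneg_left ?_ (Nat.cast_nonneg _)
        rw [← sum_fiberwise_of_maps_to (g := G.col) (t := univ) (fun Q _ => mem_univ _)]
        refine (sum_le_card_nsmul _ _ (C * (∑ x ∈ U, f x ^ 2 * w x + ∑ x ∈ U, g x ^ 2 * σ x))
          (fun c _ => ?_)).trans (by rw [card_univ, nsmul_eq_mul, mul_assoc])
        have hinj : ∀ T : Finset ι, Set.InjOn G.tri T := fun T Q _ Q' _ he => G.tri_inj Q Q' he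
        rw [← sum_image (f := fun Z : Finset X => 1 / (Z.card : ℝ) * ms (fun x => f x * w x) Z *
          ms (fun x => g x * σ x) Z) (hinj _)]
        refine hb w σ f g hw hσ hf hg _ ⟨fun Z hZ => ?_, fun Z hZ Z' hZ' => ?_⟩ (fun Z hZ => ?_)
          (fun Z hZ => ?_) (fun Z hZ => ?_) U (fun Z hZ => ?_)
        · obtain ⟨Q, -, rfl⟩ := mem_image.1 hZ
          exact hne Q
        · obtain ⟨Q, hQ, rfl⟩ := mem_image.1 hZ
          obtain ⟨Q', hQ', rfl⟩ := mem_image.1 hZ'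
          exact G.tri_lam Q Q' (by rw [(mem_filter.1 hQ).2, (mem_filter.1 hQ').2])
        · rw [filter_image, sum_image (hinj _)]
          calc _ ≤ ∑ P ∈ S.filter (fun P => G.cube P ⊆ Z), G.A * ((G.cube P).card : ℝ) := by
                refine le_trans (sum_le_sum (fun P _ => ?_)) (sum_le_sum_of_subset_of_nonneg
                  (fun P hP => mem_filter.2 ⟨(mem_filter.1 (mem_filter.1 hP).1).1,
                    (G.cube_subset_tri P).trans (mem_filter.1 hP).2⟩) (fun P _ _ => by positivity))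
                rw [G.card_cube_r]
                exact G.card_tri_r P
            _ ≤ _ := by
                rw [← mul_sum]
                have := mul_le_mul_of_nonneg_left (hcar Z) (Nat.cast_nonneg (α := ℝ) G.A)
                push_cast
                linarith
        · obtain ⟨Q, -, rfl⟩ := mem_image.1 hZ
          exact hK1 Q
        · obtain ⟨Q, -, rfl⟩ := mem_image.1 hZ
          exact hK2 Q
        · obtain ⟨Q, hQ, rfl⟩ := mem_image.1 hZ
          exact hU Q (mem_filter.1 hQ).1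

lemma Grid.card_image_cb (G : Grid X ι κ) {n : ℕ} {z : X} {V : Finset X}
    (hV : V ⊆ G.tri (G.cb n z)) : (V.image (G.cb n)).card ≤ G.A := by
  have h1 : ((V.image (G.cb n)).biUnion G.cube).card = (V.image (G.cb n)).card * G.D ^ n := by
    rw [card_biUnion, sum_congr rfl (g := fun _ => G.D ^ n), sum_const, smul_eq_mul]
    · intro Q hQ
      obtain ⟨x, -, rfl⟩ := mem_image.1 hQ
      rw [G.card_cube, G.lev_cb]
    · intro Q hQ Q' hQ' hne
      obtain ⟨x, -, rfl⟩ := mem_image.1 (mem_coe.1 hQ)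
      obtain ⟨x', -, rfl⟩ := mem_image.1 (mem_coe.1 hQ')
      rw [Function.onFun, disjoint_left]
      intro y hy hy'
      exact hne ((G.mem_cb_iff.1 hy).symm.trans (G.mem_cb_iff.1 hy'))
  have h2 : (V.image (G.cb n)).biUnion G.cube ⊆ G.tri (G.cb n z) := by
    intro y hy
    obtain ⟨Q, hQ, hy⟩ := mem_biUnion.1 hy
    obtain ⟨x, hx, rfl⟩ := mem_image.1 hQ
    exact G.mem_tri_of_cb (hV hx) (G.mem_cb_iff.1 hy)
  have h3 := (card_le_card h2).trans (G.card_tri _)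
  rw [h1, G.lev_cb] at h3
  exact Nat.le_of_mul_le_mul_right h3 (pow_pos G.D_pos n)

/-- the discrete two-weight estimate -/
theorem disc_bound [Fintype κ] (G : Grid X ι κ) {Φ₁ Φ₂ : ℝ → ℝ} (h₁ : YD Φ₁) (h₂ : YD Φ₂)
    {K C θ : ℝ} (hK : 0 ≤ K) (hC : 0 ≤ C) (hθ : θ < 1) :
    ∃ C', 0 ≤ C' ∧ ∀ a : X → X → 𝕜, Ker G a C θ → ∀ (w σ : X → ℝ), (∀ x, 0 ≤ w x) →
    (∀ x, 0 ≤ σ x) → (∀ Q, ms σ (G.tri Q) * dlux Φ₁ w (G.tri Q) ≤ K * (G.tri Q).card) →
    (∀ Q, ms w (G.tri Q) * dlux Φ₂ σ (G.tri Q) ≤ K * (G.tri Q).card) →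
    ∀ (n : ℕ) (z : X) (U V : Finset X), V ⊆ G.tri (G.cb n z) →
    (∀ x ∈ V, ∀ y ∈ U, y ∈ G.tri (G.cb n x)) → ∀ (F : X → 𝕜) (φ : X → ℝ), (∀ y, 0 ≤ φ y) →
    (∀ y, ‖F y‖ ^ 2 ≤ φ y * w y) →
    ∑ x ∈ V, ‖∑ y ∈ U, a x y * F y‖ ^ 2 * σ x ≤ C' * ∑ y ∈ U, φ y := by
  obtain ⟨c, hc, hsd⟩ := Ker.sparse_dom (G := G) (𝕜 := 𝕜) hC hθ
  obtain ⟨C1, hC1, hb⟩ := grid_bil G h₁ h₂ hK
  refine ⟨G.A * (c ^ 2 * (4 * C1 * (C1 + 1))), by positivity, ?_⟩
  intro a h w σ hw hσ hK1 hK2 n z U V hV hUV F φ hφ hF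
  have hD := G.Dr_pos
  have hφU : 0 ≤ ∑ y ∈ U, φ y := sum_nonneg (fun y _ => hφ y)
  set F' : X → 𝕜 := fun y => if y ∈ U then F y else 0 with hF'
  set f : X → ℝ := fun y => ‖F' y‖ / w y with hf
  have hF'2 : ∀ y, ‖F' y‖ ^ 2 ≤ (if y ∈ U then φ y else 0) * w y := by
    intro y
    simp only [hF']
    split_ifs
    · exact hF y
    · simp
  have hfw : ∀ y, f y * w y = ‖F' y‖ := by
    intro y
    rcases (hw y).eq_or_lt with h0 | h0
    · have := hF'2 y
      rw [← h0, mul_zero] at this ⊢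
      exact (pow_eq_zero_iff (two_ne_zero)).1 (le_antisymm this (sq_nonneg _)) |>.symm
    · exact div_mul_cancel₀ _ h0.ne'
  have hf0 : ∀ y, 0 ≤ f y := fun y => div_nonneg (norm_nonneg _) (hw y)
  have hf2 : ∀ W : Finset X, ∑ y ∈ W, f y ^ 2 * w y ≤ ∑ y ∈ U, φ y := by
    intro W
    calc _ ≤ ∑ y ∈ W, (if y ∈ U then φ y else 0) := by
          apply sum_le_sum
          intro y _
          rcases (hw y).eq_or_lt with h0 | h0
          · rw [← h0, mul_zero]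
            split_ifs
            exacts [hφ y, le_rfl]
          · apply le_of_mul_le_mul_right _ h0
            calc _ = (f y * w y) ^ 2 := by ring
              _ ≤ _ := by rw [hfw]; exact hF'2 y
      _ ≤ _ := by
          rw [← sum_filter]
          exact sum_le_sum_of_subset_of_nonneg (fun y hy => (mem_filter.1 hy).2)
            (fun y _ _ => hφ y)
  have hQ : ∀ Q, ∑ x ∈ G.cube Q, ‖∑ y ∈ G.tri Q, a x y * F' y‖ ^ 2 * σ x ≤
      c ^ 2 * (4 * C1 * (C1 + 1)) * ∑ y ∈ U, φ y := by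
    intro Q
    obtain ⟨S, s1, s2, s3⟩ := hsd a h F' Q
    set T : X → ℝ := fun x => ∑ P ∈ S.filter (fun P => x ∈ G.cube P),
      (∑ y ∈ G.tri P, ‖F' y‖) / (G.D : ℝ) ^ G.lev P with hT
    have hT0 : ∀ x, 0 ≤ T x := fun x => sum_nonneg (fun P _ =>
      div_nonneg (sum_nonneg (fun y _ => norm_nonneg _)) (by positivity))
    obtain ⟨ε, hε, hε2⟩ : ∃ ε : ℝ, 0 < ε ∧ ε * (2 * (C1 + 1)) = 1 :=
      ⟨1 / (2 * (C1 + 1)), by positivity, by field_simp⟩
    have := hb w σ f (fun x => if x ∈ G.cube Q then ε * T x else 0) hw hσ hf0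
      (fun x => by split_ifs; exacts [mul_nonneg hε.le (hT0 x), le_rfl]) S
      (fun W => (s2 W).trans (mul_le_mul_of_nonneg_left
        (by exact_mod_cast card_le_card inter_subset_left) (by norm_num))) hK1 hK2 (G.tri Q)
      (fun P hP => by
        obtain ⟨x, hx⟩ := G.cube_nonempty P
        have := G.tri_le (s1 P hP).1 x
        rwa [(G.mem_cube _ _).1 hx, (G.mem_cube _ _).1 ((s1 P hP).2 hx)] at this)
    have e1 : ∑ x ∈ G.tri Q, (if x ∈ G.cube Q then ε * T x else 0) ^ 2 * σ x =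
        ε ^ 2 * ∑ x ∈ G.cube Q, T x ^ 2 * σ x := by
      rw [← sum_subset (G.cube_subset_tri Q) (fun x _ hx => by rw [if_neg hx]; simp), mul_sum]
      exact sum_congr rfl (fun x hx => by rw [if_pos hx]; ring)
    have e2 : ∑ P ∈ S, ms (fun x => f x * w x) (G.tri P) / (G.D : ℝ) ^ G.lev P *
        ms (fun x => (if x ∈ G.cube Q then ε * T x else 0) * σ x) (G.cube P) =
        ε * ∑ x ∈ G.cube Q, T x ^ 2 * σ x := by
      simp only [hfw, ms]
      simp_rw [mul_sum]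
      rw [sum_comm' (t' := G.cube Q) (s' := fun x => S.filter (fun P => x ∈ G.cube P)) (by
        intro P x
        simp only [mem_filter]
        constructor
        · rintro ⟨a1, a2⟩; exact ⟨⟨a1, a2⟩, (s1 P a1).2 a2⟩
        · rintro ⟨a1, -⟩; exact a1)]
      refine sum_congr rfl (fun x hx => ?_)
      rw [← sum_mul, if_pos hx]
      change T x * _ = _
      ring
    rw [e1, e2] at this
    have hN : 0 ≤ ∑ x ∈ G.cube Q, T x ^ 2 * σ x :=
      sum_nonneg (fun x _ => mul_nonneg (sq_nonneg _) (hσ x))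
    have a1 := mul_le_mul_of_nonneg_left (hf2 (G.tri Q)) hC1
    have a2 : ∑ x ∈ G.cube Q, T x ^ 2 * σ x ≤ 4 * C1 * (C1 + 1) * ∑ y ∈ U, φ y := by
      generalize ∑ x ∈ G.cube Q, T x ^ 2 * σ x = N at this hN ⊢
      have b1 : ε * N ≤ 2 * (C1 * ∑ y ∈ U, φ y) := by
        have b2 : C1 * ε ≤ 1 / 2 := by nlinarith
        have b3 := mul_le_mul_of_nonneg_right b2 (mul_nonneg hε.le hN)
        nlinarith
      have b4 := mul_le_mul_of_nonneg_right b1 (show 0 ≤ 2 * (C1 + 1) by positivity)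
      calc N = ε * N * (2 * (C1 + 1)) := by rw [mul_right_comm, hε2, one_mul]
        _ ≤ _ := b4
        _ = _ := by ring
    calc _ ≤ ∑ x ∈ G.cube Q, c ^ 2 * (T x ^ 2 * σ x) := by
          apply sum_le_sum
          intro x hx
          rw [← mul_assoc, ← mul_pow]
          exact mul_le_mul_of_nonneg_right (pow_le_pow_left₀ (norm_nonneg _) (s3 x hx) 2) (hσ x)
      _ ≤ _ := by
          rw [← mul_sum, mul_assoc]
          exact mul_le_mul_of_nonneg_left a2 (sq_nonneg c)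
  rw [← sum_fiberwise_of_maps_to (g := G.cb n) (t := V.image (G.cb n))
    (fun x hx => mem_image_of_mem _ hx)]
  refine (sum_le_card_nsmul _ _ (c ^ 2 * (4 * C1 * (C1 + 1)) * ∑ y ∈ U, φ y)
    (fun Q _ => le_trans ?_ (hQ Q))).trans ?_
  · refine le_trans (le_of_eq (sum_congr rfl (fun x hx => ?_))) (sum_le_sum_of_subset_of_nonneg
      (fun x hx => ?_) (fun x _ _ => mul_nonneg (sq_nonneg _) (hσ x)))
    · obtain ⟨hx1, hx2⟩ := mem_filter.1 hx
      have e : ∑ y ∈ U, a x y * F y = ∑ y ∈ G.tri Q, a x y * F' y := by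
        rw [← sum_subset (s₁ := U) (s₂ := G.tri Q) (fun y hy => hx2 ▸ hUV x hx1 y hy)
          (fun y _ hy => by simp only [hF']; rw [if_neg hy, mul_zero])]
        exact sum_congr rfl (fun y hy => by simp only [hF']; rw [if_pos hy])
      rw [e]
    · rw [← (mem_filter.1 hx).2]
      exact G.mem_cb n x
  · rw [nsmul_eq_mul, mul_assoc (G.A : ℝ)]
    exact mul_le_mul_of_nonneg_right (by exact_mod_cast G.card_image_cb hV) (by positivity)

end Pool.Agent.MP_93f72d_an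

end

-- part MP_93f72d_an.ZGrid
section

/-!
The dyadic grid on the integer lattice.
-/

namespace Pool.Agent.MP_93f72d_an

open Finset

open scoped Classical

variable {d : ℕ}

/-- integer box with corners that are multiples of a power of two -/
noncomputable def zbox (k : ℕ) (l u : Fin d → ℤ) : Finset (Fin d → ℤ) :=
  Fintype.piFinset (fun i => Ico (2 ^ k * l i) (2 ^ k * u i))

lemma mem_zbox' {k : ℕ} {l u y : Fin d → ℤ} :
    y ∈ zbox k l u ↔ ∀ i, 2 ^ k * l i ≤ y i ∧ y i < 2 ^ k * u i := by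
  simp [zbox, Fintype.mem_piFinset]

lemma mem_zbox {k : ℕ} {l u y : Fin d → ℤ} :
    y ∈ zbox k l u ↔ ∀ i, l i ≤ y i / 2 ^ k ∧ y i / 2 ^ k < u i := by
  have h : (0 : ℤ) < 2 ^ k := by positivity
  rw [mem_zbox']
  refine forall_congr' (fun i => ?_)
  rw [Int.le_ediv_iff_mul_le h, Int.ediv_lt_iff_lt_mul h, mul_comm, mul_comm (u i)]

lemma card_zbox (k : ℕ) (l : Fin d → ℤ) (m : ℕ) (u : Fin d → ℤ) (h : ∀ i, u i = l i + m) :
    (zbox k l u).card = m ^ d * (2 ^ d) ^ k := by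
  unfold zbox
  rw [Fintype.card_piFinset, prod_congr rfl (g := fun _ => m * 2 ^ k), prod_const, card_univ,
    Fintype.card_fin, mul_pow, ← pow_mul, ← pow_mul, mul_comm k]
  intro i _
  rw [Int.card_Ico, h i]
  have : 2 ^ k * (l i + m) - 2 ^ k * l i = ((m * 2 ^ k : ℕ) : ℤ) := by push_cast; ring
  rw [this, Int.toNat_natCast]

lemma ediv_pow_succ (x : ℤ) (k : ℕ) : x / 2 ^ (k + 1) = x / 2 ^ k / 2 := by
  rw [pow_succ, Int.ediv_ediv_of_nonneg (by positivity)]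

lemma three_lattice {j r : ℕ} {a b : ℤ}
    (h : ((2 ^ (j + r) * (a - 1) : ℤ) : ZMod 3) = ((2 ^ j * (b - 1) : ℤ) : ZMod 3)) :
    (2 ^ (j + r) * (a - 1) ≤ 2 ^ j * (b - 1) ∧ 2 ^ j * (b + 2) ≤ 2 ^ (j + r) * (a + 2)) ∨
      2 ^ j * (b + 2) ≤ 2 ^ (j + r) * (a - 1) ∨ 2 ^ (j + r) * (a + 2) ≤ 2 ^ j * (b - 1) := by
  rw [ZMod.intCast_eq_intCast_iff_dvd_sub, pow_add, mul_assoc, ← mul_sub] at h
  have h3 : (3 : ℤ) ∣ (b - 1) - 2 ^ r * (a - 1) :=
    (Int.isCoprime_iff_gcd_eq_one.2 (by norm_num : Int.gcd 3 2 = 1)).pow_right.dvd_of_dvd_mul_left h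
  obtain ⟨m, hm⟩ := h3
  have hp : (0 : ℤ) ≤ 2 ^ j := by positivity
  have e : (2 : ℤ) ^ r * (a + 2) = 2 ^ r * (a - 1) + 3 * 2 ^ r := by ring
  rw [pow_add, mul_assoc, mul_assoc, e]
  generalize (2 : ℤ) ^ r * (a - 1) = p at hm ⊢
  generalize (2 : ℤ) ^ r = q
  by_cases h1 : m < 0
  · exact Or.inr (Or.inl (mul_le_mul_of_nonneg_left (by omega) hp))
  by_cases h2 : q ≤ m
  · exact Or.inr (Or.inr (mul_le_mul_of_nonneg_left (by omega) hp))
  · exact Or.inl ⟨mul_le_mul_of_nonneg_left (by omega) hp, mul_le_mul_of_nonneg_left (by omega) hp⟩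

lemma ztri_lam {j r : ℕ} {a b : Fin d → ℤ}
    (h : ∀ i, ((2 ^ (j + r) * (a i - 1) : ℤ) : ZMod 3) = ((2 ^ j * (b i - 1) : ℤ) : ZMod 3)) :
    zbox j (fun i => b i - 1) (fun i => b i + 2) ⊆
      zbox (j + r) (fun i => a i - 1) (fun i => a i + 2) ∨
    Disjoint (zbox j (fun i => b i - 1) (fun i => b i + 2))
      (zbox (j + r) (fun i => a i - 1) (fun i => a i + 2)) := by
  by_cases hc : ∀ i, 2 ^ (j + r) * (a i - 1) ≤ 2 ^ j * (b i - 1) ∧
      2 ^ j * (b i + 2) ≤ 2 ^ (j + r) * (a i + 2)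
  · left
    intro y hy
    rw [mem_zbox'] at hy ⊢
    exact fun i => ⟨(hc i).1.trans (hy i).1, (hy i).2.trans_le (hc i).2⟩
  · right
    rw [not_forall] at hc
    obtain ⟨i, hi⟩ := hc
    rw [disjoint_left]
    intro y hy hy'
    rw [mem_zbox'] at hy hy'
    have a1 := hy i
    have a2 := hy' i
    rcases three_lattice (h i) with h1 | h1 | h1
    · exact hi h1
    · exact absurd (a1.2.trans_le (h1.trans a2.1)) (lt_irrefl _)
    · exact absurd (a2.2.trans_le (h1.trans a1.1)) (lt_irrefl _)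

/-- the dyadic grid on the integer lattice -/
noncomputable def zgrid (hd : 0 < d) : Grid (Fin d → ℤ) (ℕ × (Fin d → ℤ)) (Fin d → ZMod 3) where
  cb k x := (k, fun i => x i / 2 ^ k)
  lev Q := Q.1
  cube Q := zbox Q.1 Q.2 (fun i => Q.2 i + 1)
  tri Q := zbox Q.1 (fun i => Q.2 i - 1) (fun i => Q.2 i + 2)
  col Q := fun i => ((2 ^ Q.1 * (Q.2 i - 1) : ℤ) : ZMod 3)
  D := 2 ^ d
  A := 3 ^ d
  D_pos := by positivity
  lev_cb _ _ := rfl
  mem_cube := by
    rintro ⟨k, a⟩ y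
    rw [mem_zbox, Prod.mk.injEq, funext_iff]
    simp only [true_and]
    exact forall_congr' (fun i => by omega)
  cb_zero x y h := by simpa using h
  cb_succ k x y h := by
    rw [Prod.mk.injEq, funext_iff] at h ⊢
    exact ⟨rfl, fun i => by rw [ediv_pow_succ, ediv_pow_succ, h.2 i]⟩
  card_cube Q := by
    rw [card_zbox _ _ 1 _ (fun i => by simp)]; simp
  tri_self k x := by
    rw [mem_zbox]
    exact fun i => by simp only; omega
  tri_symm k x y h := by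
    rw [mem_zbox] at h ⊢
    exact fun i => by have := h i; simp only at this ⊢; omega
  tri_succ k x y h := by
    rw [mem_zbox] at h ⊢
    exact fun i => by have := h i; simp only [ediv_pow_succ] at this ⊢; omega
  card_tri Q := (card_zbox _ _ 3 _ (fun i => by push_cast; ring)).le
  tri_lam := by
    rintro ⟨k, a⟩ ⟨j, b⟩ h
    rw [funext_iff] at h
    rcases le_total j k with hjk | hjk
    · obtain ⟨r, rfl⟩ := Nat.exists_eq_add_of_le hjk
      rcases ztri_lam h with h1 | h1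
      · exact Or.inr (Or.inl h1)
      · exact Or.inr (Or.inr h1.symm)
    · obtain ⟨r, rfl⟩ := Nat.exists_eq_add_of_le hjk
      rcases ztri_lam (fun i => (h i).symm) with h1 | h1
      · exact Or.inl h1
      · exact Or.inr (Or.inr h1)
  tri_inj := by
    have key : ∀ (k j : ℕ) (a b : Fin d → ℤ), zbox k (fun i => a i - 1) (fun i => a i + 2) ⊆
        zbox j (fun i => b i - 1) (fun i => b i + 2) → ∀ i, 2 ^ j * (b i - 1) ≤ 2 ^ k * (a i - 1) ∧
          2 ^ k * (a i + 2) ≤ 2 ^ j * (b i + 2) := by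
      intro k j a b h i
      have hp : (0 : ℤ) < 2 ^ k := by positivity
      have e : ∀ i, (2 : ℤ) ^ k * (a i + 2) = 2 ^ k * (a i - 1) + 3 * 2 ^ k := fun i => by ring
      have h1 := mem_zbox'.1 (h (x := fun i => 2 ^ k * (a i - 1))
        (mem_zbox'.2 (fun i => ⟨le_rfl, by rw [e]; omega⟩))) i
      have h2 := mem_zbox'.1 (h (x := fun i => 2 ^ k * (a i + 2) - 1)
        (mem_zbox'.2 (fun i => ⟨by rw [e]; omega, by omega⟩))) i
      exact ⟨h1.1, by omega⟩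
    rintro ⟨k, a⟩ ⟨j, b⟩ h
    have h1 := key k j a b h.le
    have h2 := key j k b a h.ge
    have hkj : k = j := by
      have a1 := h1 ⟨0, hd⟩
      have a2 := h2 ⟨0, hd⟩
      have : (2 : ℤ) ^ k = 2 ^ j := by nlinarith [a1.1, a1.2, a2.1, a2.2]
      exact pow_right_injective₀ (by norm_num) (by norm_num) this
    subst hkj
    refine Prod.ext rfl (funext (fun i => ?_))
    have := mul_left_cancel₀ (show (2 : ℤ) ^ k ≠ 0 by positivity) (le_antisymm (h1 i).1 (h2 i).1)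
    simp only
    omega

end Pool.Agent.MP_93f72d_an

end
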